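import Pool.Agent.Y167.ConeDef
import Pool.Agent.N110.PA.NDefs

/-!
Definitions: the cones of effective, movable and nef divisors in the Néron-Severi space, the action
of the automorphisms and pseudo-automorphisms, and rational polyhedral fundamental domains.
-/

set_option autoImplicit false

open FF Pool.Agent.W602.GT Pool.Agent.Y172 Pool.Agent.R887
open Pool.Agent.Y167 (cone)

namespace Pool.Agent.N110.CC

section

variable {K : Type} [Field K] [Algebra ℂ K] {N ρ : ℕ}

/-- The vectors `c P` in `ℤ ^ ρ` are the classes of the prime divisors `P` in the group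
`N¹(X) = ℤ ^ ρ` of the divisors on `X` modulo numerical equivalence (`NumClasses`), and they generate
this group. So `ρ` is the Picard number of `X`, if `X` is `ℚ`-factorial. -/
structure PicardBasis (y : Fin (N + 1) → K) (c : Place ℂ K → Fin ρ → ℤ) : Prop where
  numClasses : NumClasses y c
  generate : ∀ x : Fin ρ → ℤ, x ∈ AddSubgroup.closure {z | ∃ P, IsPrimeDivisor y P ∧ z = c P}

/-- The class of the prime divisor `P` in `N¹(X) ⊗ ℝ = ℝ ^ ρ`. -/
def rcl (c : Place ℂ K → Fin ρ → ℤ) (P : Place ℂ K) : Fin ρ → ℝ := fun i => (c P i : ℝ)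

/-- The class of the divisor `D` in `N¹(X) ⊗ ℝ = ℝ ^ ρ`. -/
noncomputable def divClass (y : Fin (N + 1) → K) (c : Place ℂ K → Fin ρ → ℤ)
    (D : Place ℂ K → ℤ) : Fin ρ → ℝ :=
  ∑ᶠ P ∈ {P : Place ℂ K | IsPrimeDivisor y P}, (D P : ℝ) • rcl c P

/-- The convex cone generated by the set `A`. -/
def coneOf (A : Set (Fin ρ → ℝ)) : Set (Fin ρ → ℝ) :=
  {x | ∃ S : Finset (Fin ρ → ℝ), (S : Set (Fin ρ → ℝ)) ⊆ A ∧ x ∈ cone S}

/-- The effective cone `Eff(X)`: the classes of the effective `ℝ`-divisors. -/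
def effCone (y : Fin (N + 1) → K) (c : Place ℂ K → Fin ρ → ℤ) : Set (Fin ρ → ℝ) :=
  coneOf {z | ∃ P, IsPrimeDivisor y P ∧ z = rcl c P}

/-- The divisor `D` is movable: the base locus of the linear system `|D|` contains no prime divisor.
The function `f` is a section of `D` if `D + div f` is effective; for every prime divisor `P` some
section does not vanish along `P`. -/
def IsMovable (y : Fin (N + 1) → K) (D : Place ℂ K → ℤ) : Prop :=
  {P | IsPrimeDivisor y P ∧ D P ≠ 0}.Finite ∧ ∀ P, IsPrimeDivisor y P → ∃ f : K, f ≠ 0 ∧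
    (∀ Q, IsPrimeDivisor y Q → 0 ≤ Q.ord f + D Q) ∧ P.ord f + D P = 0

/-- The closed movable cone of `X`. -/
def movCone (y : Fin (N + 1) → K) (c : Place ℂ K → Fin ρ → ℤ) : Set (Fin ρ → ℝ) :=
  closure (coneOf {z | ∃ D, IsMovable y D ∧ z = divClass y c D})

/-- The divisor `D` is base point free, `n` being the dimension of `X`: for every point of `X`, the
centre of a divisor `R` over `X`, some section `f` of `D` generates `D` there: the order of
`D + div f` is zero along all prime divisors through the centre of `R`. -/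
def IsFree (y : Fin (N + 1) → K) (n : ℕ) (D : Place ℂ K → ℤ) : Prop :=
  {P | IsPrimeDivisor y P ∧ D P ≠ 0}.Finite ∧ ∀ R, Divisorial n R → ∃ f : K, f ≠ 0 ∧
    (∀ Q, IsPrimeDivisor y Q → 0 ≤ Q.ord f + D Q) ∧
    ∀ P, IsPrimeDivisor y P → Through y P R → P.ord f + D P = 0

/-- The nef cone of `X`: the closed cone generated by the classes of the base point free
divisors. -/
def nefCone (y : Fin (N + 1) → K) (n : ℕ) (c : Place ℂ K → Fin ρ → ℤ) : Set (Fin ρ → ℝ) :=
  closure (coneOf {z | ∃ D, IsFree y n D ∧ z = divClass y c D})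

/-- The linear map `T` is the pull back of divisor classes by the pseudo-automorphism `f` of `X` with
`φ = f^*`: if the prime divisor `P` is the image of `Q` then `T` maps the class of `P` to the class
of `Q`. -/
def IsPullBack (y : Fin (N + 1) → K) (c : Place ℂ K → Fin ρ → ℤ) (φ : K ≃ₐ[ℂ] K)
    (T : (Fin ρ → ℝ) ≃ₗ[ℝ] (Fin ρ → ℝ)) : Prop :=
  ∀ P Q : Place ℂ K, IsPrimeDivisor y P → (∀ g, P.ord g = Q.ord (φ g)) → T (rcl c P) = rcl c Q

/-- The birational self-map `f` of `X` with `φ = f^*` preserves the divisor `Δ`. -/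
def Preserves (φ : K ≃ₐ[ℂ] K) (y : Fin (N + 1) → K) (Δ : Place ℂ K → ℝ) : Prop :=
  ∀ P Q : Place ℂ K, IsPrimeDivisor y P → (∀ g, P.ord g = Q.ord (φ g)) → Δ P = Δ Q

/-- The birational self-map `f` of `X` with `φ = f^*` is an automorphism: if `P` is the image of `Q`
(places of the function field) then `φ` maps the local ring of `X` at the centre of `P` onto the local
ring at the centre of `Q`. -/
def IsAut (φ : K ≃ₐ[ℂ] K) (y : Fin (N + 1) → K) : Prop :=
  ∀ P Q : Place ℂ K, (∀ g, P.ord g = Q.ord (φ g)) → ∀ g, g ∈ localRing y P ↔ φ g ∈ localRing y Q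

/-- Some rational polyhedral cone, generated by the integral vectors in the finite set `S`, is a
fundamental domain for the action of the set `𝒢` of linear automorphisms on `A`. -/
def HasFundDomain (𝒢 : Set ((Fin ρ → ℝ) ≃ₗ[ℝ] (Fin ρ → ℝ))) (A : Set (Fin ρ → ℝ)) : Prop :=
  ∃ S : Finset (Fin ρ → ℝ), (∀ s ∈ S, ∀ i, ∃ m : ℤ, s i = m) ∧ A = ⋃ T ∈ 𝒢, T '' cone S ∧
    ∀ T ∈ 𝒢, T ≠ 1 → interior (cone S) ∩ T '' interior (cone S) = ∅

end

end Pool.Agent.N110.CC
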