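import Pool.Agent.N110.CC.Rep

/-!
Project CC (helper110): the assembly.
-/

set_option autoImplicit false
set_option linter.unusedSectionVars false

open FF Pool.Agent.W602.GT Pool.Agent.Y172 Pool.Agent.R887
open Pool.Agent.Y167 (cone cone_image cone_ind zero_mem_cone mem_cone_self cone_add cone_smul
  cone_mono)
open Pool.Agent.N110 Pool.Agent.N110.PA Pool.Agent.N110.NV Pool.Agent.N492.PA
open Pool.Agent.N165.KM (IntL Sandwich HasFD interior_add_mem interior_smul_mem)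
open Filter Topology

namespace Pool.Agent.N110.CC

section

variable {ρ : ℕ}

theorem coneOf_zero (A : Set (Fin ρ → ℝ)) : (0 : Fin ρ → ℝ) ∈ coneOf A :=
  ⟨∅, by simp, zero_mem_cone _⟩

theorem coneOf_add {A : Set (Fin ρ → ℝ)} {x z : Fin ρ → ℝ} (hx : x ∈ coneOf A)
    (hz : z ∈ coneOf A) : x + z ∈ coneOf A := by
  classical
  obtain ⟨S, hS, hx⟩ := hx
  obtain ⟨S', hS', hz⟩ := hz
  refine ⟨S ∪ S', ?_, cone_add (cone_mono Finset.subset_union_left hx)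
    (cone_mono Finset.subset_union_right hz)⟩
  rw [Finset.coe_union]
  exact Set.union_subset hS hS'

theorem coneOf_smul {A : Set (Fin ρ → ℝ)} {x : Fin ρ → ℝ} (hx : x ∈ coneOf A) {t : ℝ}
    (ht : 0 ≤ t) : t • x ∈ coneOf A := by
  obtain ⟨S, hS, hx⟩ := hx
  exact ⟨S, hS, cone_smul hx ht⟩

theorem coneOf_ind {A : Set (Fin ρ → ℝ)} {p : (Fin ρ → ℝ) → Prop} (h0 : p 0)
    (hadd : ∀ x y, p x → p y → p (x + y)) (hsmul : ∀ (t : ℝ) x, 0 ≤ t → p x → p (t • x))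
    (hA : ∀ a ∈ A, p a) {x : Fin ρ → ℝ} (hx : x ∈ coneOf A) : p x := by
  obtain ⟨S, hS, hx⟩ := hx
  exact cone_ind h0 hadd hsmul (fun a ha => hA a (hS ha)) hx

theorem coneOf_self {A : Set (Fin ρ → ℝ)} {x : Fin ρ → ℝ} (hx : x ∈ A) : x ∈ coneOf A :=
  ⟨{x}, by simpa using hx, mem_cone_self (Finset.mem_singleton_self x)⟩

theorem coneOf_map {A B : Set (Fin ρ → ℝ)} (T : (Fin ρ → ℝ) →ₗ[ℝ] (Fin ρ → ℝ))
    (hT : ∀ a ∈ A, T a ∈ B) {x : Fin ρ → ℝ} (hx : x ∈ coneOf A) : T x ∈ coneOf B := by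
  refine coneOf_ind (p := fun x => T x ∈ coneOf B) (by rw [map_zero]; exact coneOf_zero B)
    (fun x y hx hy => by rw [map_add]; exact coneOf_add hx hy)
    (fun t x ht hx => by rw [map_smul]; exact coneOf_smul hx ht)
    (fun a ha => coneOf_self (hT a ha)) hx

/-- the closure of a cone is a cone -/
theorem closure_coneOf_add {A : Set (Fin ρ → ℝ)} {x z : Fin ρ → ℝ}
    (hx : x ∈ closure (coneOf A)) (hz : z ∈ closure (coneOf A)) :
    x + z ∈ closure (coneOf A) :=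
  map_mem_closure₂ continuous_add hx hz fun _ ha _ hb => coneOf_add ha hb

theorem closure_coneOf_smul {A : Set (Fin ρ → ℝ)} {x : Fin ρ → ℝ}
    (hx : x ∈ closure (coneOf A)) {t : ℝ} (ht : 0 ≤ t) : t • x ∈ closure (coneOf A) :=
  map_mem_closure (continuous_const_smul t) hx fun _ ha => coneOf_smul ha ht

theorem closure_coneOf_map {A B : Set (Fin ρ → ℝ)} (T : (Fin ρ → ℝ) →ₗ[ℝ] (Fin ρ → ℝ))
    (hT : ∀ a ∈ A, T a ∈ B) {x : Fin ρ → ℝ} (hx : x ∈ closure (coneOf A)) :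
    T x ∈ closure (coneOf B) :=
  map_mem_closure (LinearMap.continuous_of_finiteDimensional T) hx fun _ ha => coneOf_map T hT ha

end

section

variable {K : Type} [Field K] [Algebra ℂ K] {N n r : ℕ} {y : Fin (N + 1) → K}
  {c : Place ℂ K → Fin (r + 1) → ℤ} {𝒮 : Subgroup (K ≃ₐ[ℂ] K)}

/-- the closed effective cone -/
abbrev CE (y : Fin (N + 1) → K) {ρ : ℕ} (c : Place ℂ K → Fin ρ → ℤ) : Set (Fin ρ → ℝ) :=
  closure (effSet y (cQ c))

theorem pc_eff {ρ : ℕ} {c : Place ℂ K → Fin ρ → ℤ} (hc : NumClasses y c) : PC (CE y c) :=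
  ⟨isClosed_closure, fun _ hx _ hy => clo_add hx hy, fun _ ht _ hx => clo_smul hx ht,
    fun x hx hx' => hc.salient x hx hx'⟩

/-- **The main theorem.** -/
theorem main (hPF : S_PF) (hCE : S_CE) (hLIN : S_LIN) (hIND : S_IND) (hCOV : S_COV)
    (hUNIT : S_UNIT) (hBALL : S_BALL) (hEFF : S_EFF) (hGROW : S_GROW)
    (hy : NormalModel y) (hn : Algebra.trdeg ℂ K = n) (hn0 : 0 < n) (hr : 0 < r)
    (hc : PicardBasis y c) (h𝒮 : ∀ φ ∈ 𝒮, PseudoAut φ y) {φ : (Fin r → ℤ) → (K ≃ₐ[ℂ] K)}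
    (hφ : ∀ u v, φ (u + v) = φ u * φ v) (hφ𝒮 : ∀ v, φ v ∈ 𝒮)
    (hent : ∀ v, v ≠ 0 → 1 < dynDegree (φ v) y n 1) {i : Fin (N + 1)} (hi : y i ≠ 0)
    {Hy : Place ℂ K → ℚ} (hHe : Effective y Hy)
    (hH : ∀ P l, IsPrimeDivisor y P → Centred y l P → Hy P = P.ord (y i / y l)) :
    toR (cls y (cQ c) Hy) ∈ interior (CE y c) ∧
    (∀ x ∈ effCone y c, x ≠ 0 → x ∈ interior (CE y c)) ∧
    (∀ D : Set (Fin (r + 1) → ℝ), IsClosed D → (∀ x ∈ D, ∀ z ∈ D, x + z ∈ D) →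
      (∀ t : ℝ, 0 ≤ t → ∀ x ∈ D, t • x ∈ D) →
      (∀ ψ ∈ 𝒮, ∀ T, IsPullBack y c ψ T → ∀ x ∈ D, T x ∈ D) → (∃ x ∈ D, x ∈ interior (CE y c)) →
      CE y c ⊆ D) ∧
    (∀ x : Fin (r + 1) → ℝ, (∀ v T, IsPullBack y c (φ v) T → T x = x) → x = 0) ∧
    HasFundDomain {T | ∃ ψ ∈ 𝒮, IsPullBack y c ψ T} (effCone y c) := by
  classical
  obtain ⟨M, hM⟩ := exists_rep hy hc h𝒮
  obtain ⟨h, hh⟩ : ∃ h, h = toR (cls y (cQ c) Hy) := ⟨_, rfl⟩
  have hpc := pc_eff hc.numClasses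
  have hint : h ∈ interior (CE y c) :=
    hBALL (r + 1) _ hpc.add hpc.smul h (by
      rw [hh]
      exact hUNIT K N (r + 1) y hy c hc i hi Hy hHe hH)
  obtain ⟨hE1, hE2⟩ := hEFF K N (r + 1) y hy c hc
  -- the cones are preserved
  have hpresE : ∀ ψ ∈ 𝒮, ∀ x ∈ effCone y c, TR (M ψ) x ∈ effCone y c := by
    intro ψ hψ x hx
    refine coneOf_map (TR (M ψ)) ?_ hx
    rintro _ ⟨P, hP, rfl⟩
    exact ⟨comap ψ⁻¹ P, (psaut_iff.1 (h𝒮 _ (𝒮.inv_mem hψ)) P).2 hP, hM.TR_rcl hψ hP⟩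
  have hpres : ∀ ψ ∈ 𝒮, ∀ x ∈ CE y c, TR (M ψ) x ∈ CE y c := by
    intro ψ hψ x hx
    have hlim : Tendsto (fun k : ℕ => TR (M ψ) (x + (1 / ((k : ℝ) + 1)) • h)) atTop
        (𝓝 (TR (M ψ) (x + (0 : ℝ) • h))) := by
      have h1 : Tendsto (fun k : ℕ => x + (1 / ((k : ℝ) + 1)) • h) atTop (𝓝 (x + (0 : ℝ) • h)) :=
        tendsto_const_nhds.add (tendsto_one_div_add_atTop_nhds_zero_nat.smul_const _)
      exact ((LinearMap.continuous_of_finiteDimensional (TR (M ψ))).tendsto _).comp h1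
    rw [zero_smul, add_zero] at hlim
    refine isClosed_closure.mem_of_tendsto hlim (Eventually.of_forall fun k => ?_)
    have h2 : x + (1 / ((k : ℝ) + 1)) • h ∈ interior (CE y c) := by
      rw [add_comm x]
      exact interior_add_mem hpc.add (interior_smul_mem hpc.smul (by positivity) hint) hx
    exact hE1 (hpresE ψ hψ _ (hE2 h2))
  -- the action
  have hφ0 : φ 0 = 1 := phi_zero hφ
  have hφn : ∀ v, φ (-v) = (φ v)⁻¹ := by
    intro v
    rw [eq_inv_iff_mul_eq_one, ← hφ, neg_add_cancel, hφ0]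
  obtain ⟨a, δ, ha, hδ, hg⟩ := hGROW K N n (r + 1) r y hy hn hn0 hr (by omega) c hc φ hφ
    (fun v => h𝒮 _ (hφ𝒮 v)) hent (fun v => M (φ v)) (by
      show M (φ 0) = 1
      rw [hφ0, hM.one]) (fun u v => by
      show M (φ (u + v)) = M (φ u) * M (φ v)
      rw [hφ, hM.mul _ (hφ𝒮 u) _ (hφ𝒮 v)]) (fun v P hP => by
      show (M (φ v)).mulVec (c P) = c (comap (φ (-v)) P)
      rw [hM.pull _ (hφ𝒮 v) P hP, hφn])
  have hact : Act r (CE y c) (fun v => TR (M (φ v))) := by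
    refine ⟨hr, hpc, ⟨h, hint⟩, ?_, fun u v => ?_, fun v => hpres _ (hφ𝒮 v),
      a / (r + 1), δ, by positivity, hδ, fun v => ?_⟩
    · rw [hφ0, hM.one, TR_one]
    · rw [hφ, hM.mul _ (hφ𝒮 u) _ (hφ𝒮 v), TR_mul]
    · have h1 := hg v
      have h2 : ∑ i, ∑ j, |(M (φ v) i j : ℝ)| ≤
          ((r : ℝ) + 1) * ∑ j, ‖TR (M (φ v)) (Pi.single j 1)‖ := by
        rw [Finset.sum_comm, Finset.mul_sum]
        refine Finset.sum_le_sum fun j _ => ?_
        have h3 : ∀ i, |(M (φ v) i j : ℝ)| ≤ ‖TR (M (φ v)) (Pi.single j 1)‖ := by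
          intro i
          have h4 := norm_le_pi_norm (TR (M (φ v)) (Pi.single j 1)) i
          have h5 : TR (M (φ v)) (Pi.single j 1) i = (M (φ v) i j : ℝ) := by
            rw [TR, Matrix.toLin'_apply, Matrix.mulVec_single_one]
            rfl
          rw [h5, Real.norm_eq_abs] at h4
          exact h4
        refine (Finset.sum_le_sum fun i _ => h3 i).trans (le_of_eq ?_)
        rw [Finset.sum_const, Finset.card_univ, Fintype.card_fin, nsmul_eq_mul]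
        push_cast
        ring
      rw [div_mul_eq_mul_div, div_le_iff₀ (by positivity)]
      linarith
  obtain ⟨W, b, st⟩ := exists_str hPF hCE hLIN hIND hact
  have hTint : ∀ v, ∀ x : Fin (r + 1) → ℝ, (∀ i, ∃ m : ℤ, x i = m) →
      ∀ i, ∃ m : ℤ, TR (M (φ v)) x i = m := fun v x hx => TR_int _ hx
  have hbig : ∀ x ∈ effCone y c, x ≠ 0 → x ∈ interior (CE y c) := by
    intro x hx hx0
    have h1 : x = 0 ∨ x ∈ interior (CE y c) := by
      refine coneOf_ind (p := fun x => x = 0 ∨ x ∈ interior (CE y c)) (Or.inl rfl) ?_ ?_ ?_ hx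
      · rintro x z (rfl | hx) (rfl | hz)
        · left; rw [add_zero]
        · right; rw [zero_add]; exact hz
        · right; rw [add_zero]; exact hx
        · right; exact interior_add_mem hpc.add hx (interior_subset hz)
      · rintro t x ht (rfl | hx)
        · left; rw [smul_zero]
        · rcases ht.eq_or_lt with rfl | ht
          · left; rw [zero_smul]
          · right; exact interior_smul_mem hpc.smul ht hx
      · rintro _ ⟨P, hP, rfl⟩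
        by_cases h0 : rcl c P = 0
        · exact Or.inl h0
        · right
          exact st.integral hTint (hE1 (coneOf_self ⟨P, hP, rfl⟩)) (fun i => ⟨c P i, rfl⟩) h0
    rcases h1 with h1 | h1
    · exact absurd h1 hx0
    · exact h1
  refine ⟨hh ▸ hint, hbig, fun D hcl hadd hsmul hD hx => ?_, fun x hx => ?_, ?_⟩
  · obtain ⟨x, hxD, hxC⟩ := hx
    exact st.rigid hcl hadd hsmul (fun v x hx => hD (φ v) (hφ𝒮 v) (hM.TE ⟨φ v, hφ𝒮 v⟩)
      (hM.isPull ⟨φ v, hφ𝒮 v⟩) x hx) hxD hxC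
  · rw [← b.sum_repr x]
    refine Finset.sum_eq_zero fun ℓ _ => ?_
    obtain ⟨v, hv, -⟩ := st.exists_dir ℓ
    have h1 := hx v (hM.TE ⟨φ v, hφ𝒮 v⟩) (hM.isPull ⟨φ v, hφ𝒮 v⟩)
    rw [hM.TE_apply] at h1
    have h2 := st.repr_G v x ℓ
    rw [h1] at h2
    have h3 : 1 < Real.exp (ev ℓ.1 v) := Real.one_lt_exp_iff.2 hv
    have h4 : b.repr x ℓ = 0 := by
      have h5 : (Real.exp (ev ℓ.1 v) - 1) * b.repr x ℓ = 0 := by linarith
      rcases mul_eq_zero.1 h5 with h6 | h6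
      · linarith
      · exact h6
    rw [h4, zero_smul]
  -- the fundamental domain
  obtain ⟨F, hF, hcov⟩ := st.cover hCOV
  obtain ⟨pull, hpull⟩ : ∃ pull : 𝒮 → ((Fin (r + 1) → ℝ) ≃ₗ[ℝ] (Fin (r + 1) → ℝ)),
    ∀ ψ, pull ψ = hM.TE ψ⁻¹ := ⟨_, fun _ => rfl⟩
  have hfd : HasFD pull (effCone y c) := by
    refine HasFD.of_cover (C := CE y c) ⟨hpc.closed, hpc.add, hpc.smul, hpc.pointed, ⟨h, hint⟩,
      hE1, hE2, fun x hx z hz => coneOf_add hx hz, fun t ht x hx => coneOf_smul hx ht⟩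
      (fun f g => by rw [hpull, hpull, hpull, mul_inv_rev, hM.TE_mul]) (fun f x hx => ?_)
      (fun f x hx => ?_) (fun x hx => ?_) F (fun a ha => ⟨(hF a ha).2, hE2 (hF a ha).1⟩)
      (fun x hx => ?_)
    · rw [hpull, hM.TE_apply]
      exact TR_int _ hx
    · rw [hpull, hM.TE_apply]
      exact hpresE _ (f⁻¹).2 x hx
    · obtain ⟨S, hS, hx⟩ := hx
      refine ⟨S, fun a ha => ?_, hx⟩
      obtain ⟨P, hP, h1⟩ := hS ha
      refine ⟨?_, coneOf_self ⟨P, hP, h1⟩⟩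
      rw [h1]
      exact fun i => ⟨c P i, rfl⟩
    · obtain ⟨v, hv⟩ := hcov x hx
      refine ⟨(⟨φ v, hφ𝒮 v⟩ : 𝒮)⁻¹, ?_⟩
      rw [hpull, inv_inv]
      exact hv
  obtain ⟨S, hS, hU, hdis⟩ := hfd
  have hset : ∀ T, (∃ ψ ∈ 𝒮, IsPullBack y c ψ T) ↔ ∃ f : 𝒮, T = pull f := by
    intro T
    constructor
    · rintro ⟨ψ, hψ, hT⟩
      refine ⟨(⟨ψ, hψ⟩ : 𝒮)⁻¹, ?_⟩
      rw [hpull, inv_inv]
      exact pull_ext hc hT (hM.isPull ⟨ψ, hψ⟩)
    · rintro ⟨f, rfl⟩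
      rw [hpull]
      exact ⟨_, (f⁻¹).2, hM.isPull f⁻¹⟩
  refine ⟨S, hS, ?_, fun T hT hT1 => ?_⟩
  · rw [hU]
    ext x
    simp only [Set.mem_iUnion, Set.mem_setOf_eq]
    constructor
    · rintro ⟨f, hf⟩
      exact ⟨pull f, (hset _).2 ⟨f, rfl⟩, hf⟩
    · rintro ⟨T, hT, hx⟩
      obtain ⟨f, rfl⟩ := (hset T).1 hT
      exact ⟨f, hx⟩
  · obtain ⟨f, rfl⟩ := (hset T).1 hT
    exact hdis f hT1

end

end Pool.Agent.N110.CC
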