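import Pool.Agent.N110.CC.Res

/-!
Project CC (helper110): the structure of the closed effective cone, and rational classes in it.
-/

set_option autoImplicit false
set_option linter.unusedSectionVars false

open FF Pool.Agent.W602.GT Pool.Agent.Y172 Pool.Agent.R887
open Pool.Agent.Y167 (cone)
open Pool.Agent.N110 Pool.Agent.N110.PA Pool.Agent.N110.NV Pool.Agent.N492.PA
open Pool.Agent.N165.KM (interior_add_mem interior_smul_mem)
open Filter Topology

namespace Pool.Agent.N110.CC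

section

variable {K : Type} [Field K] [Algebra ℂ K] {N n r : ℕ} {y : Fin (N + 1) → K}
  {c : Place ℂ K → Fin (r + 1) → ℤ}

/-- the class of a hyperplane section is in the interior -/
theorem hyp_int (hy : NormalModel y) (hc : PicardBasis y c) {i : Fin (N + 1)} (hi : y i ≠ 0)
    {Hy : Place ℂ K → ℚ} (hHe : Effective y Hy)
    (hH : ∀ P l, IsPrimeDivisor y P → Centred y l P → Hy P = P.ord (y i / y l)) :
    toR (cls y (cQ c) Hy) ∈ interior (CE y c) :=
  Pool.Agent.N380.CC.leafBALL (r + 1) _ (pc_eff hc.numClasses).add (pc_eff hc.numClasses).smul _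
    (Pool.Agent.N249.CC.leafUNIT K N (r + 1) y hy c hc i hi Hy hHe hH)

/-- the structure of the closed effective cone -/
theorem exists_strG (hy : NormalModel y) (hn : Algebra.trdeg ℂ K = n) (hn0 : 0 < n) (hr : 0 < r)
    (hc : PicardBasis y c) {φ : (Fin r → ℤ) → (K ≃ₐ[ℂ] K)}
    (hφ : ∀ u v, φ (u + v) = φ u * φ v) (hPA : ∀ v, PseudoAut (φ v) y)
    (hent : ∀ v, v ≠ 0 → 1 < dynDegree (φ v) y n 1) :
    ∃ M, Rep y c (psGroup y) M ∧ ∃ W b, Str (CE y c) (fun v => TR (M (φ v))) W b := by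
  classical
  obtain ⟨i, hi⟩ := hy.ne
  obtain ⟨Hy, hHe, hH⟩ := exists_hyp hy hi
  obtain ⟨M, hM⟩ := exists_rep hy hc (𝒮 := psGroup y) (fun _ h => h)
  obtain ⟨h, hh⟩ : ∃ h, h = toR (cls y (cQ c) Hy) := ⟨_, rfl⟩
  have hpc := pc_eff hc.numClasses
  have hint : h ∈ interior (CE y c) := hh ▸ hyp_int hy hc hi hHe hH
  obtain ⟨hE1, hE2⟩ := Pool.Agent.N40.CC.leafEFF K N (r + 1) y hy c hc
  -- the cones are preserved
  have hpresE : ∀ ψ ∈ psGroup y, ∀ x ∈ effCone y c, TR (M ψ) x ∈ effCone y c := by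
    intro ψ hψ x hx
    refine coneOf_map (TR (M ψ)) ?_ hx
    rintro _ ⟨P, hP, rfl⟩
    exact ⟨comap ψ⁻¹ P, (psaut_iff.1 ((psGroup y).inv_mem hψ) P).2 hP, hM.TR_rcl hψ hP⟩
  have hpres : ∀ ψ ∈ psGroup y, ∀ x ∈ CE y c, TR (M ψ) x ∈ CE y c := by
    intro ψ hψ x hx
    have hlim : Tendsto (fun k : ℕ => TR (M ψ) (x + (1 / ((k : ℝ) + 1)) • h)) atTop
        (𝓝 (TR (M ψ) (x + (0 : ℝ) • h))) := by
      have h1 : Tendsto (fun k : ℕ => x + (1 / ((k : ℝ) + 1)) • h) atTop (𝓝 (x + (0 : ℝ) • h)) :=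
        tendsto_const_nhds.add (tendsto_one_div_add_atTop_nhds_zero_nat.smul_const _)
      exact ((LinearMap.continuous_of_finiteDimensional (TR (M ψ))).tendsto _).comp h1
    rw [zero_smul, add_zero] at hlim
    refine isClosed_closure.mem_of_tendsto hlim (Eventually.of_forall fun k => ?_)
    have h2 : x + (1 / ((k : ℝ) + 1)) • h ∈ interior (CE y c) := by
      rw [add_comm x]
      exact interior_add_mem hpc.add (interior_smul_mem hpc.smul (by positivity) hint) hx
    exact hE1 (hpresE ψ hψ _ (hE2 h2))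
  -- the action
  have hφ0 : φ 0 = 1 := phi_zero hφ
  have hφn : ∀ v, φ (-v) = (φ v)⁻¹ := by
    intro v
    rw [eq_inv_iff_mul_eq_one, ← hφ, neg_add_cancel, hφ0]
  obtain ⟨a, δ, ha, hδ, hg⟩ := Pool.Agent.N27.CC.leafGROW K N n (r + 1) r y hy hn hn0 hr (by omega)
    c hc φ hφ hPA hent (fun v => M (φ v)) (by
      show M (φ 0) = 1
      rw [hφ0, hM.one]) (fun u v => by
      show M (φ (u + v)) = M (φ u) * M (φ v)
      rw [hφ, hM.mul _ (hPA u) _ (hPA v)]) (fun v P hP => by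
      show (M (φ v)).mulVec (c P) = c (comap (φ (-v)) P)
      rw [hM.pull _ (hPA v) P hP, hφn])
  have hact : Act r (CE y c) (fun v => TR (M (φ v))) := by
    refine ⟨hr, hpc, ⟨h, hint⟩, ?_, fun u v => ?_, fun v => hpres _ (hPA v),
      a / (r + 1), δ, by positivity, hδ, fun v => ?_⟩
    · rw [hφ0, hM.one, TR_one]
    · rw [hφ, hM.mul _ (hPA u) _ (hPA v), TR_mul]
    · have h1 := hg v
      have h2 : ∑ i, ∑ j, |(M (φ v) i j : ℝ)| ≤
          ((r : ℝ) + 1) * ∑ j, ‖TR (M (φ v)) (Pi.single j 1)‖ := by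
        rw [Finset.sum_comm, Finset.mul_sum]
        refine Finset.sum_le_sum fun j _ => ?_
        have h3 : ∀ i, |(M (φ v) i j : ℝ)| ≤ ‖TR (M (φ v)) (Pi.single j 1)‖ := by
          intro i
          have h4 := norm_le_pi_norm (TR (M (φ v)) (Pi.single j 1)) i
          have h5 : TR (M (φ v)) (Pi.single j 1) i = (M (φ v) i j : ℝ) := by
            rw [TR, Matrix.toLin'_apply, Matrix.mulVec_single_one]
            rfl
          rw [h5, Real.norm_eq_abs] at h4
          exact h4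
        refine (Finset.sum_le_sum fun i _ => h3 i).trans (le_of_eq ?_)
        rw [Finset.sum_const, Finset.card_univ, Fintype.card_fin, nsmul_eq_mul]
        push_cast
        ring
      rw [div_mul_eq_mul_div, div_le_iff₀ (by positivity)]
      linarith
  exact ⟨M, hM, exists_str Pool.Agent.N386.CC.leafPF
    (Pool.Agent.N707.CC.leafCE Pool.Agent.N386.CC.leafPF) Pool.Agent.N769.CC.leafLIN
    (Pool.Agent.N394.CC.leafIND Pool.Agent.N395.CC.leafSEP) hact⟩

/-- rational classes in the closed effective cone are zero or in its interior -/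
theorem rat_int (hy : NormalModel y) (hn : Algebra.trdeg ℂ K = n) (hn0 : 0 < n) (hr : 0 < r)
    (hc : PicardBasis y c) {φ : (Fin r → ℤ) → (K ≃ₐ[ℂ] K)}
    (hφ : ∀ u v, φ (u + v) = φ u * φ v) (hPA : ∀ v, PseudoAut (φ v) y)
    (hent : ∀ v, v ≠ 0 → 1 < dynDegree (φ v) y n 1) {q : Fin (r + 1) → ℚ}
    (hq : toR q ∈ CE y c) (hq0 : q ≠ 0) : toR q ∈ interior (CE y c) := by
  classical
  obtain ⟨M, hM, W, b, st⟩ := exists_strG hy hn hn0 hr hc hφ hPA hent
  have hpc := pc_eff hc.numClasses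
  obtain ⟨d, hd⟩ : ∃ d : ℕ, d = ∏ i, (q i).den := ⟨_, rfl⟩
  have hd0 : 0 < d := by
    rw [hd]
    exact Finset.prod_pos fun i _ => (q i).den_pos
  have hd0' : (0 : ℝ) < d := by exact_mod_cast hd0
  have hint : ∀ i, ∃ m : ℤ, ((d : ℝ) • toR q) i = m := by
    intro i
    obtain ⟨k, hk⟩ : (q i).den ∣ d := hd ▸ Finset.dvd_prod_of_mem _ (Finset.mem_univ i)
    refine ⟨k * (q i).num, ?_⟩
    have h1 : (d : ℚ) * q i = k * (q i).num := by
      rw [hk]
      push_cast
      have h2 : ((q i).den : ℚ) * q i = (q i).num := Rat.den_mul_eq_num (q i)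
      linear_combination (k : ℚ) * h2
    have h3 : ((d : ℝ) • toR q) i = (((d : ℚ) * q i : ℚ) : ℝ) := by
      rw [Pi.smul_apply, smul_eq_mul]
      push_cast
      rfl
    rw [h3, h1]
    push_cast
    rfl
  have h1 := st.integral (fun v x hx => TR_int _ hx) (hpc.smul d hd0'.le _ hq) hint (by
    intro h0
    apply hq0
    funext i
    have h2 := congrFun h0 i
    rw [Pi.smul_apply, smul_eq_mul, Pi.zero_apply] at h2
    have h3 : toR q i = 0 := (mul_eq_zero.1 h2).resolve_left hd0'.ne'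
    have h4 : ((q i : ℚ) : ℝ) = 0 := h3
    exact_mod_cast h4)
  have h2 := interior_smul_mem hpc.smul (inv_pos.2 hd0') h1
  rwa [smul_smul, inv_mul_cancel₀ hd0'.ne', one_smul] at h2

end

end Pool.Agent.N110.CC
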