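import Pool.Agent.N110.CC.Defs
import Pool.Agent.N110.PA.MatN

/-!
Project CC (helper110): statements of the geometric parts.
-/

set_option autoImplicit false

open FF Pool.Agent.W602.GT Pool.Agent.Y172 Pool.Agent.R887
open Pool.Agent.Y167 (cone)
open Pool.Agent.N110 Pool.Agent.N110.PA Pool.Agent.N110.NV Pool.Agent.N492.PA
open scoped ENNReal

namespace Pool.Agent.N110.CC

/-- (UNIT) the class of a hyperplane section is an order unit -/
def S_UNIT : Prop :=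
  ∀ (K : Type) [Field K] [Algebra ℂ K] (N ρ : ℕ) (y : Fin (N + 1) → K), NormalModel y →
    ∀ c : Place ℂ K → Fin ρ → ℤ, PicardBasis y c → ∀ i, y i ≠ 0 → ∀ Hy : Place ℂ K → ℚ,
    Effective y Hy → (∀ P l, IsPrimeDivisor y P → Centred y l P → Hy P = P.ord (y i / y l)) →
    ∀ x : Fin ρ → ℝ, ∃ t : ℝ, 0 ≤ t ∧
      t • toR (cls y (cQ c) Hy) - x ∈ closure (effSet y (cQ c))

/-- (BALL) an order unit is in the interior -/
def S_BALL : Prop :=
  ∀ (ρ : ℕ) (C : Set (Fin ρ → ℝ)), (∀ x ∈ C, ∀ y ∈ C, x + y ∈ C) →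
    (∀ t : ℝ, 0 ≤ t → ∀ x ∈ C, t • x ∈ C) → ∀ h : Fin ρ → ℝ,
    (∀ x, ∃ t : ℝ, 0 ≤ t ∧ t • h - x ∈ C) → h ∈ interior C

/-- (EFF) the effective cone and its closure -/
def S_EFF : Prop :=
  ∀ (K : Type) [Field K] [Algebra ℂ K] (N ρ : ℕ) (y : Fin (N + 1) → K), NormalModel y →
    ∀ c : Place ℂ K → Fin ρ → ℤ, PicardBasis y c →
    effCone y c ⊆ closure (effSet y (cQ c)) ∧ interior (closure (effSet y (cQ c))) ⊆ effCone y c

/-- (MOV) pull back of movable divisors -/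
def S_MOV : Prop :=
  ∀ (K : Type) [Field K] [Algebra ℂ K] (N ρ : ℕ) (y : Fin (N + 1) → K), NormalModel y →
    ∀ (c : Place ℂ K → Fin ρ → ℤ) (φ : K ≃ₐ[ℂ] K), PseudoAut φ y →
    ∀ T : (Fin ρ → ℝ) ≃ₗ[ℝ] (Fin ρ → ℝ), IsPullBack y c φ T → ∀ D : Place ℂ K → ℤ,
    {P | IsPrimeDivisor y P ∧ D P ≠ 0}.Finite →
    divClass y c (fun P => D (comap φ P)) = T (divClass y c D) ∧
    (IsMovable y D → IsMovable y (fun P => D (comap φ P)))

/-- (FREE) pull back of base point free divisors by automorphisms -/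
def S_FREE : Prop :=
  ∀ (K : Type) [Field K] [Algebra ℂ K] (N n : ℕ) (y : Fin (N + 1) → K), NormalModel y →
    ∀ (φ : K ≃ₐ[ℂ] K), IsAut φ y → PseudoAut φ y ∧ ∀ D : Place ℂ K → ℤ,
    IsFree y n D → IsFree y n (fun P => D (comap φ P))

/-- (HYP) hyperplane sections are base point free and movable -/
def S_HYP : Prop :=
  ∀ (K : Type) [Field K] [Algebra ℂ K] (N n ρ : ℕ) (y : Fin (N + 1) → K), NormalModel y →
    Algebra.trdeg ℂ K = n → 0 < n →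
    ∀ c : Place ℂ K → Fin ρ → ℤ, ∀ i, y i ≠ 0 → ∀ Hy : Place ℂ K → ℚ,
    Effective y Hy → (∀ P l, IsPrimeDivisor y P → Centred y l P → Hy P = P.ord (y i / y l)) →
    ∃ D : Place ℂ K → ℤ, IsFree y n D ∧ IsMovable y D ∧ divClass y c D = toR (cls y (cQ c) Hy)

/-- (PSEF) base point free divisors are movable, and movable divisors are effective -/
def S_PSEF : Prop :=
  ∀ (K : Type) [Field K] [Algebra ℂ K] (N n ρ : ℕ) (y : Fin (N + 1) → K), NormalModel y →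
    Algebra.trdeg ℂ K = n → 0 < n →
    ∀ c : Place ℂ K → Fin ρ → ℤ, NumClasses y c → (∃ P, IsPrimeDivisor y P) →
    ∀ D : Place ℂ K → ℤ, (IsFree y n D → IsMovable y D) ∧
      (IsMovable y D → divClass y c D ∈ closure (effSet y (cQ c)))

/-- (GROW) positive entropy implies the growth of the matrices -/
def S_GROW : Prop :=
  ∀ (K : Type) [Field K] [Algebra ℂ K] (N n ρ r : ℕ) (y : Fin (N + 1) → K), NormalModel y →
    Algebra.trdeg ℂ K = n → 0 < n → 0 < r → 0 < ρ →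
    ∀ c : Place ℂ K → Fin ρ → ℤ, PicardBasis y c → ∀ φ : (Fin r → ℤ) → (K ≃ₐ[ℂ] K),
    (∀ u v, φ (u + v) = φ u * φ v) → (∀ v, PseudoAut (φ v) y) →
    (∀ v, v ≠ 0 → 1 < dynDegree (φ v) y n 1) →
    ∀ M : (Fin r → ℤ) → Matrix (Fin ρ) (Fin ρ) ℤ, M 0 = 1 → (∀ u v, M (u + v) = M u * M v) →
    (∀ v P, IsPrimeDivisor y P → (M v).mulVec (c P) = c (comap (φ (-v)) P)) →
    ∃ a δ : ℝ, 0 < a ∧ 0 < δ ∧ ∀ v, a * Real.exp (δ * ∑ i, |(v i : ℝ)|) ≤
      ∑ i, ∑ j, |(M v i j : ℝ)|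

end Pool.Agent.N110.CC
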