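import Pool.Agent.N110.NV.Defs

/-!
Definitions: pseudo-effective and big divisors, and finite morphisms.
-/

set_option autoImplicit false

open FF Pool.Agent.W602.GT Pool.Agent.Y172 Pool.Agent.R887

namespace Pool.Agent.N110.CC

section

variable {K K' : Type} [Field K] [Algebra ℂ K] [Field K'] [Algebra ℂ K'] {N N' : ℕ}

/-- The divisor `L` on `X` is pseudo-effective: for all `q ≥ 1` some multiple of `q L + H`, `H`
being a hyperplane section `y i = 0`, is linearly equivalent to an effective divisor. In particular
nef divisors are pseudo-effective. -/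
def PsefD (y : Fin (N + 1) → K) (L : Place ℂ K → ℚ) : Prop :=
  ∀ i, y i ≠ 0 → ∀ q : ℕ, 1 ≤ q → ∃ m : ℕ, 1 ≤ m ∧ ∃ f : K, f ≠ 0 ∧
    ∀ P l, IsPrimeDivisor y P → Centred y l P →
      0 ≤ (P.ord f : ℚ) + m * (q * L P + P.ord (y i / y l))

/-- The divisor `L` on `X` is big: some multiple `m L`, `m ≥ 1`, is linearly equivalent to the sum
of a hyperplane section `y i = 0` and an effective divisor. -/
def BigD (y : Fin (N + 1) → K) (L : Place ℂ K → ℚ) : Prop :=
  ∀ i, y i ≠ 0 → ∃ m : ℕ, 1 ≤ m ∧ ∃ f : K, f ≠ 0 ∧
    ∀ P l, IsPrimeDivisor y P → Centred y l P →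
      (P.ord (y i / y l) : ℚ) ≤ P.ord f + m * L P

/-- The generically finite rational map `X' ⇢ X` given by the homomorphism `π` of the function
fields is a finite morphism in codimension one: if the divisor `Q` over `X'` lies over the divisor
`P` over `X` then `Q` is a prime divisor of `X'` if and only if `P` is a prime divisor of `X`. This
holds for the finite morphisms `X' → X`, for instance the quotient maps by finite groups. -/
def FiniteMap (π : K →ₐ[ℂ] K') (y : Fin (N + 1) → K) (y' : Fin (N' + 1) → K') : Prop :=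
  ∀ Q P e, LiesOver π Q P e → (IsPrimeDivisor y' Q ↔ IsPrimeDivisor y P)

end

end Pool.Agent.N110.CC
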