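import Pool.Agent.N110.CC.Defs
import Pool.Agent.N110.CC.RDefs

/-!
Definitions: the convex cone generated by the rational vectors of a cone.
-/

set_option autoImplicit false

namespace Pool.Agent.N110.CC

section

variable {ρ : ℕ}

/-- The convex cone generated by the rational vectors in `A`. If `A` is a convex cone this is the
convex hull of the rational vectors in `A`. -/
def ratHull (A : Set (Fin ρ → ℝ)) : Set (Fin ρ → ℝ) :=
  coneOf {x | x ∈ A ∧ ∀ i, ∃ q : ℚ, x i = q}

end

end Pool.Agent.N110.CC
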