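import Pool.Agent.N110.CC.Hull
import Pool.Agent.N110.CC.HDefs

/-!
Project CC (helper110): the rational hulls of the nef cone and the movable cone of finite images.
-/

set_option autoImplicit false
set_option linter.unusedSectionVars false

open FF Pool.Agent.W602.GT Pool.Agent.Y172 Pool.Agent.R887
open Pool.Agent.N110 Pool.Agent.N110.PA Pool.Agent.N110.NV Pool.Agent.N492.PA

namespace Pool.Agent.N110.CC

section

variable {K K' : Type} [Field K] [Algebra ℂ K] [Field K'] [Algebra ℂ K'] {N N' n r ρ : ℕ}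
  {y : Fin (N + 1) → K} {y' : Fin (N' + 1) → K'} {c : Place ℂ K → Fin ρ → ℤ}

theorem mov_class (hy : NormalModel y) (hn : Algebra.trdeg ℂ K = n) (hn0 : 0 < n)
    (hc : PicardBasis y c) {D : Place ℂ K → ℤ} (hD : IsMovable y D) :
    divClass y c D ∈ CE y c := by
  by_cases hex : ∃ P, IsPrimeDivisor y P
  · exact (Pool.Agent.N681.CC.leafPSEF K N n ρ y hy hn hn0 c hc.numClasses hex D).2 hD
  · have h0 : ∀ z : Fin ρ → ℤ, z = 0 := by
      intro z
      have h1 := hc.generate z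
      have h2 : {z | ∃ P, IsPrimeDivisor y P ∧ z = c P} = (∅ : Set (Fin ρ → ℤ)) := by
        ext z
        simp only [Set.mem_setOf_eq, Set.mem_empty_iff_false, iff_false]
        rintro ⟨P, hP, -⟩
        exact hex ⟨P, hP⟩
      rwa [h2, AddSubgroup.closure_empty, AddSubgroup.mem_bot] at h1
    have h1 : divClass y c D = 0 := by
      funext i
      exact absurd (congrFun (h0 (fun _ => 1)) i) one_ne_zero
    have h2 : (0 : Fin ρ → ℝ) ∈ effCone y c := coneOf_zero _
    rw [h1]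
    exact (Pool.Agent.N40.CC.leafEFF K N ρ y hy c hc).1 h2

theorem mov_sub (hy : NormalModel y) (hn : Algebra.trdeg ℂ K = n) (hn0 : 0 < n)
    (hc : PicardBasis y c) : movCone y c ⊆ CE y c := by
  have hpc := pc_eff hc.numClasses
  refine closure_minimal ?_ isClosed_closure
  intro x hx
  refine coneOf_ind (p := fun x => x ∈ CE y c) ?_ (fun x z hx hz => hpc.add x hx z hz)
    (fun t x ht hx => hpc.smul t ht x hx) ?_ hx
  · exact (Pool.Agent.N40.CC.leafEFF K N ρ y hy c hc).1 (coneOf_zero _)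
  · rintro _ ⟨D, hD, rfl⟩
    exact mov_class hy hn hn0 hc hD

theorem nef_sub_mov (hy : NormalModel y) (hn : Algebra.trdeg ℂ K = n) (hn0 : 0 < n)
    (hc : PicardBasis y c) : nefCone y n c ⊆ movCone y c := by
  refine closure_mono ?_
  intro x hx
  refine coneOf_map LinearMap.id ?_ hx
  rintro _ ⟨D, hD, rfl⟩
  refine ⟨D, ?_, rfl⟩
  by_cases hex : ∃ P, IsPrimeDivisor y P
  · exact (Pool.Agent.N681.CC.leafPSEF K N n ρ y hy hn hn0 c hc.numClasses hex D).1 hD
  · exact ⟨hD.1, fun P hP => absurd ⟨P, hP⟩ hex⟩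

theorem closure_eff (hy : NormalModel y) (hc : PicardBasis y c) :
    closure (effCone y c) ⊆ CE y c :=
  closure_minimal (Pool.Agent.N40.CC.leafEFF K N ρ y hy c hc).1 isClosed_closure

theorem hull_img (hy : NormalModel y) (hy' : NormalModel y') (hn : Algebra.trdeg ℂ K = n)
    (hn' : Algebra.trdeg ℂ K' = n) (hn0 : 0 < n) (hr : 0 < r)
    {c' : Place ℂ K' → Fin (r + 1) → ℤ} (hc' : PicardBasis y' c')
    {φ : (Fin r → ℤ) → (K' ≃ₐ[ℂ] K')} (hφ : ∀ u v, φ (u + v) = φ u * φ v)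
    (hps : ∀ v, PseudoAut (φ v) y') (hent : ∀ v, v ≠ 0 → 1 < dynDegree (φ v) y' n 1)
    {π : K →ₐ[ℂ] K'} (hπ : FiniteMap π y y') (hc : PicardBasis y c) :
    (∀ x ∈ closure (effCone y c), (∀ i, ∃ q : ℚ, x i = q) → x = 0 ∨ x ∈ interior (effCone y c)) ∧
      ratHull (nefCone y n c) ⊆ nefCone y n c ∩ effCone y c ∧
      ratHull (movCone y c) ⊆ movCone y c ∩ effCone y c := by
  have key : ∀ x ∈ CE y c, (∀ i, ∃ q : ℚ, x i = q) → x = 0 ∨ x ∈ interior (effCone y c) := by
    intro x hx hq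
    choose q hq using hq
    have h1 : x = toR q := funext hq
    rw [h1] at hx ⊢
    rcases rat_img hy hy' hn hn' hn0 hr hc' hφ hps hent hπ hc hx with h | h
    · left
      rw [h]
      funext i
      simp [toR]
    · exact Or.inr (interior_maximal (Pool.Agent.N40.CC.leafEFF K N ρ y hy c hc).2
        isOpen_interior h)
  have hgen : ∀ A : Set (Fin ρ → ℝ), A ⊆ CE y c → (0 : Fin ρ → ℝ) ∈ A →
      (∀ x ∈ A, ∀ z ∈ A, x + z ∈ A) → (∀ t : ℝ, 0 ≤ t → ∀ x ∈ A, t • x ∈ A) →
      ratHull A ⊆ A ∩ effCone y c := by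
    intro A hA h0 hadd hsmul x hx
    refine coneOf_ind (p := fun x => x ∈ A ∩ effCone y c) ⟨h0, coneOf_zero _⟩
      (fun x z hx hz => ⟨hadd x hx.1 z hz.1, coneOf_add hx.2 hz.2⟩)
      (fun t x ht hx => ⟨hsmul t ht x hx.1, coneOf_smul hx.2 ht⟩) ?_ hx
    rintro z ⟨hz, hzq⟩
    refine ⟨hz, ?_⟩
    rcases key z (hA hz) hzq with h | h
    · rw [h]
      exact coneOf_zero _
    · exact interior_subset h
  refine ⟨fun x hx => key x (closure_eff hy hc hx), ?_, ?_⟩
  · exact hgen _ ((nef_sub_mov hy hn hn0 hc).trans (mov_sub hy hn hn0 hc))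
      (subset_closure (coneOf_zero _)) (fun x hx z hz => closure_coneOf_add hx hz)
      (fun t ht x hx => closure_coneOf_smul hx ht)
  · exact hgen _ (mov_sub hy hn hn0 hc)
      (subset_closure (coneOf_zero _)) (fun x hx z hz => closure_coneOf_add hx hz)
      (fun t ht x hx => closure_coneOf_smul hx ht)

end

end Pool.Agent.N110.CC
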