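import Pool.Agent.N110.CC.R

/-!
Project CC (helper110): rational classes in the closed effective cone of finite images.
-/

set_option autoImplicit false
set_option linter.unusedSectionVars false

open FF Pool.Agent.W602.GT Pool.Agent.Y172 Pool.Agent.R887
open Pool.Agent.N110 Pool.Agent.N110.PA Pool.Agent.N110.NV Pool.Agent.N492.PA
open Pool.Agent.N165.KM (interior_add_mem interior_smul_mem)

namespace Pool.Agent.N110.CC

section

variable {K K' : Type} [Field K] [Algebra ℂ K] [Field K'] [Algebra ℂ K'] {N N' n r ρ : ℕ}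
  {y : Fin (N + 1) → K} {y' : Fin (N' + 1) → K'} {c : Place ℂ K → Fin ρ → ℤ}

theorem hyp_intN (hy : NormalModel y) (hc : PicardBasis y c) {i : Fin (N + 1)} (hi : y i ≠ 0)
    {Hy : Place ℂ K → ℚ} (hHe : Effective y Hy)
    (hH : ∀ P l, IsPrimeDivisor y P → Centred y l P → Hy P = P.ord (y i / y l)) :
    toR (cls y (cQ c) Hy) ∈ interior (CE y c) :=
  Pool.Agent.N380.CC.leafBALL ρ _ (pc_eff hc.numClasses).add (pc_eff hc.numClasses).smul _
    (Pool.Agent.N249.CC.leafUNIT K N ρ y hy c hc i hi Hy hHe hH)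

/-- every rational class is the class of a divisor -/
theorem exists_div (hc : PicardBasis y c) (q : Fin ρ → ℚ) : ∃ L : Place ℂ K → ℚ,
    {P | IsPrimeDivisor y P ∧ L P ≠ 0}.Finite ∧ cls y (cQ c) L = q := by
  classical
  have key : ∀ z : Fin ρ → ℤ, ∃ L : Place ℂ K → ℚ, Fin0 y L ∧
      cls y (cQ c) L = fun i => (z i : ℚ) := by
    intro z
    have h1 := hc.generate z
    induction h1 using AddSubgroup.closure_induction with
    | mem z hz =>
      obtain ⟨P, hP, rfl⟩ := hz
      refine ⟨fun Q => if Q = P then 1 else 0, fin_single P 1, ?_⟩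
      rw [cls_single hP, one_smul]
      rfl
    | zero =>
      refine ⟨fun _ => 0, Set.finite_empty.subset ?_, ?_⟩
      · rintro P ⟨-, h⟩
        exact h rfl
      · have h2 := cls_smul (y := y) (c := cQ c) (r := 0) (fun _ => 0)
        rw [zero_smul] at h2
        simp only [mul_zero] at h2
        rw [h2]
        funext i
        simp
    | add a b _ _ ha hb =>
      obtain ⟨L, hL, h1⟩ := ha
      obtain ⟨L', hL', h2⟩ := hb
      refine ⟨fun P => L P + L' P, hL.add hL', ?_⟩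
      rw [cls_add hL hL', h1, h2]
      funext i
      simp
    | neg a _ ha =>
      obtain ⟨L, hL, h1⟩ := ha
      refine ⟨fun P => -L P, fin_neg hL, ?_⟩
      rw [cls_neg, h1]
      funext i
      simp
  obtain ⟨d, hd⟩ : ∃ d : ℕ, d = ∏ i, (q i).den := ⟨_, rfl⟩
  have hd0 : 0 < d := by
    rw [hd]
    exact Finset.prod_pos fun i _ => (q i).den_pos
  have hd0' : (d : ℚ) ≠ 0 := by exact_mod_cast hd0.ne'
  have hz : ∀ i, ∃ m : ℤ, (m : ℚ) = d * q i := by
    intro i
    obtain ⟨k, hk⟩ : (q i).den ∣ d := hd ▸ Finset.dvd_prod_of_mem _ (Finset.mem_univ i)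
    refine ⟨k * (q i).num, ?_⟩
    have h2 : ((q i).den : ℚ) * q i = (q i).num := Rat.den_mul_eq_num (q i)
    rw [hk]
    push_cast
    linear_combination (-(k : ℚ)) * h2
  choose z hz using hz
  obtain ⟨L, hL, h1⟩ := key z
  refine ⟨fun P => (d : ℚ)⁻¹ * L P, hL.smul _, ?_⟩
  rw [cls_smul, h1]
  funext i
  rw [Pi.smul_apply, smul_eq_mul, hz i, ← mul_assoc, inv_mul_cancel₀ hd0', one_mul]

/-- a divisor whose class is in the closed effective cone is pseudo-effective -/
theorem psef_of_class (hy : NormalModel y) (hc : PicardBasis y c) {L : Place ℂ K → ℚ}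
    (hL : {P | IsPrimeDivisor y P ∧ L P ≠ 0}.Finite) (h : toR (cls y (cQ c) L) ∈ CE y c) :
    PsefD y L := by
  intro i hi q hq
  obtain ⟨Hy, hHe, hH⟩ := exists_hyp hy hi
  have hpc := pc_eff hc.numClasses
  have h1 : toR (cls y (cQ c) (fun P => (q : ℚ) * L P + Hy P)) ∈ interior (CE y c) := by
    rw [cls_add (Fin0.smul hL (q : ℚ)) hHe.2, toR_add, cls_smul, toR_smul, add_comm]
    exact interior_add_mem hpc.add (hyp_intN hy hc hi hHe hH)
      (hpc.smul _ (by positivity) _ h)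
  obtain ⟨m, hm, f, hf, h2⟩ := Pool.Agent.N619.CC.leafBIG K N ρ y hy c hc _
    (Fin0.add (Fin0.smul hL (q : ℚ)) hHe.2) h1 i hi
  refine ⟨m, hm, f, hf, fun P l hP hl => ?_⟩
  have h3 := h2 P l hP hl
  have h4 := hHe.1 P hP
  beta_reduce at h3
  rw [hH P l hP hl] at h4 h3
  linarith

/-- the class of a big divisor is in the interior -/
theorem int_of_big (hy : NormalModel y) (hc : PicardBasis y c) {L : Place ℂ K → ℚ}
    (hL : {P | IsPrimeDivisor y P ∧ L P ≠ 0}.Finite) (h : BigD y L) :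
    toR (cls y (cQ c) L) ∈ interior (CE y c) := by
  obtain ⟨i, hi⟩ := hy.ne
  obtain ⟨Hy, hHe, hH⟩ := exists_hyp hy hi
  have hpc := pc_eff hc.numClasses
  obtain ⟨m, hm, f, hf, h1⟩ := h i hi
  have hff : Fin0 y (fun P => (P.ord f : ℚ)) := by
    have h2 := finite_ord hy hf
    refine h2.subset ?_
    rintro P ⟨hP, h0⟩
    exact ⟨hP, fun h3 => h0 (by show ((P.ord f : ℤ) : ℚ) = 0; rw [h3]; simp)⟩
  have hm0 : (0 : ℝ) < m := by exact_mod_cast hm
  have hfe : Fin0 y (fun P => (P.ord f : ℚ) + m * L P - Hy P) :=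
    (Fin0.add hff (Fin0.smul hL (m : ℚ))).sub hHe.2
  have he : Effective y (fun P => (P.ord f : ℚ) + m * L P - Hy P) := by
    refine ⟨fun P hP => ?_, hfe⟩
    obtain ⟨l, hl⟩ := exists_centred hy P
    have h2 := h1 P l hP hl
    beta_reduce
    rw [hH P l hP hl]
    linarith
  have h2 : cls y (cQ c) (fun P => (P.ord f : ℚ) + m * L P - Hy P) =
      (m : ℚ) • cls y (cQ c) L - cls y (cQ c) Hy := by
    rw [cls_sub (Fin0.add hff (Fin0.smul hL (m : ℚ))) hHe.2, cls_add hff (Fin0.smul hL (m : ℚ)),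
      cls_smul]
    have h3 : cls y (cQ c) (fun P => (P.ord f : ℚ)) = 0 := hc.numClasses.principal f hf
    rw [h3, zero_add]
  have h3 := subset_closure (eff_mem (c := cQ c) he)
  rw [h2, toR_sub, toR_smul] at h3
  have h4 := interior_add_mem hpc.add (hyp_intN hy hc hi hHe hH) h3
  rw [add_sub_cancel] at h4
  have h5 := interior_smul_mem hpc.smul (inv_pos.2 hm0) h4
  rw [smul_smul] at h5
  have h6 : ((m : ℝ)⁻¹ * ((m : ℚ) : ℝ)) = 1 := by
    push_cast
    exact inv_mul_cancel₀ hm0.ne'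
  rwa [h6, one_smul] at h5

/-- **Rational classes in the closed effective cone of finite images.** -/
theorem rat_img (hy : NormalModel y) (hy' : NormalModel y') (hn : Algebra.trdeg ℂ K = n)
    (hn' : Algebra.trdeg ℂ K' = n) (hn0 : 0 < n) (hr : 0 < r)
    {c' : Place ℂ K' → Fin (r + 1) → ℤ} (hc' : PicardBasis y' c')
    {φ : (Fin r → ℤ) → (K' ≃ₐ[ℂ] K')} (hφ : ∀ u v, φ (u + v) = φ u * φ v)
    (hps : ∀ v, PseudoAut (φ v) y') (hent : ∀ v, v ≠ 0 → 1 < dynDegree (φ v) y' n 1)
    {π : K →ₐ[ℂ] K'} (hπ : FiniteMap π y y') (hc : PicardBasis y c) {q : Fin ρ → ℚ}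
    (hq : toR q ∈ CE y c) : q = 0 ∨ toR q ∈ interior (CE y c) := by
  obtain ⟨L, hL, hLq⟩ := exists_div hc q
  rcases rigid_img hy hy' hn hn' hn0 hc' (V := Set.univ)
    (fun q _ h1 h2 => rat_int hy' hn' hn0 hr hc' hφ hps hent h1 h2) hπ hL
    (fun _ _ _ => Set.mem_univ _) (psef_of_class hy hc hL (hLq ▸ hq)) with h | h
  · left
    have h1 := Pool.Agent.N618.CC.leafPSCL K N ρ y hy (cQ c) hc.numClasses.principal _
      (fin_neg hL) h
    rw [cls_neg, toR_neg, hLq] at h1
    have h2 := (pc_eff hc.numClasses).pointed _ hq h1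
    exact toR_inj (h2.trans (by funext i; simp [toR]))
  · right
    rw [← hLq]
    exact int_of_big hy hc hL h

end

end Pool.Agent.N110.CC
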