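import Pool.Agent.N110.CC.TDefs

/-!
Definitions: ample divisors `K_X + Δ`.
-/

set_option autoImplicit false

open FF Pool.Agent.W602.GT Pool.Agent.Y172 Pool.Agent.R887

namespace Pool.Agent.N110.CC

section

variable {K : Type} [Field K] [Algebra ℂ K] {N : ℕ}

/-- The divisor `K_X + Δ`, `n` being the dimension of `X`, is ample: for some `m ≥ 1` and `k ≥ 1` the
divisor `m (K_X + Δ) - k H`, `H` being a hyperplane section `y i = 0`, is base point free. That is,
for every point of `X`, the centre of a divisor `R` over `X`, there is a section `ω` of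
`m (K_X + Δ) - k H` (an `m`-canonical form whose order is at least
`k ord (y i / y l) - m Δ P` along all prime divisors `P` of `X`, if the centre of `P` is in the chart
`y l ≠ 0`) which generates this divisorial sheaf at the point (the order is equal to this number if
`P` contains the centre of `R`). -/
def LogAmple (y : Fin (N + 1) → K) (n : ℕ) (Δ : Place ℂ K → ℚ) : Prop :=
  ∀ i, y i ≠ 0 → ∃ m : ℕ, 1 ≤ m ∧ ∃ k : ℕ, 1 ≤ k ∧ ∀ R : Place ℂ K, Divisorial n R →
    ∃ ω : (Fin n → Derivation ℂ K K) → K, IsPluri m ω ∧
      (∀ P l, IsPrimeDivisor y P → Centred y l P → OrdGe P ω (k * P.ord (y i / y l) - m * Δ P)) ∧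
      ∀ P l, IsPrimeDivisor y P → Through y P R → Centred y l P →
        OrdEq P ω (k * P.ord (y i / y l) - m * Δ P)

end

end Pool.Agent.N110.CC
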