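import Pool.Agent.N110.CC.Defs
import Pool.Agent.N110.CC.RDefs

/-!
Definitions: semiample divisors.
-/

set_option autoImplicit false

open FF Pool.Agent.W602.GT Pool.Agent.Y172 Pool.Agent.R887

namespace Pool.Agent.N110.CC

section

variable {K : Type} [Field K] [Algebra ℂ K] {N : ℕ}

/-- The `ℚ`-divisor `L` on the variety `X` of dimension `n` is semiample: for some `m ≥ 1` the
divisor `m L` is integral and base point free. -/
def SemiampleD (y : Fin (N + 1) → K) (n : ℕ) (L : Place ℂ K → ℚ) : Prop :=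
  ∃ m : ℕ, 1 ≤ m ∧ ∃ D : Place ℂ K → ℤ, IsFree y n D ∧
    ∀ P, IsPrimeDivisor y P → (D P : ℚ) = m * L P

end

end Pool.Agent.N110.CC
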