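import Pool.Agent.N110.CC.R
import Pool.Agent.N110.CC.SDefs

/-!
Project CC (helper110): semiampleness for groups of automorphisms of maximal rank.
-/

set_option autoImplicit false
set_option linter.unusedSectionVars false

open FF Pool.Agent.W602.GT Pool.Agent.Y172 Pool.Agent.R887
open Pool.Agent.N110 Pool.Agent.N110.PA Pool.Agent.N110.NV Pool.Agent.N492.PA

namespace Pool.Agent.N110.CC

section

variable {K : Type} [Field K] [Algebra ℂ K] {N n r ρ : ℕ} {y : Fin (N + 1) → K}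

theorem free_zero (hy : NormalModel y) : IsFree y n (fun _ => 0) := by
  refine ⟨Set.finite_empty.subset ?_, fun R _ => ⟨1, one_ne_zero, fun Q _ => ?_, fun P _ _ => ?_⟩⟩
  · rintro P ⟨-, h⟩
    exact h rfl
  · rw [Q.ord_one]
    simp
  · rw [P.ord_one]
    simp

theorem free_add {D D' : Place ℂ K → ℤ} (h : IsFree y n D) (h' : IsFree y n D') :
    IsFree y n (fun P => D P + D' P) := by
  refine ⟨(h.1.union h'.1).subset ?_, fun R hR => ?_⟩
  · rintro P ⟨hP, h0⟩
    by_cases h1 : D P = 0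
    · exact Or.inr ⟨hP, fun h2 => h0 (by show D P + D' P = 0; rw [h1, h2, add_zero])⟩
    · exact Or.inl ⟨hP, h1⟩
  · obtain ⟨f, hf, h1, h2⟩ := h.2 R hR
    obtain ⟨g, hg, h3, h4⟩ := h'.2 R hR
    refine ⟨f * g, mul_ne_zero hf hg, fun Q hQ => ?_, fun P hP hPR => ?_⟩
    · rw [Q.ord_mul hf hg]
      have h5 := h1 Q hQ
      have h6 := h3 Q hQ
      linarith
    · rw [P.ord_mul hf hg]
      have h5 := h2 P hP hPR
      have h6 := h4 P hP hPR
      linarith

theorem free_nsmul (hy : NormalModel y) {D : Place ℂ K → ℤ} (h : IsFree y n D) (k : ℕ) :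
    IsFree y n (fun P => (k : ℤ) * D P) := by
  induction k with
  | zero =>
    have h1 : (fun P => ((0 : ℕ) : ℤ) * D P) = fun _ : Place ℂ K => (0 : ℤ) := by
      funext P
      simp
    rw [h1]
    exact free_zero hy
  | succ k ih =>
    have h1 : (fun P => ((k + 1 : ℕ) : ℤ) * D P) = fun P => (k : ℤ) * D P + D P := by
      funext P
      push_cast
      ring
    rw [h1]
    exact free_add ih h

theorem free_sum (hy : NormalModel y) {ι : Type*} (s : Finset ι) {D : ι → Place ℂ K → ℤ}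
    (h : ∀ i ∈ s, IsFree y n (D i)) : IsFree y n (fun P => ∑ i ∈ s, D i P) := by
  classical
  induction s using Finset.induction_on with
  | empty =>
    simp only [Finset.sum_empty]
    exact free_zero hy
  | insert a s ha ih =>
    have h1 : (fun P => ∑ i ∈ insert a s, D i P) = fun P => D a P + ∑ i ∈ s, D i P := by
      funext P
      rw [Finset.sum_insert ha]
    rw [h1]
    exact free_add (h a (Finset.mem_insert_self a s))
      (ih fun i hi => h i (Finset.mem_insert_of_mem hi))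

/-- adding a principal divisor to a free divisor -/
theorem free_princ {D D' : Place ℂ K → ℤ} (h : IsFree y n D) {f : K} (hf : f ≠ 0)
    (hfin : {P | IsPrimeDivisor y P ∧ D' P ≠ 0}.Finite)
    (hD : ∀ P, IsPrimeDivisor y P → D' P = D P + P.ord f) : IsFree y n D' := by
  refine ⟨hfin, fun R hR => ?_⟩
  obtain ⟨g, hg, h1, h2⟩ := h.2 R hR
  refine ⟨g / f, div_ne_zero hg hf, fun Q hQ => ?_, fun P hP hPR => ?_⟩
  · rw [Q.ord_div hg hf, hD Q hQ]
    have := h1 Q hQ
    linarith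
  · rw [P.ord_div hg hf, hD P hP]
    have := h2 P hP hPR
    linarith

/-- the interior of the closure of a convex cone -/
theorem interior_closure_sub {A : Set (Fin ρ → ℝ)}
    (h : (interior (closure (coneOf A))).Nonempty) :
    interior (closure (coneOf A)) ⊆ coneOf A := by
  have hconv : Convex ℝ (coneOf A) := Pool.Agent.N40.CC.convex_coneOf
  have h0 : (coneOf A).Nonempty := ⟨0, coneOf_zero A⟩
  have h1 : (interior (coneOf A)).Nonempty := by
    rw [hconv.interior_nonempty_iff_affineSpan_eq_top]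
    have h2 := (hconv.closure.interior_nonempty_iff_affineSpan_eq_top).1 h
    refine top_le_iff.1 (h2 ▸ affineSpan_le.2 ?_)
    exact closure_minimal (subset_affineSpan ℝ _)
      (AffineSubspace.closed_of_finiteDimensional (affineSpan ℝ (coneOf A)))
  rw [hconv.interior_closure_eq_interior_of_nonempty_interior h1]
  exact interior_subset

/-- a divisor whose class is a combination of the classes of free divisors -/
theorem free_of_class (hy : NormalModel y) {c : Place ℂ K → Fin ρ → ℤ} {L : Place ℂ K → ℚ}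
    (hL : {P | IsPrimeDivisor y P ∧ L P ≠ 0}.Finite)
    (h : toR (cls y (cQ c) L) ∈ coneOf {z | ∃ D, IsFree y n D ∧ z = divClass y c D}) :
    ∃ m : ℕ, 1 ≤ m ∧ ∃ D : Place ℂ K → ℤ, IsFree y n D ∧
      cls y (cQ c) (fun P => m * L P - D P) = 0 := by
  classical
  obtain ⟨S, hS, a, ha, hsum⟩ := h
  have hD : ∀ z : S, ∃ D : Place ℂ K → ℤ, IsFree y n D ∧ (z : Fin ρ → ℝ) = divClass y c D :=
    fun z => hS z.2
  choose D hDf hDz using hD
  have hz : ∀ z : S, toR (cls y (cQ c) (fun P => (D z P : ℚ))) = z := fun z => by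
    rw [← Pool.Agent.N681.CC.divClass_eq c (hDf z).1, ← hDz z]
  obtain ⟨a', ha', hrat⟩ := Pool.Agent.N619.CC.rat_cone
    (fun z : S => cls y (cQ c) (fun P => (D z P : ℚ))) (cls y (cQ c) L) _ Finset.univ rfl
    (fun z => a z) (fun z => ha z) (by
      rw [hsum, ← Finset.sum_coe_sort S]
      refine Finset.sum_congr rfl fun z _ => ?_
      rw [hz z])
  -- clear denominators
  obtain ⟨m, hm⟩ : ∃ m : ℕ, m = ∏ z : S, (a' z).den := ⟨_, rfl⟩
  have hm0 : 0 < m := by
    rw [hm]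
    exact Finset.prod_pos fun z _ => (a' z).den_pos
  have hk : ∀ z : S, ∃ k : ℕ, (k : ℚ) = m * a' z := by
    intro z
    obtain ⟨k, hk⟩ : (a' z).den ∣ m := hm ▸ Finset.dvd_prod_of_mem _ (Finset.mem_univ z)
    refine ⟨k * (a' z).num.toNat, ?_⟩
    have h2 : ((a' z).den : ℚ) * a' z = (a' z).num := Rat.den_mul_eq_num (a' z)
    have h3 : (((a' z).num.toNat : ℤ) : ℚ) = (a' z).num := by
      rw [Int.toNat_of_nonneg (Rat.num_nonneg.2 (ha' z))]
    have h4 : (((a' z).num.toNat : ℕ) : ℚ) = (a' z).num := by exact_mod_cast h3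
    rw [hk]
    push_cast
    rw [h4]
    linear_combination (-(k : ℚ)) * h2
  choose k hk using hk
  refine ⟨m, hm0, fun P => ∑ z : S, (k z : ℤ) * D z P,
    free_sum hy _ fun z _ => free_nsmul hy (hDf z) (k z), ?_⟩
  have hfin : ∀ z : S, Fin0 y (fun P => (D z P : ℚ)) := fun z => by
    refine (hDf z).1.subset ?_
    rintro P ⟨h1, h2⟩
    exact ⟨h1, fun h3 => h2 (by show ((D z P : ℤ) : ℚ) = 0; rw [h3]; simp)⟩
  have h1 : (fun P => ((∑ z : S, (k z : ℤ) * D z P : ℤ) : ℚ)) =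
      fun P => ∑ z : S, (k z : ℚ) * (D z P : ℚ) := by
    funext P
    push_cast
    rfl
  have h2 : cls y (cQ c) (fun P => ((∑ z : S, (k z : ℤ) * D z P : ℤ) : ℚ)) =
      (m : ℚ) • cls y (cQ c) L := by
    rw [h1, cls_sum Finset.univ fun z _ => (hfin z).smul (k z)]
    conv_rhs => rw [hrat, Finset.smul_sum]
    refine Finset.sum_congr rfl fun z _ => ?_
    rw [cls_smul, smul_smul, hk z]
  have h3 : Fin0 y (fun P => ((∑ z : S, (k z : ℤ) * D z P : ℤ) : ℚ)) := by
    rw [h1]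
    exact Fin0.sum Finset.univ fun z _ => (hfin z).smul (k z)
  rw [cls_sub (Fin0.smul hL (m : ℚ)) h3, h2, cls_smul, sub_self]

end

section

variable {K : Type} [Field K] [Algebra ℂ K] {N n r : ℕ} {y : Fin (N + 1) → K}
  {c : Place ℂ K → Fin (r + 1) → ℤ}

/-- **Semiampleness.** -/
theorem sa_main (hy : NormalModel y) (hn : Algebra.trdeg ℂ K = n) (hn0 : 0 < n) (hr : 0 < r)
    (hc : PicardBasis y c) {φ : (Fin r → ℤ) → (K ≃ₐ[ℂ] K)}
    (hφ : ∀ u v, φ (u + v) = φ u * φ v) (haut : ∀ v, IsAut (φ v) y)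
    (hent : ∀ v, v ≠ 0 → 1 < dynDegree (φ v) y n 1) {L : Place ℂ K → ℚ}
    (hL : {P | IsPrimeDivisor y P ∧ L P ≠ 0}.Finite) (hps : PsefD y L) :
    ∃ m : ℕ, 1 ≤ m ∧ ∃ D : Place ℂ K → ℤ, IsFree y n D ∧
      cls y (cQ c) (fun P => m * L P - D P) = 0 := by
  have h1 := Pool.Agent.N618.CC.leafPSCL K N (r + 1) y hy (cQ c) hc.numClasses.principal L hL hps
  by_cases h0 : cls y (cQ c) L = 0
  · refine ⟨1, le_rfl, fun _ => 0, free_zero hy, ?_⟩
    have h2 : (fun P => ((1 : ℕ) : ℚ) * L P - (((0 : ℤ) : ℚ))) = L := by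
      funext P
      simp
    rw [h2, h0]
  · have h2 := rat_int hy hn hn0 hr hc hφ (fun v => isAut_ps hy (haut v)) hent h1 h0
    have h3 : interior (CE y c) ⊆ coneOf {z | ∃ D, IsFree y n D ∧ z = divClass y c D} := by
      rw [← nef_eq hy hn hn0 hr hc (𝒮 := autGroup y) (fun _ h => h) hφ haut hent]
      refine interior_closure_sub ?_
      have h4 := nef_eq hy hn hn0 hr hc (𝒮 := autGroup y) (fun _ h => h) hφ haut hent
      unfold nefCone at h4
      rw [h4]
      exact ⟨_, h2⟩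
    exact free_of_class hy hL (h3 h2)

theorem semiample_num (hy : NormalModel y) (hn : Algebra.trdeg ℂ K = n) (hn0 : 0 < n) (hr : 0 < r)
    (hc : PicardBasis y c) {φ : (Fin r → ℤ) → (K ≃ₐ[ℂ] K)}
    (hφ : ∀ u v, φ (u + v) = φ u * φ v) (haut : ∀ v, IsAut (φ v) y)
    (hent : ∀ v, v ≠ 0 → 1 < dynDegree (φ v) y n 1) {L : Place ℂ K → ℚ}
    (hL : {P | IsPrimeDivisor y P ∧ L P ≠ 0}.Finite) (hps : PsefD y L) :
    ∃ L' : Place ℂ K → ℚ, SemiampleD y n L' ∧ PsefD y (fun P => L P - L' P) ∧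
      PsefD y (fun P => L' P - L P) := by
  obtain ⟨m, hm, D, hD, h0⟩ := sa_main hy hn hn0 hr hc hφ haut hent hL hps
  have hm0 : (m : ℚ) ≠ 0 := by
    have : 0 < m := hm
    exact_mod_cast this.ne'
  have hDf : Fin0 y (fun P => (D P : ℚ)) := by
    refine hD.1.subset ?_
    rintro P ⟨h1, h2⟩
    exact ⟨h1, fun h3 => h2 (by show ((D P : ℤ) : ℚ) = 0; rw [h3]; simp)⟩
  have h1 : ∀ t : ℚ, Fin0 y (fun P => t * (m * L P - D P)) ∧
      cls y (cQ c) (fun P => t * (m * L P - D P)) = 0 := fun t =>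
    ⟨(((Fin0.smul hL (m : ℚ)).sub hDf).smul t), by rw [cls_smul, h0, smul_zero]⟩
  refine ⟨fun P => (m : ℚ)⁻¹ * D P, ⟨m, hm, D, hD, fun P _ => ?_⟩, ?_, ?_⟩
  · rw [← mul_assoc, mul_inv_cancel₀ hm0, one_mul]
  · have h2 := h1 (m : ℚ)⁻¹
    have h3 : (fun P => L P - (m : ℚ)⁻¹ * D P) = fun P => (m : ℚ)⁻¹ * (m * L P - D P) := by
      funext P
      field_simp
    rw [h3]
    exact psef_of_zero hc.numClasses h2.1 h2.2
  · have h2 := h1 (-(m : ℚ)⁻¹)
    have h3 : (fun P => (m : ℚ)⁻¹ * D P - L P) = fun P => -(m : ℚ)⁻¹ * (m * L P - D P) := by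
      funext P
      field_simp
      ring
    rw [h3]
    exact psef_of_zero hc.numClasses h2.1 h2.2

theorem semiample_q (hy : NormalModel y) (hn : Algebra.trdeg ℂ K = n) (hn0 : 0 < n) (hr : 0 < r)
    (hc : PicardBasis y c) {φ : (Fin r → ℤ) → (K ≃ₐ[ℂ] K)}
    (hφ : ∀ u v, φ (u + v) = φ u * φ v) (haut : ∀ v, IsAut (φ v) y)
    (hent : ∀ v, v ≠ 0 → 1 < dynDegree (φ v) y n 1) (hq : IrregularityZero y)
    {L : Place ℂ K → ℚ} (hL : {P | IsPrimeDivisor y P ∧ L P ≠ 0}.Finite) (hps : PsefD y L) :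
    SemiampleD y n L := by
  obtain ⟨m, hm, D, hD, h0⟩ := sa_main hy hn hn0 hr hc hφ haut hent hL hps
  have hDf : Fin0 y (fun P => (D P : ℚ)) := by
    refine hD.1.subset ?_
    rintro P ⟨h1, h2⟩
    exact ⟨h1, fun h3 => h2 (by show ((D P : ℤ) : ℚ) = 0; rw [h3]; simp)⟩
  have hf : Fin0 y (fun P => m * L P - D P) := (Fin0.smul hL (m : ℚ)).sub hDf
  have h1 := psef_of_zero hc.numClasses hf h0
  have h2 := psef_of_zero hc.numClasses (fin_neg hf) (by rw [cls_neg, h0, neg_zero])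
  obtain ⟨k, hk, f, hf0, hk2⟩ := torsion hy hq hf h1 h2
  have h3 : ∀ P, IsPrimeDivisor y P →
      (((k : ℤ) * D P + P.ord f : ℤ) : ℚ) = ((k * m : ℕ) : ℚ) * L P := by
    intro P hP
    push_cast
    rw [hk2 P hP]
    ring
  refine ⟨k * m, Nat.one_le_iff_ne_zero.2 (by positivity), fun P => (k : ℤ) * D P + P.ord f,
    free_princ (free_nsmul hy hD k) hf0 ?_ (fun P _ => rfl), h3⟩
  refine hL.subset ?_
  rintro P ⟨hP, h4⟩
  refine ⟨hP, fun h5 => h4 ?_⟩
  have h6 := h3 P hP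
  rw [h5, mul_zero] at h6
  exact_mod_cast h6

end

end Pool.Agent.N110.CC
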