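import Pool.Agent.N110.CC.TP
import Pool.Agent.N110.CC.SA
import Pool.Agent.N110.CC.Hull
import Pool.Agent.N110.CC.KDefs

/-!
Project CC (helper110): the canonical class of varieties with an abelian group of maximal rank, and
pairs on them.
-/

set_option autoImplicit false
set_option linter.unusedSectionVars false
set_option linter.overlappingInstances false

open FF Module Pool.Agent.W602.GT Pool.Agent.Y172 Pool.Agent.R887
open Pool.Agent.N110 Pool.Agent.N110.PA Pool.Agent.N110.NV Pool.Agent.N492.PA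
open Pool.Agent.N165.KM (interior_add_mem interior_smul_mem)
open Filter Topology

namespace Pool.Agent.N110.CC

section

variable {K : Type} [Field K] [Algebra ℂ K] {N n ρ : ℕ} {y : Fin (N + 1) → K}
  {x : Fin n → K} {E : Fin n → Derivation ℂ K K} {k : Place ℂ K → ℤ}

theorem Can.comap_le (h : Can y x E k) {φ : K ≃ₐ[ℂ] K} (hφ : PseudoAut φ y) {J : K} (hJ0 : J ≠ 0)
    (hJ : ∀ (m : ℕ) (ω : (Fin n → Derivation ℂ K K) → K), IsPluri m ω →
      pf φ ω E = J ^ m * φ (ω E)) {Q : Place ℂ K} (hQ : IsPrimeDivisor y Q) :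
    k (comap φ Q) ≤ k Q + Q.ord J := by
  have hP : IsPrimeDivisor y (comap φ Q) := (psaut_iff.1 hφ Q).2 hQ
  have h1 : OrdGe (comap φ Q) (frm x 1 1) (k (comap φ Q)) :=
    (h.ord _ hP 1 _ (frm_pluri x 1 1) _).2 (Or.inr (by
      rw [frm_self h.self, (comap φ Q).ord_one]
      simp))
  have h2 := (h.ord Q hQ 1 _ (pf_pluri φ (frm_pluri x 1 1)) _).1 (pf_ordGe h1)
  rw [hJ 1 _ (frm_pluri x 1 1), frm_self h.self, map_one, mul_one, pow_one] at h2
  have h3 := h2.resolve_left hJ0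
  push_cast at h3
  rw [one_mul] at h3
  exact_mod_cast h3

/-- the canonical divisor of a form and its pull back by a pseudo-automorphism -/
theorem Can.comap_eq (h : Can y x E k) {φ : K ≃ₐ[ℂ] K} (hφ : PseudoAut φ y) :
    ∃ J : K, J ≠ 0 ∧ ∀ Q, IsPrimeDivisor y Q → k (comap φ Q) = k Q + Q.ord J := by
  obtain ⟨J, hJ0, hJ⟩ := exists_jac φ h.self h.frame
  obtain ⟨J', hJ0', hJ'⟩ := exists_jac φ⁻¹ h.self h.frame
  have e1 : pf φ (pf φ⁻¹ (frm x 1 1)) = frm x 1 1 := by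
    funext D
    show φ (φ⁻¹ (frm x 1 1 fun i => dconj φ⁻¹ (dconj φ (D i)))) = _
    have e2 : (fun i => dconj φ⁻¹ (dconj φ (D i))) = D := by
      funext i
      ext g
      show φ (φ.symm (D i (φ (φ.symm g)))) = _
      rw [φ.apply_symm_apply, φ.apply_symm_apply]
    rw [e2]
    exact φ.apply_symm_apply _
  have e3 : J * φ J' = 1 := by
    have h1 := hJ 1 _ (pf_pluri φ⁻¹ (frm_pluri x 1 1))
    rw [e1, hJ' 1 _ (frm_pluri x 1 1), frm_self h.self] at h1
    simpa using h1.symm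
  refine ⟨J, hJ0, fun Q hQ => le_antisymm (h.comap_le hφ hJ0 hJ hQ) ?_⟩
  have hP := (psaut_iff.1 hφ Q).2 hQ
  have hps' : PseudoAut φ⁻¹ y := (psGroup y).inv_mem hφ
  have h2 := h.comap_le hps' hJ0' hJ' hP
  rw [comap_inv_comap, comap_ord] at h2
  have h3 : Q.ord J + Q.ord (φ J') = 0 := by
    rw [← Q.ord_mul hJ0 (by rwa [Ne, map_eq_zero]), e3, Q.ord_one]
  omega

theorem fin_cast {D : Place ℂ K → ℤ} (h : {P | IsPrimeDivisor y P ∧ D P ≠ 0}.Finite) :
    Fin0 y (fun P => (D P : ℚ)) := by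
  refine h.subset ?_
  rintro P ⟨h1, h2⟩
  exact ⟨h1, fun h3 => h2 (by show ((D P : ℤ) : ℚ) = 0; rw [h3]; simp)⟩

/-- the canonical class is invariant under the pseudo-automorphisms -/
theorem can_inv (hy : NormalModel y) {c : Place ℂ K → Fin ρ → ℤ} (hc : PicardBasis y c)
    (h : Can y x E k) {φ : K ≃ₐ[ℂ] K} (hφ : PseudoAut φ y)
    {T : (Fin ρ → ℝ) ≃ₗ[ℝ] (Fin ρ → ℝ)} (hT : IsPullBack y c φ T) :
    T (divClass y c k) = divClass y c k := by
  rw [← (Pool.Agent.N608.CC.leafMOV K N ρ y hy c φ hφ T hT k h.fin).1]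
  obtain ⟨J, hJ0, hJ⟩ := h.comap_eq hφ
  have hJf := finite_ord hy hJ0
  have hf1 : {P | IsPrimeDivisor y P ∧ k (comap φ P) ≠ 0}.Finite := by
    refine (h.fin.union hJf).subset ?_
    rintro P ⟨hP, h0⟩
    by_cases h1 : k P = 0
    · refine Or.inr ⟨hP, fun h2 => h0 ?_⟩
      rw [hJ P hP, h1, h2, add_zero]
    · exact Or.inl ⟨hP, h1⟩
  have h1 : cls y (cQ c) (fun P => ((k (comap φ P) : ℤ) : ℚ)) =
      cls y (cQ c) (fun P => (k P : ℚ) + (P.ord J : ℚ)) := by
    refine cls_congr fun P hP => ?_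
    show ((k (comap φ P) : ℤ) : ℚ) = _
    rw [hJ P hP]
    push_cast
    rfl
  have h2 : cls y (cQ c) (fun P => (P.ord J : ℚ)) = 0 := hc.numClasses.principal J hJ0
  rw [Pool.Agent.N681.CC.divClass_eq c hf1, Pool.Agent.N681.CC.divClass_eq c h.fin, h1,
    cls_add (fin_cast h.fin) (fin_cast hJf), h2, add_zero]

theorem Can.logPsef (h : Can y x E k) {Δ : Place ℂ K → ℚ}
    (hb : PsefD y (fun P => (k P : ℚ) + Δ P)) : LogPsef y n Δ := by
  intro i hi q hq
  obtain ⟨m, hm, f, hf, h1⟩ := hb i hi q hq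
  refine ⟨m, hm, frm x (m * q) f, fun h0 => hf ?_, frm_pluri x (m * q) f, fun P l hP hl => ?_⟩
  · rw [← frm_self h.self (m * q) f, h0]
    rfl
  · rw [h.ord P hP _ _ (frm_pluri x (m * q) f), frm_self h.self]
    right
    have h2 := h1 P l hP hl
    push_cast
    linarith

/-- ample divisors -/
theorem Can.ample (h : Can y x E k) {Δ : Place ℂ K → ℚ}
    (hb : ∀ i, y i ≠ 0 → ∃ Hy : Place ℂ K → ℚ,
      (∀ P l, IsPrimeDivisor y P → Centred y l P → Hy P = P.ord (y i / y l)) ∧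
      ∃ t : ℕ, 1 ≤ t ∧ SemiampleD y n (fun P => (t : ℚ) * ((k P : ℚ) + Δ P) - Hy P)) :
    LogAmple y n Δ := by
  intro i hi
  obtain ⟨Hy, hH, t, ht, m, hm, D, hD, hDL⟩ := hb i hi
  refine ⟨m * t, Nat.one_le_iff_ne_zero.2 (by positivity), m, hm, fun R hR => ?_⟩
  obtain ⟨f, hf, h1, h2⟩ := hD.2 R hR
  have hE : frm x (m * t) f E ≠ 0 := by rwa [frm_self h.self]
  refine ⟨frm x (m * t) f, frm_pluri x (m * t) f, fun P l hP hl => ?_, fun P l hP hPR hl => ?_⟩
  · rw [h.ord P hP _ _ (frm_pluri x (m * t) f), frm_self h.self]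
    right
    have h3 : (0 : ℚ) ≤ P.ord f + D P := by exact_mod_cast h1 P hP
    rw [hDL P hP] at h3
    beta_reduce at h3
    rw [hH P l hP hl] at h3
    push_cast
    linarith
  · have h3 := ordEq_of (h.ord P hP (m * t) _ (frm_pluri x (m * t) f)) hE
    rw [frm_self h.self] at h3
    have h4 : ((P.ord f + D P : ℤ) : ℚ) = 0 := by
      rw [h2 P hP hPR]
      simp
    push_cast at h4
    rw [hDL P hP] at h4
    beta_reduce at h4
    rw [hH P l hP hl] at h4
    have h5 : (m : ℚ) * P.ord (y i / y l) - ((m * t : ℕ) : ℚ) * Δ P =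
        ((m * t : ℕ) : ℚ) * k P + P.ord f := by
      push_cast
      linarith
    rw [h5]
    exact h3

end

section

variable {K : Type} [Field K] [Algebra ℂ K] {N n r : ℕ} {y : Fin (N + 1) → K}
  {c : Place ℂ K → Fin (r + 1) → ℤ}

/-- the canonical class is zero -/
theorem can_zero (hy : NormalModel y) (hn : Algebra.trdeg ℂ K = n) (hn0 : 0 < n) (hr : 0 < r)
    (hc : PicardBasis y c) {φ : (Fin r → ℤ) → (K ≃ₐ[ℂ] K)}
    (hφ : ∀ u v, φ (u + v) = φ u * φ v) (hps : ∀ v, PseudoAut (φ v) y)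
    (hent : ∀ v, v ≠ 0 → 1 < dynDegree (φ v) y n 1) {x : Fin n → K}
    {E : Fin n → Derivation ℂ K K} {k : Place ℂ K → ℤ} (h : Can y x E k) :
    cls y (cQ c) (fun P => (k P : ℚ)) = 0 := by
  obtain ⟨i, hi⟩ := hy.ne
  obtain ⟨Hy, hHe, hH⟩ := exists_hyp hy hi
  have h1 := (mainT hy hn hn0 hr hc (𝒮 := psGroup y) (fun _ h => h) hφ hps hent hi hHe
    hH).2.2.2.1 (divClass y c k) fun v T hT => can_inv hy hc h (hps v) hT
  rw [Pool.Agent.N681.CC.divClass_eq c h.fin] at h1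
  exact toR_inj (h1.trans (by funext i; simp [toR]))

/-- **Pairs on varieties with an abelian group of maximal rank.** -/
theorem models (hy : NormalModel y) (hn : Algebra.trdeg ℂ K = n) (hn0 : 0 < n) (hr : 0 < r)
    (hc : PicardBasis y c) {φ : (Fin r → ℤ) → (K ≃ₐ[ℂ] K)}
    (hφ : ∀ u v, φ (u + v) = φ u * φ v) (hps : ∀ v, PseudoAut (φ v) y)
    (hent : ∀ v, v ≠ 0 → 1 < dynDegree (φ v) y n 1) :
    (∀ Δ, Effective y Δ → LogPsef y n Δ ∧ (LogAntiPsef y n Δ ∨ LogBig y n Δ)) ∧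
    LogAntiPsef y n 0 ∧
    (IrregularityZero y → LogTorsion y n 0 ∧ ((∀ v, IsAut (φ v) y) →
      ∀ Δ, Effective y Δ → LogTorsion y n Δ ∨ LogAmple y n Δ)) := by
  obtain ⟨x, E, k, h⟩ := exists_can hy hn
  have hk := can_zero hy hn hn0 hr hc hφ hps hent h
  have hpc := pc_eff hc.numClasses
  have hcl : ∀ Δ, Effective y Δ → cls y (cQ c) (fun P => (k P : ℚ) + Δ P) = cls y (cQ c) Δ := by
    intro Δ hΔ
    rw [cls_add (fin_cast h.fin) hΔ.2, hk, zero_add]
  have hce : ∀ Δ, Effective y Δ → toR (cls y (cQ c) (fun P => (k P : ℚ) + Δ P)) ∈ CE y c := by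
    intro Δ hΔ
    rw [hcl Δ hΔ]
    exact subset_closure (eff_mem hΔ)
  have hef : Effective y (0 : Place ℂ K → ℚ) :=
    ⟨fun _ _ => le_rfl, Set.finite_empty.subset (by rintro P ⟨-, h⟩; exact h rfl)⟩
  have hc0 : cls y (cQ c) (fun P => (k P : ℚ) + (0 : Place ℂ K → ℚ) P) = 0 := by
    have h1 : (fun P => (k P : ℚ) + (0 : Place ℂ K → ℚ) P) = fun P => (k P : ℚ) := by
      funext P
      simp
    rw [h1]
    exact hk
  have hanti : ∀ Δ, Effective y Δ → cls y (cQ c) (fun P => (k P : ℚ) + Δ P) = 0 →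
      PsefD y (fun P => -((k P : ℚ) + Δ P)) := fun Δ hΔ h0 =>
    psef_of_zero hc.numClasses (fin_neg (h.finD hΔ.2)) (by rw [cls_neg, h0, neg_zero])
  refine ⟨fun Δ hΔ => ⟨h.logPsef (psef_of_class hy hc (h.finD hΔ.2) (hce Δ hΔ)), ?_⟩,
    h.anti (hanti 0 hef hc0), fun hq => ⟨?_, fun haut Δ hΔ => ?_⟩⟩
  · by_cases h0 : cls y (cQ c) (fun P => (k P : ℚ) + Δ P) = 0
    · exact Or.inl (h.anti (hanti Δ hΔ h0))
    · exact Or.inr (h.big (Pool.Agent.N619.CC.leafBIG K N (r + 1) y hy c hc _ (h.finD hΔ.2)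
        (rat_int hy hn hn0 hr hc hφ hps hent (hce Δ hΔ) h0)))
  · exact h.torsion (torsion hy hq (h.finD hef.2) (psef_of_class hy hc (h.finD hef.2)
      (hce 0 hef)) (hanti 0 hef hc0))
  · by_cases h0 : cls y (cQ c) (fun P => (k P : ℚ) + Δ P) = 0
    · exact Or.inl (h.torsion (torsion hy hq (h.finD hΔ.2) (psef_of_class hy hc (h.finD hΔ.2)
        (hce Δ hΔ)) (hanti Δ hΔ h0)))
    · refine Or.inr (h.ample fun i hi => ?_)
      obtain ⟨Hy, hHe, hH⟩ := exists_hyp hy hi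
      refine ⟨Hy, hH, ?_⟩
      have hint := rat_int hy hn hn0 hr hc hφ hps hent (hce Δ hΔ) h0
      obtain ⟨t, ht, h1⟩ : ∃ t : ℕ, 1 ≤ t ∧
          toR (cls y (cQ c) (fun P => (t : ℚ) * ((k P : ℚ) + Δ P) - Hy P)) ∈ CE y c := by
        have hlim : Tendsto (fun t : ℕ => toR (cls y (cQ c) (fun P => (k P : ℚ) + Δ P)) -
            (1 / ((t : ℝ) + 1)) • toR (cls y (cQ c) Hy)) atTop
            (𝓝 (toR (cls y (cQ c) (fun P => (k P : ℚ) + Δ P)) -
              (0 : ℝ) • toR (cls y (cQ c) Hy))) :=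
          tendsto_const_nhds.sub (tendsto_one_div_add_atTop_nhds_zero_nat.smul_const _)
        rw [zero_smul, sub_zero] at hlim
        obtain ⟨t, ht⟩ := (hlim.eventually (isOpen_interior.mem_nhds hint)).exists
        refine ⟨t + 1, by omega, ?_⟩
        have h2 := hpc.smul ((t : ℝ) + 1) (by positivity) _ (interior_subset ht)
        rw [smul_sub, smul_smul, mul_one_div_cancel (by positivity), one_smul] at h2
        rw [cls_sub (Fin0.smul (h.finD hΔ.2) _) hHe.2, cls_smul, toR_sub, toR_smul]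
        push_cast
        exact h2
      exact ⟨t, ht, semiample_q hy hn hn0 hr hc hφ haut hent hq
        ((Fin0.smul (h.finD hΔ.2) _).sub hHe.2)
        (psef_of_class hy hc ((Fin0.smul (h.finD hΔ.2) _).sub hHe.2) h1)⟩

end

end Pool.Agent.N110.CC
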