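import Pool.Agent.N110.CC.TDefs

/-!
Definitions: pairs with big anticanonical divisor.
-/

set_option autoImplicit false

open FF Pool.Agent.W602.GT Pool.Agent.Y172 Pool.Agent.R887

namespace Pool.Agent.N110.CC

section

variable {K : Type} [Field K] [Algebra ℂ K] {N : ℕ}

/-- The divisor `- (K_X + Δ)`, `n` being the dimension of `X`, is big: for some `m ≥ 1` there is an
`m`-canonical form `ω ≠ 0` whose order `s` along the prime divisors `P` is at most
`- ord (y i / y l) - m Δ P`, that is, `- m (K_X + Δ) - H` is linearly equivalent to an effective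
divisor, `H` being a hyperplane section `y i = 0`. -/
def LogAntiBig (y : Fin (N + 1) → K) (n : ℕ) (Δ : Place ℂ K → ℚ) : Prop :=
  ∀ i, y i ≠ 0 → ∃ m : ℕ, 1 ≤ m ∧ ∃ ω : (Fin n → Derivation ℂ K K) → K, ω ≠ 0 ∧ IsPluri m ω ∧
    ∀ P l, IsPrimeDivisor y P → Centred y l P →
      ∃ s : ℚ, s ≤ -P.ord (y i / y l) - m * Δ P ∧ OrdEq P ω s

end

end Pool.Agent.N110.CC
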