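import Pool.Agent.N110.CC.K
import Pool.Agent.N110.CC.K2Defs

/-!
Project CC (helper110): the canonical divisor of finite images of varieties with an abelian group of
maximal rank.
-/

set_option autoImplicit false
set_option linter.unusedSectionVars false
set_option linter.overlappingInstances false

open FF Module Pool.Agent.W602.GT Pool.Agent.Y172 Pool.Agent.R887 Pool.Agent.W619.PQ
open Pool.Agent.N110 Pool.Agent.N110.PA Pool.Agent.N110.NV Pool.Agent.N492.PA

namespace Pool.Agent.N110.CC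

section

variable {K K' : Type} [Field K] [Algebra ℂ K] [Field K'] [Algebra ℂ K'] {N N' n : ℕ}
  {y : Fin (N + 1) → K} {y' : Fin (N' + 1) → K'}
  {x : Fin n → K} {E : Fin n → Derivation ℂ K K} {k : Place ℂ K → ℤ}
  {x' : Fin n → K'} {E' : Fin n → Derivation ℂ K' K'} {k' : Place ℂ K' → ℤ}

/-- the canonical divisor of a finite cover -/
theorem can_pull (hy : NormalModel y) (hy' : NormalModel y') (hn : Algebra.trdeg ℂ K = n)
    (hn' : Algebra.trdeg ℂ K' = n) (hx : IsTranscendenceBasis ℂ x) (h : Can y x E k)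
    (h' : Can y' x' E' k') {π : K →ₐ[ℂ] K'} (hπ : FiniteMap π y y') :
    ∃ J : K', J ≠ 0 ∧ ∀ Q P e, IsPrimeDivisor y' Q → LiesOver π Q P e →
      ((e : ℤ) - 1) + e * k P ≤ k' Q + Q.ord J := by
  have hess := hy.ess
  have hess' := hy'.ess
  let _ : Algebra K K' := π.toRingHom.toAlgebra
  have hst : IsScalarTower ℂ K K' :=
    IsScalarTower.of_algebraMap_eq fun c => (π.commutes c).symm
  have hfd : FiniteDimensional K K' := finite_map hn hn'
  refine ⟨(Matrix.of fun i j => E' i (π (x j))).det, pull_ne hn h.self h'.frame,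
    fun Q P e hQ hl => ?_⟩
  have hP : IsPrimeDivisor y P := (hπ Q P e hl).1 hQ
  have hov : Over Q P e := hl
  have hdQ : Divisorial n Q := hQ.divisorial hy' hn'
  have hPd : Divisorial n P := divisorial_down hov hdQ
  have h1 : OrdGe P (frm x 1 1) (k P) := (h.ord _ hP 1 _ (frm_pluri x 1 1) _).2 (Or.inr (by
    rw [frm_self h.self, P.ord_one]
    simp))
  have h2 : OrdGe Q (pull K' x E 1 (frm x 1 1)) ((((e : ℤ) - 1) + e * k P : ℤ) : ℚ) := by
    intro D hD
    have h4 := pull_ord (K' := K') hn hx h.self hov hPd (frm_pluri x 1 1) h1 hD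
    refine h4.imp_right fun h5 => ?_
    have h6 : (((e : ℤ) - 1) + e * k P : ℤ) ≤ Q.ord (pull K' x E 1 (frm x 1 1) D) := by
      have h7 : ((1 : ℕ) : ℤ) * ((e : ℤ) - 1) + e * k P ≤
        Q.ord (pull K' x E 1 (frm x 1 1) D) := h5
      simpa using h7
    exact_mod_cast h6
  have h3 := (h'.ord Q hQ 1 _ (pull_pluri x E 1 _) _).1 h2
  have h4 : pull K' x E 1 (frm x 1 1) E' = (Matrix.of fun i j => E' i (π (x j))).det := by
    unfold pull
    rw [frm_self h.self, map_one, mul_one, pow_one]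
    rfl
  rw [h4] at h3
  have h5 := h3.resolve_left (pull_ne hn h.self h'.frame)
  rw [Nat.cast_one, one_mul] at h5
  exact_mod_cast h5

theorem Can.antiBig (h : Can y x E k) {Δ : Place ℂ K → ℚ}
    (hb : BigD y (fun P => -((k P : ℚ) + Δ P))) : LogAntiBig y n Δ := by
  intro i hi
  obtain ⟨m, hm, f, hf, h1⟩ := hb i hi
  refine ⟨m, hm, frm x m f⁻¹, fun h0 => inv_ne_zero hf ?_, frm_pluri x m f⁻¹,
    fun P l hP hl => ⟨(m : ℕ) * k P + P.ord (f⁻¹), ?_, ?_⟩⟩
  · rw [← frm_self h.self m f⁻¹, h0]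
    rfl
  · rw [P.ord_inv]
    have h2 := h1 P l hP hl
    push_cast
    linarith
  · have h2 := ordEq_of (h.ord P hP m _ (frm_pluri x m f⁻¹)) (by
      rw [frm_self h.self]
      exact inv_ne_zero hf)
    rwa [frm_self h.self] at h2

end

section

variable {K K' : Type} [Field K] [Algebra ℂ K] [Field K'] [Algebra ℂ K'] {N N' n r : ℕ}
  {y : Fin (N + 1) → K} {y' : Fin (N' + 1) → K'}

/-- **The canonical divisor of finite images.** -/
theorem quotients (hy : NormalModel y) (hy' : NormalModel y') (hn : Algebra.trdeg ℂ K = n)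
    (hn' : Algebra.trdeg ℂ K' = n) (hn0 : 0 < n) (hr : 0 < r)
    {c' : Place ℂ K' → Fin (r + 1) → ℤ} (hc' : PicardBasis y' c')
    {φ : (Fin r → ℤ) → (K' ≃ₐ[ℂ] K')} (hφ : ∀ u v, φ (u + v) = φ u * φ v)
    (hps : ∀ v, PseudoAut (φ v) y') (hent : ∀ v, v ≠ 0 → 1 < dynDegree (φ v) y' n 1)
    {π : K →ₐ[ℂ] K'} (hπ : FiniteMap π y y') {Δ : Place ℂ K → ℚ}
    (hΔ : {P | IsPrimeDivisor y P ∧ Δ P ≠ 0}.Finite)
    (hbr : ∀ Q P e, IsPrimeDivisor y' Q → LiesOver π Q P e → 1 ≤ (e : ℚ) * (1 - Δ P)) :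
    (LogPsef y n Δ ∧ LogAntiPsef y n Δ ∧ (IrregularityZero y → LogTorsion y n Δ)) ∨
      (LogAntiBig y n Δ ∧ ¬ LogPsef y n Δ) := by
  have hess := hy.ess
  have hess' := hy'.ess
  obtain ⟨x, E, hx, hE⟩ := exists_crd hn (k := ℂ) (K := K)
  have hfr : IsFrame E := fun F => ⟨fun j => F (x j),
    (Pool.Agent.W73.PG.PULL.expand x hx E hE F).symm⟩
  obtain ⟨k, hkf, hk⟩ := exists_ordc hy hn hx hE
  have h : Can y x E k := ⟨hfr, hE, hkf, hk⟩
  obtain ⟨x', E', k', h'⟩ := exists_can hy' hn'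
  obtain ⟨J, hJ0, hJ⟩ := can_pull hy hy' hn hn' hx h h' hπ
  have hk0 := can_zero hy' hn' hn0 hr hc' hφ hps hent h'
  obtain ⟨L', hL', hrel, h1⟩ := Pool.Agent.N340.CC.leafPSUP K K' N N' n y y' hy hy' hn hn' hn0 π hπ
    (fun P => -((k P : ℚ) + Δ P)) (fin_neg (h.finD hΔ))
  obtain ⟨L'', hL'', hrel', h1'⟩ := Pool.Agent.N340.CC.leafPSUP K K' N N' n y y' hy hy' hn hn' hn0 π
    hπ (fun P => (k P : ℚ) + Δ P) (h.finD hΔ)
  let _ : Algebra K K' := π.toRingHom.toAlgebra
  have hst : IsScalarTower ℂ K K' :=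
    IsScalarTower.of_algebraMap_eq fun c => (π.commutes c).symm
  have hfd : FiniteDimensional K K' := finite_map hn hn'
  have hov : ∀ Q : Place ℂ K', LiesOver π Q (bel K Q) (ram K Q) := fun Q => over_bel K Q
  have hJf : Fin0 y' (fun Q => (Q.ord J : ℚ)) := fin_cast (finite_ord hy' hJ0)
  have hk'f : Fin0 y' (fun Q => (k' Q : ℚ)) := fin_cast h'.fin
  have hR : Effective y' (fun Q => ((k' Q : ℚ) + (Q.ord J : ℚ)) + L' Q) := by
    refine ⟨fun Q hQ => ?_, Fin0.add (Fin0.add hk'f hJf) hL'⟩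
    have h2 := hJ Q _ _ hQ (hov Q)
    have h3 := hbr Q _ _ hQ (hov Q)
    have h4 := hrel Q _ _ hQ (hov Q)
    have h5 : (((ram K Q : ℤ) - 1 + ram K Q * k (bel K Q) : ℤ) : ℚ) ≤ ((k' Q + Q.ord J : ℤ) : ℚ) := by
      exact_mod_cast h2
    push_cast at h5
    beta_reduce
    rw [h4]
    linarith
  have hcls : cls y' (cQ c') (fun Q => ((k' Q : ℚ) + (Q.ord J : ℚ)) + L' Q) =
      cls y' (cQ c') L' := by
    have h2 : cls y' (cQ c') (fun Q => (Q.ord J : ℚ)) = 0 := hc'.numClasses.principal J hJ0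
    rw [cls_add (Fin0.add hk'f hJf) hL', cls_add hk'f hJf, hk0, h2, zero_add, zero_add]
  have hce : toR (cls y' (cQ c') L') ∈ CE y' c' := by
    rw [← hcls]
    exact subset_closure (eff_mem hR)
  have hneg : cls y' (cQ c') L'' = -cls y' (cQ c') L' := by
    rw [← cls_neg]
    refine cls_congr fun Q hQ => ?_
    rw [hrel' Q _ _ hQ (hov Q), hrel Q _ _ hQ (hov Q)]
    ring
  by_cases h0 : cls y' (cQ c') L' = 0
  · left
    have hA : PsefD y (fun P => -((k P : ℚ) + Δ P)) :=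
      Pool.Agent.N701.CC.leafPSDN Pool.Agent.N832.CC.leafNORM Pool.Agent.N252.CC.leafPUSH
        K K' N N' n y y' hy hy' hn hn' hn0 π hπ _ L' hrel (psef_of_zero hc'.numClasses hL' h0)
    have hB : PsefD y (fun P => (k P : ℚ) + Δ P) :=
      Pool.Agent.N701.CC.leafPSDN Pool.Agent.N832.CC.leafNORM Pool.Agent.N252.CC.leafPUSH
        K K' N N' n y y' hy hy' hn hn' hn0 π hπ _ L'' hrel'
        (psef_of_zero hc'.numClasses hL'' (by rw [hneg, h0, neg_zero]))
    exact ⟨h.logPsef hB, h.anti hA, fun hq => h.torsion (torsion hy hq (h.finD hΔ) hB hA)⟩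
  · right
    refine ⟨h.antiBig (Pool.Agent.N8.CC.leafBGDN Pool.Agent.N832.CC.leafNORM
      Pool.Agent.N340.CC.leafPSUP K K' N N' n y y' hy hy' hn hn' hn0 π hπ _ L' hrel
      (Pool.Agent.N619.CC.leafBIG K' N' (r + 1) y' hy' c' hc' L' hL'
        (rat_int hy' hn' hn0 hr hc' hφ hps hent hce h0))), fun hps' => h0 ?_⟩
    have h2 := Pool.Agent.N618.CC.leafPSCL K' N' (r + 1) y' hy' (cQ c')
      hc'.numClasses.principal L'' hL'' (h1' (h.psef hps'))
    rw [hneg, toR_neg] at h2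
    exact toR_inj (((pc_eff hc'.numClasses).pointed _ hce h2).trans (by funext i; simp [toR]))

end

end Pool.Agent.N110.CC
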