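import Pool.Agent.N110.CC.Fin2
import Pool.Agent.N618.CC.PSCL
import Pool.Agent.N619.CC.BIG
import Pool.Agent.N832.CC.NORM
import Pool.Agent.N252.CC.PUSH
import Pool.Agent.N340.CC.PSUP
import Pool.Agent.N701.CC.PSDN
import Pool.Agent.N8.CC.BGDN

/-!
Project CC (helper110): pseudo-effective divisors on finite images of varieties with an abelian group
of maximal rank. The parts are by helper618 (`PSCL`), helper619 (`BIG`), helper832 (`NORM`),
helper252 (`PUSH`), helper340 (`PSUP`), helper701 (`PSDN`) and helper8 (`BGDN`).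
-/

set_option autoImplicit false
set_option linter.unusedSectionVars false

open FF Pool.Agent.W602.GT Pool.Agent.Y172 Pool.Agent.R887
open Pool.Agent.N110 Pool.Agent.N110.PA Pool.Agent.N110.NV Pool.Agent.N492.PA

namespace Pool.Agent.N110.CC

section

variable {K K' : Type} [Field K] [Algebra ℂ K] [Field K'] [Algebra ℂ K'] {N N' n r ρ : ℕ}
  {y : Fin (N + 1) → K} {y' : Fin (N' + 1) → K'}

theorem toR_neg (q : Fin ρ → ℚ) : toR (-q) = -toR q := by
  funext i
  simp [toR]

theorem toR_inj {q q' : Fin ρ → ℚ} (h : toR q = toR q') : q = q' := by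
  funext i
  have h1 := congrFun h i
  have h2 : ((q i : ℚ) : ℝ) = ((q' i : ℚ) : ℝ) := h1
  exact_mod_cast h2

/-- divisors of class zero are pseudo-effective -/
theorem psef_of_zero {c : Place ℂ K → Fin ρ → ℤ} (hc : NumClasses y c) {L : Place ℂ K → ℚ}
    (hL : {P | IsPrimeDivisor y P ∧ L P ≠ 0}.Finite) (h0 : cls y (cQ c) L = 0) : PsefD y L :=
  fun i hi q hq => hc.trivial L hL h0 i hi q hq

theorem cls_neg {c : Place ℂ K → Fin ρ → ℚ} (L : Place ℂ K → ℚ) :
    cls y c (fun P => -L P) = -cls y c L := by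
  have h := cls_smul (y := y) (c := c) (r := -1) L
  rw [neg_one_smul] at h
  rw [← h]
  congr 1
  funext P
  ring

theorem fin_neg {L : Place ℂ K → ℚ} (hL : {P | IsPrimeDivisor y P ∧ L P ≠ 0}.Finite) :
    {P | IsPrimeDivisor y P ∧ -L P ≠ 0}.Finite := by
  refine hL.subset ?_
  rintro P ⟨h1, h2⟩
  exact ⟨h1, fun h3 => h2 (by rw [h3, neg_zero])⟩

/-- **Pseudo-effective divisors on finite images.** The hypothesis is that rational classes in the
closed effective cone of `X'` which are in `V` are zero or in the interior. -/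
theorem rigid_img (hy : NormalModel y) (hy' : NormalModel y') (hn : Algebra.trdeg ℂ K = n)
    (hn' : Algebra.trdeg ℂ K' = n) (hn0 : 0 < n) {c' : Place ℂ K' → Fin ρ → ℤ}
    (hc' : PicardBasis y' c') {V : Set (Fin ρ → ℚ)}
    (hV : ∀ q ∈ V, toR q ∈ closure (effSet y' (cQ c')) → q ≠ 0 →
      toR q ∈ interior (closure (effSet y' (cQ c'))))
    {π : K →ₐ[ℂ] K'} (hπ : FiniteMap π y y') {L : Place ℂ K → ℚ}
    (hL : {P | IsPrimeDivisor y P ∧ L P ≠ 0}.Finite)
    (hLV : ∀ L' : Place ℂ K' → ℚ, {P | IsPrimeDivisor y' P ∧ L' P ≠ 0}.Finite →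
      (∀ Q P e, IsPrimeDivisor y' Q → LiesOver π Q P e → L' Q = e * L P) → cls y' (cQ c') L' ∈ V)
    (hps : PsefD y L) : PsefD y (fun P => -L P) ∨ BigD y L := by
  obtain ⟨L', hL', hrel, h1⟩ := Pool.Agent.N340.CC.leafPSUP K K' N N' n y y' hy hy' hn hn' hn0 π hπ
    L hL
  have h2 := h1 hps
  have h3 := Pool.Agent.N618.CC.leafPSCL K' N' ρ y' hy' (cQ c') hc'.numClasses.principal L' hL' h2
  by_cases h0 : cls y' (cQ c') L' = 0
  · left
    refine Pool.Agent.N701.CC.leafPSDN Pool.Agent.N832.CC.leafNORM Pool.Agent.N252.CC.leafPUSH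
      K K' N N' n y y' hy hy' hn hn' hn0 π hπ (fun P => -L P) (fun P => -L' P) (fun Q P e hQ hl => ?_)
      (psef_of_zero hc'.numClasses (fin_neg hL') (by rw [cls_neg, h0, neg_zero]))
    show -L' Q = e * -L P
    rw [hrel Q P e hQ hl]
    ring
  · right
    exact Pool.Agent.N8.CC.leafBGDN Pool.Agent.N832.CC.leafNORM Pool.Agent.N340.CC.leafPSUP
      K K' N N' n y y' hy hy' hn hn' hn0 π hπ L L' hrel
      (Pool.Agent.N619.CC.leafBIG K' N' ρ y' hy' c' hc' L' hL' (hV _ (hLV L' hL' hrel) h3 h0))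

/-- numerically trivial divisors on varieties of irregularity zero are torsion -/
theorem torsion (hy : NormalModel y) (hq : IrregularityZero y) {L : Place ℂ K → ℚ}
    (hL : {P | IsPrimeDivisor y P ∧ L P ≠ 0}.Finite) (h1 : PsefD y L)
    (h2 : PsefD y (fun P => -L P)) : ∃ m : ℕ, 1 ≤ m ∧ ∃ f : K, f ≠ 0 ∧
      ∀ P, IsPrimeDivisor y P → (P.ord f : ℚ) = m * L P := by
  obtain ⟨ρ, c, hc⟩ := hq
  have h3 := Pool.Agent.N618.CC.leafPSCL K N ρ y hy c hc.principal L hL h1
  have h4 := Pool.Agent.N618.CC.leafPSCL K N ρ y hy c hc.principal _ (fin_neg hL) h2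
  rw [cls_neg, toR_neg] at h4
  have h5 := hc.salient _ h3 h4
  refine hc.torsion L hL (toR_inj (h5.trans ?_))
  funext i
  simp [toR]

end

end Pool.Agent.N110.CC
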