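import Pool.Agent.N110.CC.RDefs
import Pool.Agent.N110.CC.GStm

/-!
Project CC (helper110): statements of the parts about divisors.
-/

set_option autoImplicit false

open FF Pool.Agent.W602.GT Pool.Agent.Y172 Pool.Agent.R887
open Pool.Agent.N110 Pool.Agent.N110.PA Pool.Agent.N110.NV Pool.Agent.N492.PA

namespace Pool.Agent.N110.CC

/-- (PSCL) the class of a pseudo-effective divisor is in the closed effective cone -/
def S_PSCL : Prop :=
  ∀ (K : Type) [Field K] [Algebra ℂ K] (N ρ : ℕ) (y : Fin (N + 1) → K), NormalModel y →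
    ∀ c : Place ℂ K → Fin ρ → ℚ, (∀ f : K, f ≠ 0 → cls y c (fun P => P.ord f) = 0) →
    ∀ L : Place ℂ K → ℚ, {P | IsPrimeDivisor y P ∧ L P ≠ 0}.Finite → PsefD y L →
    toR (cls y c L) ∈ closure (effSet y c)

/-- (BIG) a divisor whose class is in the interior of the closed effective cone is big -/
def S_BIG : Prop :=
  ∀ (K : Type) [Field K] [Algebra ℂ K] (N ρ : ℕ) (y : Fin (N + 1) → K), NormalModel y →
    ∀ c : Place ℂ K → Fin ρ → ℤ, PicardBasis y c →
    ∀ L : Place ℂ K → ℚ, {P | IsPrimeDivisor y P ∧ L P ≠ 0}.Finite →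
    toR (cls y (cQ c) L) ∈ interior (closure (effSet y (cQ c))) → BigD y L

/-- (NORM) the norm of a function -/
def S_NORM : Prop :=
  ∀ (K K' : Type) [Field K] [Algebra ℂ K] [Field K'] [Algebra ℂ K'] (N N' n : ℕ)
    (y : Fin (N + 1) → K) (y' : Fin (N' + 1) → K'), NormalModel y → NormalModel y' →
    Algebra.trdeg ℂ K = n → Algebra.trdeg ℂ K' = n → ∀ π : K →ₐ[ℂ] K', FiniteMap π y y' →
    ∀ f : K', f ≠ 0 → ∃ d : ℕ, 1 ≤ d ∧ ∃ g : K, g ≠ 0 ∧ ∀ P, IsPrimeDivisor y P → ∀ a : ℚ,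
      (∀ Q e, IsPrimeDivisor y' Q → LiesOver π Q P e → e * a ≤ Q.ord f) → d * a ≤ P.ord g

/-- (PUSH) effective divisors are less than the pull backs of effective divisors -/
def S_PUSH : Prop :=
  ∀ (K K' : Type) [Field K] [Algebra ℂ K] [Field K'] [Algebra ℂ K'] (N N' n : ℕ)
    (y : Fin (N + 1) → K) (y' : Fin (N' + 1) → K'), NormalModel y → NormalModel y' →
    Algebra.trdeg ℂ K = n → Algebra.trdeg ℂ K' = n → ∀ π : K →ₐ[ℂ] K', FiniteMap π y y' →
    ∀ A' : Place ℂ K' → ℚ, Effective y' A' → ∃ A : Place ℂ K → ℚ, Effective y A ∧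
      ∀ Q P e, IsPrimeDivisor y' Q → LiesOver π Q P e → A' Q ≤ e * A P

/-- (PSUP) the pull back of a divisor, and of a pseudo-effective divisor -/
def S_PSUP : Prop :=
  ∀ (K K' : Type) [Field K] [Algebra ℂ K] [Field K'] [Algebra ℂ K'] (N N' n : ℕ)
    (y : Fin (N + 1) → K) (y' : Fin (N' + 1) → K'), NormalModel y → NormalModel y' →
    Algebra.trdeg ℂ K = n → Algebra.trdeg ℂ K' = n → 0 < n → ∀ π : K →ₐ[ℂ] K', FiniteMap π y y' →
    ∀ L : Place ℂ K → ℚ, {P | IsPrimeDivisor y P ∧ L P ≠ 0}.Finite →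
    ∃ L' : Place ℂ K' → ℚ, {P | IsPrimeDivisor y' P ∧ L' P ≠ 0}.Finite ∧
      (∀ Q P e, IsPrimeDivisor y' Q → LiesOver π Q P e → L' Q = e * L P) ∧
      (PsefD y L → PsefD y' L')

/-- (PSDN) the pull back of a divisor is pseudo-effective only if the divisor is -/
def S_PSDN : Prop :=
  ∀ (K K' : Type) [Field K] [Algebra ℂ K] [Field K'] [Algebra ℂ K'] (N N' n : ℕ)
    (y : Fin (N + 1) → K) (y' : Fin (N' + 1) → K'), NormalModel y → NormalModel y' →
    Algebra.trdeg ℂ K = n → Algebra.trdeg ℂ K' = n → 0 < n → ∀ π : K →ₐ[ℂ] K', FiniteMap π y y' →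
    ∀ (L : Place ℂ K → ℚ) (L' : Place ℂ K' → ℚ),
      (∀ Q P e, IsPrimeDivisor y' Q → LiesOver π Q P e → L' Q = e * L P) →
      PsefD y' L' → PsefD y L

/-- (BGDN) the pull back of a divisor is big only if the divisor is -/
def S_BGDN : Prop :=
  ∀ (K K' : Type) [Field K] [Algebra ℂ K] [Field K'] [Algebra ℂ K'] (N N' n : ℕ)
    (y : Fin (N + 1) → K) (y' : Fin (N' + 1) → K'), NormalModel y → NormalModel y' →
    Algebra.trdeg ℂ K = n → Algebra.trdeg ℂ K' = n → 0 < n → ∀ π : K →ₐ[ℂ] K', FiniteMap π y y' →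
    ∀ (L : Place ℂ K → ℚ) (L' : Place ℂ K' → ℚ),
      (∀ Q P e, IsPrimeDivisor y' Q → LiesOver π Q P e → L' Q = e * L P) →
      BigD y' L' → BigD y L

end Pool.Agent.N110.CC
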