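import Pool.Agent.N110.CC.Main

/-!
Project CC (helper110): abelian groups of maximal rank acting on convex cones. The structure of the
cone.
-/

set_option autoImplicit false

namespace Pool.Agent.N110.CC

open Pool.Agent.Y167 (cone)
open Pool.Agent.N165.KM (exists_pos_functional interior_sub interior_smul_mem)
open Filter Topology

/-- the basis of eigenvectors -/
structure Str {r : ℕ} (C : Set (Fin (r + 1) → ℝ))
    (G : (Fin r → ℤ) → ((Fin (r + 1) → ℝ) →ₗ[ℝ] (Fin (r + 1) → ℝ))) (W : Finset (Frm r))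
    (b : Module.Basis W ℝ (Fin (r + 1) → ℝ)) : Prop where
  act : Act r C G
  card : W.card = r + 1
  mem : ∀ ℓ : W, b ℓ ∈ C
  eig : ∀ v (ℓ : W), G v (b ℓ) = Real.exp (ev ℓ.1 v) • b ℓ
  neg : ∀ J ⊆ W, J ≠ W → ∃ v : Fin r → ℤ, ∀ ℓ ∈ J, ev ℓ v < 0
  bal : ∃ B : ℝ, ∀ a : Frm r → ℝ, ∃ v : Fin r → ℤ, ∀ ℓ ∈ W, ∀ ℓ' ∈ W,
    a ℓ + ev ℓ v ≤ a ℓ' + ev ℓ' v + B
  max : ∀ v : Fin r → ℤ, ∃ ℓ ∈ W, 0 ≤ ev ℓ v ∧ (v ≠ 0 → 0 < ev ℓ v)

theorem exists_str (hPF : S_PF) (hCE : S_CE) (hLIN : S_LIN) (hIND : S_IND) {r : ℕ}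
    {C : Set (Fin (r + 1) → ℝ)} {G : (Fin r → ℤ) → ((Fin (r + 1) → ℝ) →ₗ[ℝ] (Fin (r + 1) → ℝ))}
    (h : Act r C G) : ∃ (W : Finset (Frm r)) (b : Module.Basis W ℝ (Fin (r + 1) → ℝ)),
      Str C G W b := by
  classical
  obtain ⟨c, δ, hc, hδ, hg⟩ := h.growth
  choose L X hXC hX0 hX hL using fun v => h.weight hPF hCE hc hδ hg v
  -- the vectors
  obtain ⟨e, he⟩ : ∃ e : Frm r → (Fin (r + 1) → ℝ), ∀ ℓ ∈ Set.range L, e ℓ ∈ C ∧ e ℓ ≠ 0 ∧
      ∀ w, G w (e ℓ) = Real.exp (ev ℓ w) • e ℓ := by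
    refine ⟨fun ℓ => if hℓ : ∃ v, L v = ℓ then X hℓ.choose else 0, ?_⟩
    rintro ℓ ⟨v, rfl⟩
    have hex : ∃ v', L v' = L v := ⟨v, rfl⟩
    simp only [dif_pos hex]
    have h1 := hex.choose_spec
    refine ⟨hXC _, hX0 _, fun w => ?_⟩
    have h2 := hX hex.choose w
    rwa [h1] at h2
  have hlin : ∀ T : Finset (Frm r), (T : Set (Frm r)) ⊆ Set.range L →
      LinearIndependent ℝ (fun ℓ : T => e ℓ) := fun T hT =>
    hIND r (r + 1) G T e (fun ℓ hℓ => (he ℓ (hT hℓ)).2.1) fun ℓ hℓ v => (he ℓ (hT hℓ)).2.2 v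
  have hcard : ∀ T : Finset (Frm r), (T : Set (Frm r)) ⊆ Set.range L → T.card ≤ r + 1 := by
    intro T hT
    have h1 := (hlin T hT).fintype_card_le_finrank
    rwa [Fintype.card_coe, Module.finrank_fin_fun] at h1
  have hfin : (Set.range L).Finite := by
    by_contra hinf
    obtain ⟨T, hT1, hT2⟩ := Set.Infinite.exists_subset_card_eq hinf (r + 2)
    have := hcard T hT1
    omega
  obtain ⟨W, hW⟩ : ∃ W : Finset (Frm r), W = hfin.toFinset := ⟨_, rfl⟩
  have hWr : (W : Set (Frm r)) = Set.range L := by rw [hW, hfin.coe_toFinset]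
  have hmemW : ∀ v, L v ∈ W := fun v => by
    rw [← Finset.mem_coe, hWr]
    exact ⟨v, rfl⟩
  obtain ⟨h1, h2, h3⟩ := hLIN r h.hr W (hcard W hWr.le) δ hδ fun v => ⟨L v, hmemW v, hL v⟩
  have hne : Nonempty W := ⟨⟨L 0, hmemW 0⟩⟩
  have hcd : Fintype.card W = Module.finrank ℝ (Fin (r + 1) → ℝ) := by
    rw [Fintype.card_coe, Module.finrank_fin_fun, h1]
  refine ⟨W, basisOfLinearIndependentOfCardEqFinrank (hlin W hWr.le) hcd, h, h1, fun ℓ => ?_,
    fun v ℓ => ?_, h2, h3, fun v => ⟨L v, hmemW v, ?_, fun hv => ?_⟩⟩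
  · rw [coe_basisOfLinearIndependentOfCardEqFinrank]
    exact (he ℓ.1 (hWr.le ℓ.2)).1
  · rw [coe_basisOfLinearIndependentOfCardEqFinrank]
    exact (he ℓ.1 (hWr.le ℓ.2)).2.2 v
  · exact le_trans (mul_nonneg hδ.le (Finset.sum_nonneg fun _ _ => abs_nonneg _)) (hL v)
  · refine lt_of_lt_of_le (mul_pos hδ ?_) (hL v)
    obtain ⟨i, hi⟩ : ∃ i, v i ≠ 0 := by
      by_contra hcon
      push Not at hcon
      exact hv (funext hcon)
    refine Finset.sum_pos' (fun _ _ => abs_nonneg _) ⟨i, Finset.mem_univ i, ?_⟩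
    rw [abs_pos]
    exact_mod_cast hi

namespace Str

variable {r : ℕ} {C : Set (Fin (r + 1) → ℝ)}
  {G : (Fin r → ℤ) → ((Fin (r + 1) → ℝ) →ₗ[ℝ] (Fin (r + 1) → ℝ))} {W : Finset (Frm r)}
  {b : Module.Basis W ℝ (Fin (r + 1) → ℝ)}

theorem repr_G (h : Str C G W b) (v : Fin r → ℤ) (x : Fin (r + 1) → ℝ) (ℓ : W) :
    b.repr (G v x) ℓ = Real.exp (ev ℓ.1 v) * b.repr x ℓ := by
  classical
  have h1 : x = ∑ k, b.repr x k • b k := (b.sum_repr x).symm
  have h2 : G v x = ∑ k, (Real.exp (ev k.1 v) * b.repr x k) • b k := by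
    conv_lhs => rw [h1]
    rw [map_sum]
    refine Finset.sum_congr rfl fun k _ => ?_
    rw [map_smul, h.eig, smul_smul, mul_comm]
  rw [h2]
  simp [map_sum, Finsupp.single_apply]

theorem exists_dir (h : Str C G W b) (ℓ : W) : ∃ v : Fin r → ℤ, 0 < ev ℓ.1 v ∧
    ∀ k : W, k ≠ ℓ → ev k.1 v < 0 := by
  classical
  obtain ⟨v, hv⟩ := h.neg (W.erase ℓ.1) (Finset.erase_subset _ _) fun hcon => by
    exact Finset.notMem_erase _ _ ((Finset.ext_iff.1 hcon ℓ.1).2 ℓ.2)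
  have h1 : ∀ k : W, k ≠ ℓ → ev k.1 v < 0 := fun k hk =>
    hv k.1 (Finset.mem_erase.2 ⟨fun h2 => hk (Subtype.ext h2), k.2⟩)
  have hv0 : v ≠ 0 := by
    rintro rfl
    have h2 : 1 < W.card := by rw [h.card]; have := h.act.hr; omega
    obtain ⟨k, hk, hkl⟩ := Finset.exists_mem_ne h2 ℓ.1
    have h3 := h1 ⟨k, hk⟩ fun h4 => hkl (congrArg Subtype.val h4)
    rw [ev_zero] at h3
    exact lt_irrefl _ h3
  refine ⟨v, ?_, h1⟩
  obtain ⟨k, hk, -, hk2⟩ := h.max v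
  have h2 := hk2 hv0
  by_cases h3 : (⟨k, hk⟩ : W) = ℓ
  · rw [← h3]
    exact h2
  · exact absurd (h1 _ h3) (not_lt.2 h2.le)

/-- the limits in the directions of the eigenvectors -/
theorem limit (h : Str C G W b) {D : Set (Fin (r + 1) → ℝ)} (hcl : IsClosed D)
    (hsmul : ∀ t : ℝ, 0 ≤ t → ∀ x ∈ D, t • x ∈ D) (hpres : ∀ v, ∀ x ∈ D, G v x ∈ D)
    {x : Fin (r + 1) → ℝ} (hx : x ∈ D) (ℓ : W) : b.repr x ℓ • b ℓ ∈ D := by
  classical
  obtain ⟨v, hv, hvk⟩ := h.exists_dir ℓ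
  have hlim : Tendsto (fun k : ℕ => Real.exp (-(k * ev ℓ.1 v)) • G (k • v) x) atTop
      (𝓝 (∑ j, (if j = ℓ then b.repr x ℓ else 0) • b j)) := by
    have h1 : (fun k : ℕ => Real.exp (-(k * ev ℓ.1 v)) • G (k • v) x) = fun k : ℕ =>
        ∑ j, (Real.exp (-(k * ev ℓ.1 v)) * (Real.exp (k * ev j.1 v) * b.repr x j)) • b j := by
      funext k
      have h2 : G (k • v) x = ∑ j, (Real.exp (k * ev j.1 v) * b.repr x j) • b j := by
        conv_lhs => rw [← b.sum_repr (G (k • v) x)]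
        refine Finset.sum_congr rfl fun j _ => ?_
        rw [h.repr_G, ev_nsmul]
      rw [h2, Finset.smul_sum]
      refine Finset.sum_congr rfl fun j _ => ?_
      rw [smul_smul]
    rw [h1]
    refine tendsto_finsetSum _ fun j _ => ?_
    refine Tendsto.smul_const ?_ _
    by_cases hj : j = ℓ
    · subst hj
      rw [if_pos rfl]
      refine Tendsto.congr (fun k => ?_) tendsto_const_nhds
      rw [← mul_assoc, ← Real.exp_add, neg_add_cancel, Real.exp_zero, one_mul]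
    · rw [if_neg hj]
      have h3 : (fun k : ℕ => Real.exp (-(k * ev ℓ.1 v)) * (Real.exp (k * ev j.1 v) *
          b.repr x j)) = fun k : ℕ => Real.exp (ev j.1 v - ev ℓ.1 v) ^ k * b.repr x j := by
        funext k
        rw [← mul_assoc, ← Real.exp_add, ← Real.exp_nat_mul]
        congr 2
        ring
      rw [h3]
      have h4 : Real.exp (ev j.1 v - ev ℓ.1 v) < 1 := by
        rw [Real.exp_lt_one_iff]
        have := hvk j hj
        linarith
      have h5 := (tendsto_pow_atTop_nhds_zero_of_lt_one (Real.exp_pos _).le h4).mul_const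
        (b.repr x j)
      rwa [zero_mul] at h5
  have h6 : ∑ j, (if j = ℓ then b.repr x ℓ else 0) • b j = b.repr x ℓ • b ℓ := by
    rw [Finset.sum_eq_single ℓ]
    · rw [if_pos rfl]
    · intro j _ hj
      rw [if_neg hj, zero_smul]
    · intro hcon
      exact absurd (Finset.mem_univ _) hcon
  rw [h6] at hlim
  exact hcl.mem_of_tendsto hlim (Eventually.of_forall fun k =>
    hsmul _ (Real.exp_pos _).le _ (hpres _ _ hx))

theorem repr_nonneg (h : Str C G W b) {x : Fin (r + 1) → ℝ} (hx : x ∈ C) (ℓ : W) :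
    0 ≤ b.repr x ℓ := by
  by_contra hcon
  push Not at hcon
  have h1 := h.limit h.act.pc.closed h.act.pc.smul h.act.pres hx ℓ
  have h2 := h.act.pc.smul (-(b.repr x ℓ))⁻¹ (inv_nonneg.2 (by linarith)) _ h1
  rw [smul_smul] at h2
  have h4 : (-(b.repr x ℓ))⁻¹ * b.repr x ℓ = -1 := by
    rw [inv_neg, neg_mul, inv_mul_cancel₀ hcon.ne]
  rw [h4, neg_one_smul] at h2
  exact b.ne_zero ℓ (h.act.pc.pointed _ (h.mem ℓ) h2)

theorem mem_of_nonneg (h : Str C G W b) {D : Set (Fin (r + 1) → ℝ)}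
    (hadd : ∀ x ∈ D, ∀ y ∈ D, x + y ∈ D) (hsmul : ∀ t : ℝ, 0 ≤ t → ∀ x ∈ D, t • x ∈ D)
    (hb : ∀ ℓ : W, b ℓ ∈ D) {x : Fin (r + 1) → ℝ} (hx : ∀ ℓ, 0 ≤ b.repr x ℓ) : x ∈ D := by
  classical
  have hne : Nonempty W := by
    have h1 : 0 < W.card := by rw [h.card]; omega
    obtain ⟨k, hk⟩ := Finset.card_pos.1 h1
    exact ⟨⟨k, hk⟩⟩
  obtain ⟨k⟩ := hne
  rw [← b.sum_repr x]
  refine Finset.sum_induction _ (· ∈ D) (fun a b ha hb => hadd a ha b hb) ?_ ?_
  · have := hsmul 0 le_rfl _ (hb k)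
    rwa [zero_smul] at this
  · intro j _
    exact hsmul _ (hx j) _ (hb j)

theorem mem_iff (h : Str C G W b) {x : Fin (r + 1) → ℝ} : x ∈ C ↔ ∀ ℓ, 0 ≤ b.repr x ℓ :=
  ⟨fun hx ℓ => h.repr_nonneg hx ℓ, fun hx => h.mem_of_nonneg h.act.pc.add h.act.pc.smul h.mem hx⟩

theorem continuous_repr (b : Module.Basis W ℝ (Fin (r + 1) → ℝ)) (ℓ : W) :
    Continuous fun x => b.repr x ℓ := by
  have h1 : (fun x => b.repr x ℓ) = fun x => b.coord ℓ x := by
    funext x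
    rfl
  rw [h1]
  exact LinearMap.continuous_of_finiteDimensional _

theorem interior_iff (h : Str C G W b) {x : Fin (r + 1) → ℝ} :
    x ∈ interior C ↔ ∀ ℓ, 0 < b.repr x ℓ := by
  classical
  constructor
  · intro hx ℓ
    obtain ⟨t, ht, hx'⟩ := interior_sub hx (b ℓ)
    have h1 := h.repr_nonneg (interior_subset hx') ℓ
    rw [map_sub, map_smul, Finsupp.sub_apply, Finsupp.smul_apply, b.repr_self,
      Finsupp.single_eq_same, smul_eq_mul, mul_one] at h1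
    linarith
  · intro hx
    have hopen : IsOpen {x : Fin (r + 1) → ℝ | ∀ ℓ : W, 0 < b.repr x ℓ} := by
      have : {x : Fin (r + 1) → ℝ | ∀ ℓ : W, 0 < b.repr x ℓ} =
          ⋂ ℓ : W, {x | 0 < b.repr x ℓ} := by
        ext x
        simp
      rw [this]
      exact isOpen_iInter_of_finite fun ℓ => isOpen_lt continuous_const (continuous_repr b ℓ)
    refine interior_maximal ?_ hopen hx
    intro z hz
    exact h.mem_iff.2 fun ℓ => (hz ℓ).le

/-- **Rigidity.** -/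
theorem rigid (h : Str C G W b) {D : Set (Fin (r + 1) → ℝ)} (hcl : IsClosed D)
    (hadd : ∀ x ∈ D, ∀ y ∈ D, x + y ∈ D) (hsmul : ∀ t : ℝ, 0 ≤ t → ∀ x ∈ D, t • x ∈ D)
    (hpres : ∀ v, ∀ x ∈ D, G v x ∈ D) {x : Fin (r + 1) → ℝ} (hx : x ∈ D) (hxC : x ∈ interior C) :
    C ⊆ D := by
  intro z hz
  have hb : ∀ ℓ : W, b ℓ ∈ D := by
    intro ℓ
    have h1 := h.limit hcl hsmul hpres hx ℓ
    have h2 := h.interior_iff.1 hxC ℓ
    have h3 := hsmul (b.repr x ℓ)⁻¹ (inv_pos.2 h2).le _ h1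
    rwa [smul_smul, inv_mul_cancel₀ h2.ne', one_smul] at h3
  exact h.mem_of_nonneg hadd hsmul hb (h.mem_iff.1 hz)

/-- integral vectors are in the interior -/
theorem integral (h : Str C G W b)
    (hint : ∀ v, ∀ x : Fin (r + 1) → ℝ, (∀ i, ∃ m : ℤ, x i = m) → ∀ i, ∃ m : ℤ, G v x i = m)
    {x : Fin (r + 1) → ℝ} (hx : x ∈ C) (hxi : ∀ i, ∃ m : ℤ, x i = m) (hx0 : x ≠ 0) :
    x ∈ interior C := by
  classical
  rw [h.interior_iff]
  by_contra hcon
  push Not at hcon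
  obtain ⟨ℓ, hℓ⟩ := hcon
  have hℓ0 : b.repr x ℓ = 0 := le_antisymm hℓ (h.repr_nonneg hx ℓ)
  obtain ⟨J, hJ⟩ : ∃ J : Finset (Frm r), J = (Finset.univ.filter fun k : W =>
      b.repr x k ≠ 0).image Subtype.val := ⟨_, rfl⟩
  have hJW : J ⊆ W := by
    intro k hk
    rw [hJ, Finset.mem_image] at hk
    obtain ⟨k', -, rfl⟩ := hk
    exact k'.2
  obtain ⟨v, hv⟩ := h.neg J hJW (by
    intro h1
    have h2 := (Finset.ext_iff.1 h1 ℓ.1).2 ℓ.2
    rw [hJ, Finset.mem_image] at h2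
    obtain ⟨k', hk', hk2⟩ := h2
    rw [Finset.mem_filter] at hk'
    have h3 : k' = ℓ := Subtype.ext hk2
    rw [h3] at hk'
    exact hk'.2 hℓ0)
  have hlim : Tendsto (fun k : ℕ => G (k • v) x) atTop (𝓝 (∑ j : W, (0 : ℝ) • b j)) := by
    have h1 : (fun k : ℕ => G (k • v) x) = fun k : ℕ =>
        ∑ j, (Real.exp (k * ev j.1 v) * b.repr x j) • b j := by
      funext k
      conv_lhs => rw [← b.sum_repr (G (k • v) x)]
      refine Finset.sum_congr rfl fun j _ => ?_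
      rw [h.repr_G, ev_nsmul]
    rw [h1]
    refine tendsto_finsetSum _ fun j _ => ?_
    refine Tendsto.smul_const ?_ _
    by_cases hj : b.repr x j = 0
    · rw [hj]
      simp
    · have h2 : ev j.1 v < 0 := hv j.1 (by
        rw [hJ]
        exact Finset.mem_image.2 ⟨j, Finset.mem_filter.2 ⟨Finset.mem_univ _, hj⟩, rfl⟩)
      have h3 : (fun k : ℕ => Real.exp (k * ev j.1 v) * b.repr x j) =
          fun k : ℕ => Real.exp (ev j.1 v) ^ k * b.repr x j := by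
        funext k
        rw [← Real.exp_nat_mul]
      rw [h3]
      have h4 : Real.exp (ev j.1 v) < 1 := Real.exp_lt_one_iff.2 h2
      have h5 := (tendsto_pow_atTop_nhds_zero_of_lt_one (Real.exp_pos _).le h4).mul_const
        (b.repr x j)
      rwa [zero_mul] at h5
  simp only [zero_smul, Finset.sum_const_zero] at hlim
  have h6 : ∀ᶠ k : ℕ in atTop, ‖G (k • v) x‖ < 1 := by
    have h7 := hlim.norm
    rw [norm_zero] at h7
    exact h7.eventually_lt_const one_pos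
  obtain ⟨k, hk⟩ := h6.exists
  have h8 : G (k • v) x = 0 := by
    funext i
    obtain ⟨m, hm⟩ := hint (k • v) x hxi i
    have h9 := (norm_le_pi_norm (G (k • v) x) i).trans_lt hk
    rw [hm, Real.norm_eq_abs] at h9
    have h10 : |m| < 1 := by exact_mod_cast h9
    rw [Int.abs_lt_one_iff] at h10
    rw [hm, h10]
    simp
  apply hx0
  have h9 := h.act.inv_apply (k • v) x
  rw [h8, map_zero] at h9
  exact h9.symm

/-- **Covering.** -/
theorem cover (hCOV : S_COV) (h : Str C G W b) : ∃ F : Finset (Fin (r + 1) → ℝ),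
    (∀ a ∈ F, a ∈ interior C ∧ ∀ i, ∃ m : ℤ, a i = m) ∧
      ∀ x ∈ interior C, ∃ v, G v x ∈ cone F := by
  classical
  obtain ⟨B, hB⟩ := h.bal
  obtain ⟨F, hF, hK⟩ := hCOV (r + 1) C h.act.pc
    {x | ∀ ℓ k : W, 0 ≤ b.repr x ℓ ∧ b.repr x ℓ ≤ Real.exp B * b.repr x k} (by
      have : {x : Fin (r + 1) → ℝ | ∀ ℓ k : W, 0 ≤ b.repr x ℓ ∧
          b.repr x ℓ ≤ Real.exp B * b.repr x k} =
          ⋂ ℓ : W, ⋂ k : W, ({x | 0 ≤ b.repr x ℓ} ∩
            {x | b.repr x ℓ ≤ Real.exp B * b.repr x k}) := by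
        ext x
        simp
      rw [this]
      refine isClosed_iInter fun ℓ => isClosed_iInter fun k => ?_
      exact (isClosed_le continuous_const (continuous_repr b ℓ)).inter
        (isClosed_le (continuous_repr b ℓ) (continuous_const.mul (continuous_repr b k))))
    (by
      intro t ht x hx ℓ k
      have h1 := hx ℓ k
      simp only [map_smul, Finsupp.smul_apply, smul_eq_mul]
      refine ⟨mul_nonneg ht.le h1.1, ?_⟩
      have h2 := mul_le_mul_of_nonneg_left h1.2 ht.le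
      linarith)
    (by
      intro x hx hx0
      rw [h.interior_iff]
      intro k
      by_contra hcon
      push Not at hcon
      apply hx0
      have h1 : ∀ ℓ : W, b.repr x ℓ = 0 := by
        intro ℓ
        have h2 := hx ℓ k
        have h3 := mul_nonpos_of_nonneg_of_nonpos (Real.exp_pos B).le hcon
        linarith
      rw [← b.sum_repr x]
      exact Finset.sum_eq_zero fun ℓ _ => by rw [h1, zero_smul])
  refine ⟨F, hF, fun x hx => ?_⟩
  have hpos := h.interior_iff.1 hx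
  obtain ⟨v, hv⟩ := hB fun ℓ => if hℓ : ℓ ∈ W then Real.log (b.repr x ⟨ℓ, hℓ⟩) else 0
  refine ⟨v, hK _ fun ℓ k => ?_⟩
  rw [h.repr_G, h.repr_G]
  refine ⟨(mul_pos (Real.exp_pos _) (hpos ℓ)).le, ?_⟩
  have h1 := hv ℓ.1 ℓ.2 k.1 k.2
  simp only [dif_pos ℓ.2, dif_pos k.2, Subtype.coe_eta] at h1
  have h2 := Real.exp_le_exp.2 h1
  rw [Real.exp_add, Real.exp_add, Real.exp_add, Real.exp_log (hpos ℓ), Real.exp_log (hpos k)] at h2
  calc Real.exp (ev ℓ.1 v) * b.repr x ℓ = b.repr x ℓ * Real.exp (ev ℓ.1 v) := mul_comm _ _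
    _ ≤ b.repr x k * Real.exp (ev k.1 v) * Real.exp B := h2
    _ = Real.exp B * (Real.exp (ev k.1 v) * b.repr x k) := by ring

end Str

end Pool.Agent.N110.CC
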