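import Pool.Agent.N110.CC.GStm
import Pool.Agent.N110.CC.Str
import Pool.Agent.N165.KM.Core

/-!
Project CC (helper110): the action of the pseudo-automorphisms on the Néron-Severi space.
-/

set_option autoImplicit false
set_option linter.unusedSectionVars false

open FF Pool.Agent.W602.GT Pool.Agent.Y172 Pool.Agent.R887
open Pool.Agent.Y167 (cone)
open Pool.Agent.N110 Pool.Agent.N110.PA Pool.Agent.N110.NV Pool.Agent.N492.PA
open Pool.Agent.N165.KM (IntL Sandwich HasFD)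

namespace Pool.Agent.N110.CC

noncomputable section

section

variable {K : Type} [Field K] [Algebra ℂ K] {N ρ : ℕ} {y : Fin (N + 1) → K}
  {c : Place ℂ K → Fin ρ → ℤ}

theorem image_iff {φ : K ≃ₐ[ℂ] K} {P Q : Place ℂ K} :
    (∀ g, P.ord g = Q.ord (φ g)) ↔ P = comap φ Q := by
  constructor
  · intro h
    apply Place.ext
    funext g
    exact h g
  · rintro rfl g
    rfl

theorem psaut_iff {φ : K ≃ₐ[ℂ] K} :
    PseudoAut φ y ↔ ∀ Q, IsPrimeDivisor y (comap φ Q) ↔ IsPrimeDivisor y Q := by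
  constructor
  · intro h Q
    exact h _ _ fun _ => rfl
  · intro h P Q hP
    rw [image_iff.1 hP]
    exact h Q

theorem comap_inv_comap (φ : K ≃ₐ[ℂ] K) (P : Place ℂ K) : comap φ⁻¹ (comap φ P) = P := by
  rw [← comap_mul, mul_inv_cancel, comap_one]

theorem comap_comap_inv (φ : K ≃ₐ[ℂ] K) (P : Place ℂ K) : comap φ (comap φ⁻¹ P) = P := by
  rw [← comap_mul, inv_mul_cancel, comap_one]

/-- the group of the pseudo-automorphisms -/
def psGroup (y : Fin (N + 1) → K) : Subgroup (K ≃ₐ[ℂ] K) where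
  carrier := {φ | PseudoAut φ y}
  mul_mem' := by
    intro a b ha hb
    show PseudoAut (a * b) y
    rw [psaut_iff]
    intro Q
    rw [comap_mul, (psaut_iff.1 hb) (comap a Q), (psaut_iff.1 ha) Q]
  one_mem' := by
    show PseudoAut 1 y
    rw [psaut_iff]
    intro Q
    rw [comap_one]
  inv_mem' := by
    intro a ha
    show PseudoAut a⁻¹ y
    rw [psaut_iff]
    intro Q
    have h1 := (psaut_iff.1 ha) (comap a⁻¹ Q)
    rw [comap_comap_inv] at h1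
    exact h1.symm

theorem mem_psGroup {φ : K ≃ₐ[ℂ] K} : φ ∈ psGroup y ↔ PseudoAut φ y := Iff.rfl

/-- the integral matrix of the pull back -/
theorem exists_mat (hy : NormalModel y) (hc : PicardBasis y c) {ψ : K ≃ₐ[ℂ] K}
    (hψ : PseudoAut ψ y) : ∃ M : Matrix (Fin ρ) (Fin ρ) ℤ, ∀ P, IsPrimeDivisor y P →
      M.mulVec (c P) = c (comap ψ⁻¹ P) := by
  classical
  obtain ⟨φ1, hφ1⟩ : ∃ φ1 : (Fin 1 → ℤ) → (K ≃ₐ[ℂ] K), ∀ v, φ1 v = ψ ^ (v 0) := ⟨_, fun _ => rfl⟩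
  have h : ∀ u v, φ1 (u + v) = φ1 u * φ1 v := fun u v => by
    rw [hφ1, hφ1, hφ1, Pi.add_apply, zpow_add]
  have hps : ∀ v, PseudoAut (φ1 v) y := fun v => by
    rw [hφ1, ← mem_psGroup]
    exact (psGroup y).zpow_mem hψ _
  have hk := kernN hy h hps hc.numClasses (fun _ => 1)
  obtain ⟨A0, hA0⟩ : ∃ A0 : (QQ y →₀ ℤ) →ₗ[ℤ] (Fin ρ → ℤ),
    A0 = Finsupp.linearCombination ℤ (fun P : QQ y => c P.1) := ⟨_, rfl⟩
  obtain ⟨A1, hA1⟩ : ∃ A1 : (QQ y →₀ ℤ) →ₗ[ℤ] (Fin ρ → ℤ),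
    A1 = Finsupp.linearCombination ℤ (fun P : QQ y => c (comap ψ⁻¹ P.1)) := ⟨_, rfl⟩
  have hker : ∀ D, A0 D = 0 → A1 D = 0 := by
    intro D hD
    rw [hA0, Finsupp.linearCombination_apply] at hD
    have h1 := hk D hD
    rw [hA1, Finsupp.linearCombination_apply]
    refine Eq.trans ?_ h1
    refine Finsupp.sum_congr fun P _ => ?_
    congr 2
    show comap ψ⁻¹ P.1 = comap (φ1 (-fun _ => 1)) P.1
    rw [hφ1]
    simp
  have hsurj : Function.Surjective A0 := by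
    intro x
    have h1 := hc.generate x
    induction h1 using AddSubgroup.closure_induction with
    | mem z hz =>
      obtain ⟨P, hP, rfl⟩ := hz
      exact ⟨Finsupp.single ⟨P, hP⟩ 1, by rw [hA0, Finsupp.linearCombination_single, one_smul]⟩
    | zero => exact ⟨0, map_zero _⟩
    | add a b _ _ ha hb =>
      obtain ⟨a', rfl⟩ := ha
      obtain ⟨b', rfl⟩ := hb
      exact ⟨a' + b', map_add _ _ _⟩
    | neg a _ ha =>
      obtain ⟨a', rfl⟩ := ha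
      exact ⟨-a', map_neg _ _⟩
  obtain ⟨s, hs⟩ := Module.projective_lifting_property A0 LinearMap.id hsurj
  refine ⟨LinearMap.toMatrix' (A1 ∘ₗ s), fun P hP => ?_⟩
  rw [LinearMap.toMatrix'_mulVec, LinearMap.comp_apply]
  have h1 : A0 (s (c P) - Finsupp.single ⟨P, hP⟩ 1) = 0 := by
    have h2 : A0 (s (c P)) = c P := LinearMap.congr_fun hs (c P)
    rw [map_sub, h2, hA0, Finsupp.linearCombination_single, one_smul, sub_self]
  have h3 := hker _ h1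
  rw [map_sub, sub_eq_zero] at h3
  rw [h3, hA1, Finsupp.linearCombination_single, one_smul]

/-- the matrix is unique -/
theorem mat_ext (hc : PicardBasis y c) {M M' : Matrix (Fin ρ) (Fin ρ) ℤ}
    (h : ∀ P, IsPrimeDivisor y P → M.mulVec (c P) = M'.mulVec (c P)) : M = M' := by
  have h1 : ∀ x : Fin ρ → ℤ, M.mulVec x = M'.mulVec x := by
    intro x
    have h1 := hc.generate x
    induction h1 using AddSubgroup.closure_induction with
    | mem z hz =>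
      obtain ⟨P, hP, rfl⟩ := hz
      exact h P hP
    | zero => rw [Matrix.mulVec_zero, Matrix.mulVec_zero]
    | add a b _ _ ha hb => rw [Matrix.mulVec_add, Matrix.mulVec_add, ha, hb]
    | neg a _ ha => rw [Matrix.mulVec_neg, Matrix.mulVec_neg, ha]
  exact Matrix.ext_of_mulVec_single fun i => h1 _

/-- a real matrix as a linear map -/
def TR (M : Matrix (Fin ρ) (Fin ρ) ℤ) : (Fin ρ → ℝ) →ₗ[ℝ] (Fin ρ → ℝ) :=
  Matrix.toLin' (M.map (Int.cast : ℤ → ℝ))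

theorem TR_cast (M : Matrix (Fin ρ) (Fin ρ) ℤ) (x : Fin ρ → ℤ) :
    TR M (fun i => (x i : ℝ)) = fun i => ((M.mulVec x i : ℤ) : ℝ) := by
  funext i
  rw [TR, Matrix.toLin'_apply]
  simp [Matrix.mulVec, dotProduct]

theorem TR_one : TR (1 : Matrix (Fin ρ) (Fin ρ) ℤ) = 1 := by
  rw [TR, Matrix.map_one _ Int.cast_zero Int.cast_one, Matrix.toLin'_one]
  rfl

theorem TR_mul (M M' : Matrix (Fin ρ) (Fin ρ) ℤ) : TR (M * M') = TR M * TR M' := by
  rw [TR, TR, TR, Module.End.mul_eq_comp, ← Matrix.toLin'_mul]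
  congr 1
  ext i j
  simp [Matrix.mul_apply]

theorem TR_int (M : Matrix (Fin ρ) (Fin ρ) ℤ) {x : Fin ρ → ℝ} (hx : ∀ i, ∃ m : ℤ, x i = m) :
    ∀ i, ∃ m : ℤ, TR M x i = m := by
  choose m hm using hx
  have : x = fun i => (m i : ℝ) := funext hm
  rw [this, TR_cast]
  exact fun i => ⟨_, rfl⟩

variable {𝒮 : Subgroup (K ≃ₐ[ℂ] K)}

/-- the representation of a group of pseudo-automorphisms -/
structure Rep (y : Fin (N + 1) → K) (c : Place ℂ K → Fin ρ → ℤ) (𝒮 : Subgroup (K ≃ₐ[ℂ] K))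
    (M : (K ≃ₐ[ℂ] K) → Matrix (Fin ρ) (Fin ρ) ℤ) : Prop where
  ps : ∀ φ ∈ 𝒮, PseudoAut φ y
  pull : ∀ φ ∈ 𝒮, ∀ P, IsPrimeDivisor y P → (M φ).mulVec (c P) = c (comap φ⁻¹ P)
  one : M 1 = 1
  mul : ∀ φ ∈ 𝒮, ∀ ψ ∈ 𝒮, M (φ * ψ) = M φ * M ψ

theorem exists_rep (hy : NormalModel y) (hc : PicardBasis y c) (h𝒮 : ∀ φ ∈ 𝒮, PseudoAut φ y) :
    ∃ M, Rep y c 𝒮 M := by
  classical
  choose! M hM using fun (φ : K ≃ₐ[ℂ] K) (hφ : PseudoAut φ y) => exists_mat hy hc hφ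
  refine ⟨M, h𝒮, fun φ hφ => hM φ (h𝒮 φ hφ), mat_ext hc fun P hP => ?_, fun φ hφ ψ hψ =>
    mat_ext hc fun P hP => ?_⟩
  · rw [hM 1 (h𝒮 1 𝒮.one_mem) P hP, Matrix.one_mulVec, inv_one, comap_one]
  · rw [hM _ (h𝒮 _ (𝒮.mul_mem hφ hψ)) P hP, ← Matrix.mulVec_mulVec, hM ψ (h𝒮 ψ hψ) P hP,
      hM φ (h𝒮 φ hφ) _ ((psaut_iff.1 (h𝒮 _ (𝒮.inv_mem hψ)) P).2 hP), mul_inv_rev, comap_mul]

namespace Rep

variable {M : (K ≃ₐ[ℂ] K) → Matrix (Fin ρ) (Fin ρ) ℤ}

theorem TR_rcl (h : Rep y c 𝒮 M) {φ : K ≃ₐ[ℂ] K} (hφ : φ ∈ 𝒮) {P : Place ℂ K}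
    (hP : IsPrimeDivisor y P) : TR (M φ) (rcl c P) = rcl c (comap φ⁻¹ P) := by
  show TR (M φ) (fun i => (c P i : ℝ)) = _
  rw [TR_cast, h.pull φ hφ P hP]
  rfl

theorem inv_mul (h : Rep y c 𝒮 M) {φ : K ≃ₐ[ℂ] K} (hφ : φ ∈ 𝒮) :
    TR (M φ⁻¹) * TR (M φ) = 1 := by
  rw [← TR_mul, ← h.mul _ (𝒮.inv_mem hφ) _ hφ, inv_mul_cancel, h.one, TR_one]

theorem mul_inv (h : Rep y c 𝒮 M) {φ : K ≃ₐ[ℂ] K} (hφ : φ ∈ 𝒮) :
    TR (M φ) * TR (M φ⁻¹) = 1 := by
  rw [← TR_mul, ← h.mul _ hφ _ (𝒮.inv_mem hφ), mul_inv_cancel, h.one, TR_one]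

/-- the pull back as an isomorphism -/
def TE (h : Rep y c 𝒮 M) (φ : 𝒮) : (Fin ρ → ℝ) ≃ₗ[ℝ] (Fin ρ → ℝ) :=
  LinearEquiv.ofLinear (TR (M φ)) (TR (M (φ : K ≃ₐ[ℂ] K)⁻¹)) (h.mul_inv φ.2) (h.inv_mul φ.2)

theorem TE_apply (h : Rep y c 𝒮 M) (φ : 𝒮) (x : Fin ρ → ℝ) : h.TE φ x = TR (M φ) x := rfl

theorem TE_mul (h : Rep y c 𝒮 M) (φ ψ : 𝒮) : h.TE (φ * ψ) = h.TE φ * h.TE ψ := by
  apply LinearEquiv.ext
  intro x
  show TR (M ((φ : K ≃ₐ[ℂ] K) * (ψ : K ≃ₐ[ℂ] K))) x = TR (M φ) (TR (M ψ) x)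
  rw [h.mul _ φ.2 _ ψ.2, TR_mul]
  rfl

theorem isPull (h : Rep y c 𝒮 M) (φ : 𝒮) : IsPullBack y c φ (h.TE φ) := by
  intro P Q hP hPQ
  rw [h.TE_apply, h.TR_rcl φ.2 hP, image_iff.1 hPQ, comap_inv_comap]

end Rep

theorem span_rcl (hc : PicardBasis y c) (x : Fin ρ → ℝ) :
    x ∈ Submodule.span ℝ {z | ∃ P, IsPrimeDivisor y P ∧ z = rcl c P} := by
  classical
  have key : ∀ z : Fin ρ → ℤ, (fun i => (z i : ℝ)) ∈
      Submodule.span ℝ {z | ∃ P, IsPrimeDivisor y P ∧ z = rcl c P} := by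
    intro z
    have h1 := hc.generate z
    induction h1 using AddSubgroup.closure_induction with
    | mem z hz =>
      obtain ⟨P, hP, rfl⟩ := hz
      exact Submodule.subset_span ⟨P, hP, rfl⟩
    | zero =>
      have : (fun i : Fin ρ => (((0 : Fin ρ → ℤ) i : ℤ) : ℝ)) = 0 := by
        funext i
        simp
      rw [this]
      exact Submodule.zero_mem _
    | add a b _ _ ha hb =>
      have : (fun i : Fin ρ => (((a + b) i : ℤ) : ℝ)) =
          (fun i => (a i : ℝ)) + fun i => (b i : ℝ) := by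
        funext i
        simp
      rw [this]
      exact Submodule.add_mem _ ha hb
    | neg a _ ha =>
      have : (fun i : Fin ρ => (((-a) i : ℤ) : ℝ)) = -fun i => (a i : ℝ) := by
        funext i
        simp
      rw [this]
      exact Submodule.neg_mem _ ha
  have h2 : x = ∑ j, x j • (Pi.single j (1 : ℝ) : Fin ρ → ℝ) := by
    funext i
    rw [Finset.sum_apply, Finset.sum_eq_single i]
    · simp
    · intro j _ hj
      simp [Ne.symm hj]
    · intro hi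
      exact absurd (Finset.mem_univ i) hi
  rw [h2]
  refine Submodule.sum_mem _ fun j _ => Submodule.smul_mem _ _ ?_
  have h3 := key (Pi.single j 1)
  have h4 : (fun i : Fin ρ => (((Pi.single j 1 : Fin ρ → ℤ) i : ℤ) : ℝ)) = Pi.single j 1 := by
    funext i
    by_cases hij : i = j
    · subst hij
      simp
    · simp [hij]
  rwa [h4] at h3

/-- the pull back is unique -/
theorem pull_ext (hc : PicardBasis y c) {φ : K ≃ₐ[ℂ] K} {T T' : (Fin ρ → ℝ) ≃ₗ[ℝ] (Fin ρ → ℝ)}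
    (h : IsPullBack y c φ T) (h' : IsPullBack y c φ T') : T = T' := by
  apply LinearEquiv.ext
  intro x
  have h1 := span_rcl hc x
  induction h1 using Submodule.span_induction with
  | mem z hz =>
    obtain ⟨P, hP, rfl⟩ := hz
    have hPQ : ∀ g, P.ord g = (comap φ⁻¹ P).ord (φ g) :=
      image_iff.2 (comap_comap_inv φ P).symm
    rw [h P _ hP hPQ, h' P _ hP hPQ]
  | zero => rw [map_zero, map_zero]
  | add a b _ _ ha hb => rw [map_add, map_add, ha, hb]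
  | smul t a _ ha => rw [map_smul, map_smul, ha]

end

end

end Pool.Agent.N110.CC
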