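import Pool.Agent.N110.CC.Fin
import Pool.Agent.N386.CC.PF
import Pool.Agent.N707.CC.CE
import Pool.Agent.N395.CC.SEP
import Pool.Agent.N769.CC.LIN
import Pool.Agent.N362.CC.COV
import Pool.Agent.N394.CC.IND
import Pool.Agent.N249.CC.UNIT
import Pool.Agent.N380.CC.BALL
import Pool.Agent.N40.CC.EFF
import Pool.Agent.N608.CC.MOV
import Pool.Agent.N265.CC.FREE
import Pool.Agent.N93.CC.HYP
import Pool.Agent.N681.CC.PSEF
import Pool.Agent.N27.CC.GROW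

/-!
Project CC (helper110): the cone conjecture for varieties with an abelian group of maximal rank. The
parts are by helper386 (`PF`), helper707 (`CE`), helper395 (`SEP`), helper769 (`LIN`), helper362
(`COV`), helper394 (`IND`), helper249 (`UNIT`), helper380 (`BALL`), helper40 (`EFF`), helper608
(`MOV`), helper265 (`FREE`), helper93 (`HYP`), helper681 (`PSEF`), helper27 (`GROW`) and helper165
(`KM.Core`).
-/

set_option autoImplicit false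
set_option linter.unusedSectionVars false

open FF Pool.Agent.W602.GT Pool.Agent.Y172 Pool.Agent.R887
open Pool.Agent.N110 Pool.Agent.N110.PA Pool.Agent.N110.NV Pool.Agent.N492.PA

namespace Pool.Agent.N110.CC

section

variable {K : Type} [Field K] [Algebra ℂ K] {N n r : ℕ} {y : Fin (N + 1) → K}
  {c : Place ℂ K → Fin (r + 1) → ℤ} {𝒮 : Subgroup (K ≃ₐ[ℂ] K)}

/-- the main theorem -/
theorem mainT (hy : NormalModel y) (hn : Algebra.trdeg ℂ K = n) (hn0 : 0 < n) (hr : 0 < r)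
    (hc : PicardBasis y c) (h𝒮 : ∀ φ ∈ 𝒮, PseudoAut φ y) {φ : (Fin r → ℤ) → (K ≃ₐ[ℂ] K)}
    (hφ : ∀ u v, φ (u + v) = φ u * φ v) (hφ𝒮 : ∀ v, φ v ∈ 𝒮)
    (hent : ∀ v, v ≠ 0 → 1 < dynDegree (φ v) y n 1) {i : Fin (N + 1)} (hi : y i ≠ 0)
    {Hy : Place ℂ K → ℚ} (hHe : Effective y Hy)
    (hH : ∀ P l, IsPrimeDivisor y P → Centred y l P → Hy P = P.ord (y i / y l)) :
    toR (cls y (cQ c) Hy) ∈ interior (CE y c) ∧
    (∀ x ∈ effCone y c, x ≠ 0 → x ∈ interior (CE y c)) ∧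
    (∀ D : Set (Fin (r + 1) → ℝ), IsClosed D → (∀ x ∈ D, ∀ z ∈ D, x + z ∈ D) →
      (∀ t : ℝ, 0 ≤ t → ∀ x ∈ D, t • x ∈ D) →
      (∀ ψ ∈ 𝒮, ∀ T, IsPullBack y c ψ T → ∀ x ∈ D, T x ∈ D) → (∃ x ∈ D, x ∈ interior (CE y c)) →
      CE y c ⊆ D) ∧
    (∀ x : Fin (r + 1) → ℝ, (∀ v T, IsPullBack y c (φ v) T → T x = x) → x = 0) ∧
    HasFundDomain {T | ∃ ψ ∈ 𝒮, IsPullBack y c ψ T} (effCone y c) :=
  main Pool.Agent.N386.CC.leafPF (Pool.Agent.N707.CC.leafCE Pool.Agent.N386.CC.leafPF)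
    Pool.Agent.N769.CC.leafLIN (Pool.Agent.N394.CC.leafIND Pool.Agent.N395.CC.leafSEP)
    Pool.Agent.N362.CC.leafCOV Pool.Agent.N249.CC.leafUNIT Pool.Agent.N380.CC.leafBALL
    Pool.Agent.N40.CC.leafEFF Pool.Agent.N27.CC.leafGROW hy hn hn0 hr hc h𝒮 hφ hφ𝒮 hent hi hHe hH

theorem exists_prime (hc : PicardBasis y c) : ∃ P, IsPrimeDivisor y P := by
  by_contra hcon
  push Not at hcon
  have h1 := hc.generate (fun _ => 1)
  have h2 : {z | ∃ P, IsPrimeDivisor y P ∧ z = c P} = (∅ : Set (Fin (r + 1) → ℤ)) := by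
    ext z
    simp only [Set.mem_setOf_eq, Set.mem_empty_iff_false, iff_false]
    rintro ⟨P, hP, -⟩
    exact hcon P hP
  rw [h2, AddSubgroup.closure_empty, AddSubgroup.mem_bot] at h1
  exact one_ne_zero (congrFun h1 0)

/-- the movable cone is the closed effective cone -/
theorem mov_eq (hy : NormalModel y) (hn : Algebra.trdeg ℂ K = n) (hn0 : 0 < n) (hr : 0 < r)
    (hc : PicardBasis y c) (h𝒮 : ∀ φ ∈ 𝒮, PseudoAut φ y) {φ : (Fin r → ℤ) → (K ≃ₐ[ℂ] K)}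
    (hφ : ∀ u v, φ (u + v) = φ u * φ v) (hφ𝒮 : ∀ v, φ v ∈ 𝒮)
    (hent : ∀ v, v ≠ 0 → 1 < dynDegree (φ v) y n 1) : movCone y c = CE y c := by
  obtain ⟨i, hi⟩ := hy.ne
  obtain ⟨Hy, hHe, hH⟩ := exists_hyp hy hi
  obtain ⟨h1, -, h3, -, -⟩ := mainT hy hn hn0 hr hc h𝒮 hφ hφ𝒮 hent hi hHe hH
  obtain ⟨D, -, hDm, hD⟩ := Pool.Agent.N93.CC.leafHYP K N n (r + 1) y hy hn hn0 c i hi Hy hHe hH
  have hpc := pc_eff hc.numClasses
  have hps := Pool.Agent.N681.CC.leafPSEF K N n (r + 1) y hy hn hn0 c hc.numClasses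
    (exists_prime hc)
  refine Set.Subset.antisymm (closure_minimal ?_ isClosed_closure) (h3 _ isClosed_closure
    (fun x hx z hz => closure_coneOf_add hx hz) (fun t ht x hx => closure_coneOf_smul hx ht)
    (fun ψ hψ T hT x hx => closure_coneOf_map T.toLinearMap ?_ hx)
    ⟨_, subset_closure (coneOf_self ⟨D, hDm, rfl⟩), hD ▸ h1⟩)
  · intro x hx
    refine coneOf_ind (p := fun x => x ∈ CE y c) ?_ (fun x z hx hz => hpc.add x hx z hz)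
      (fun t x ht hx => hpc.smul t ht x hx) ?_ hx
    · have := hpc.smul 0 le_rfl _ (interior_subset h1)
      rwa [zero_smul] at this
    · rintro _ ⟨D', hD', rfl⟩
      exact (hps D').2 hD'
  · rintro _ ⟨D', hD', rfl⟩
    have h4 := Pool.Agent.N608.CC.leafMOV K N (r + 1) y hy c ψ (h𝒮 ψ hψ) T hT D' hD'.1
    exact ⟨_, h4.2 hD', h4.1.symm⟩

/-- the nef cone is the closed effective cone -/
theorem nef_eq (hy : NormalModel y) (hn : Algebra.trdeg ℂ K = n) (hn0 : 0 < n) (hr : 0 < r)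
    (hc : PicardBasis y c) (h𝒮 : ∀ φ ∈ 𝒮, IsAut φ y) {φ : (Fin r → ℤ) → (K ≃ₐ[ℂ] K)}
    (hφ : ∀ u v, φ (u + v) = φ u * φ v) (hφ𝒮 : ∀ v, φ v ∈ 𝒮)
    (hent : ∀ v, v ≠ 0 → 1 < dynDegree (φ v) y n 1) : nefCone y n c = CE y c := by
  have hfr := fun φ hφ => Pool.Agent.N265.CC.leafFREE K N n y hy φ (h𝒮 φ hφ)
  obtain ⟨i, hi⟩ := hy.ne
  obtain ⟨Hy, hHe, hH⟩ := exists_hyp hy hi
  obtain ⟨h1, -, h3, -, -⟩ := mainT hy hn hn0 hr hc (fun φ hφ => (hfr φ hφ).1) hφ hφ𝒮 hent hi hHe hH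
  obtain ⟨D, hDf, -, hD⟩ := Pool.Agent.N93.CC.leafHYP K N n (r + 1) y hy hn hn0 c i hi Hy hHe hH
  have hpc := pc_eff hc.numClasses
  have hps := Pool.Agent.N681.CC.leafPSEF K N n (r + 1) y hy hn hn0 c hc.numClasses
    (exists_prime hc)
  refine Set.Subset.antisymm (closure_minimal ?_ isClosed_closure) (h3 _ isClosed_closure
    (fun x hx z hz => closure_coneOf_add hx hz) (fun t ht x hx => closure_coneOf_smul hx ht)
    (fun ψ hψ T hT x hx => closure_coneOf_map T.toLinearMap ?_ hx)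
    ⟨_, subset_closure (coneOf_self ⟨D, hDf, rfl⟩), hD ▸ h1⟩)
  · intro x hx
    refine coneOf_ind (p := fun x => x ∈ CE y c) ?_ (fun x z hx hz => hpc.add x hx z hz)
      (fun t x ht hx => hpc.smul t ht x hx) ?_ hx
    · have := hpc.smul 0 le_rfl _ (interior_subset h1)
      rwa [zero_smul] at this
    · rintro _ ⟨D', hD', rfl⟩
      exact (hps D').2 ((hps D').1 hD')
  · rintro _ ⟨D', hD', rfl⟩
    have h4 := Pool.Agent.N608.CC.leafMOV K N (r + 1) y hy c ψ (hfr ψ hψ).1 T hT D' hD'.1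
    exact ⟨_, (hfr ψ hψ).2 D' hD', h4.1.symm⟩

/-- effective classes are psef -/
theorem eff_sub (hy : NormalModel y) (hc : PicardBasis y c) : effCone y c ⊆ CE y c :=
  (Pool.Agent.N40.CC.leafEFF K N (r + 1) y hy c hc).1

/-- **The cone conjecture for pseudo-automorphisms.** -/
theorem cc_mov (hy : NormalModel y) (hn : Algebra.trdeg ℂ K = n) (hn0 : 0 < n) (hr : 0 < r)
    (hc : PicardBasis y c) (h𝒮 : ∀ φ ∈ 𝒮, PseudoAut φ y) {φ : (Fin r → ℤ) → (K ≃ₐ[ℂ] K)}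
    (hφ : ∀ u v, φ (u + v) = φ u * φ v) (hφ𝒮 : ∀ v, φ v ∈ 𝒮)
    (hent : ∀ v, v ≠ 0 → 1 < dynDegree (φ v) y n 1) :
    effCone y c ⊆ movCone y c ∧
      HasFundDomain {T | ∃ ψ ∈ 𝒮, IsPullBack y c ψ T} (movCone y c ∩ effCone y c) := by
  obtain ⟨i, hi⟩ := hy.ne
  obtain ⟨Hy, hHe, hH⟩ := exists_hyp hy hi
  have h1 : effCone y c ⊆ movCone y c := by
    rw [mov_eq hy hn hn0 hr hc h𝒮 hφ hφ𝒮 hent]
    exact eff_sub hy hc
  rw [Set.inter_eq_right.2 h1]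
  exact ⟨h1, (mainT hy hn hn0 hr hc h𝒮 hφ hφ𝒮 hent hi hHe hH).2.2.2.2⟩

/-- **The cone conjecture for automorphisms.** -/
theorem cc_nef (hy : NormalModel y) (hn : Algebra.trdeg ℂ K = n) (hn0 : 0 < n) (hr : 0 < r)
    (hc : PicardBasis y c) (h𝒮 : ∀ φ ∈ 𝒮, IsAut φ y) {φ : (Fin r → ℤ) → (K ≃ₐ[ℂ] K)}
    (hφ : ∀ u v, φ (u + v) = φ u * φ v) (hφ𝒮 : ∀ v, φ v ∈ 𝒮)
    (hent : ∀ v, v ≠ 0 → 1 < dynDegree (φ v) y n 1) :
    effCone y c ⊆ nefCone y n c ∧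
      HasFundDomain {T | ∃ ψ ∈ 𝒮, IsPullBack y c ψ T} (nefCone y n c ∩ effCone y c) := by
  have hfr := fun φ hφ => Pool.Agent.N265.CC.leafFREE K N n y hy φ (h𝒮 φ hφ)
  obtain ⟨i, hi⟩ := hy.ne
  obtain ⟨Hy, hHe, hH⟩ := exists_hyp hy hi
  have h1 : effCone y c ⊆ nefCone y n c := by
    rw [nef_eq hy hn hn0 hr hc h𝒮 hφ hφ𝒮 hent]
    exact eff_sub hy hc
  rw [Set.inter_eq_right.2 h1]
  exact ⟨h1, (mainT hy hn hn0 hr hc (fun φ hφ => (hfr φ hφ).1) hφ hφ𝒮 hent hi hHe hH).2.2.2.2⟩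

/-- the group of the automorphisms -/
def autGroup (y : Fin (N + 1) → K) : Subgroup (K ≃ₐ[ℂ] K) where
  carrier := {φ | IsAut φ y}
  mul_mem' := by
    intro a b ha hb P Q hPQ g
    rw [image_iff] at hPQ
    subst hPQ
    rw [AlgEquiv.mul_apply, comap_mul]
    have h1 := hb (comap b (comap a Q)) (comap a Q) (fun _ => rfl) g
    have h2 := ha (comap a Q) Q (fun _ => rfl) (b g)
    exact h1.trans h2
  one_mem' := by
    intro P Q hPQ g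
    rw [image_iff, comap_one] at hPQ
    rw [hPQ, AlgEquiv.one_apply]
  inv_mem' := by
    intro a ha P Q hPQ g
    rw [image_iff] at hPQ
    subst hPQ
    have h1 := ha Q (comap a⁻¹ Q) (by
      rw [image_iff, comap_comap_inv]) (a⁻¹ g)
    have h2 : a (a⁻¹ g) = g := by
      rw [← AlgEquiv.mul_apply, mul_inv_cancel, AlgEquiv.one_apply]
    rw [h2] at h1
    exact h1.symm

theorem mem_autGroup {φ : K ≃ₐ[ℂ] K} : φ ∈ autGroup y ↔ IsAut φ y := Iff.rfl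

/-- the elements of a group of pseudo-automorphisms which preserve a divisor -/
def presGroup (y : Fin (N + 1) → K) (G : Subgroup (K ≃ₐ[ℂ] K)) (hG : ∀ ψ ∈ G, PseudoAut ψ y)
    (Δ : Place ℂ K → ℝ) : Subgroup (K ≃ₐ[ℂ] K) where
  carrier := {ψ | ψ ∈ G ∧ Preserves ψ y Δ}
  mul_mem' := by
    rintro a b ⟨ha, ha'⟩ ⟨hb, hb'⟩
    refine ⟨G.mul_mem ha hb, fun P Q hP hPQ => ?_⟩
    rw [image_iff, comap_mul] at hPQ
    subst hPQ
    rw [hb' _ (comap a Q) hP fun _ => rfl,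
      ha' _ Q ((psaut_iff.1 (hG b hb) (comap a Q)).1 hP) fun _ => rfl]
  one_mem' := by
    refine ⟨G.one_mem, fun P Q hP hPQ => ?_⟩
    rw [image_iff, comap_one] at hPQ
    rw [hPQ]
  inv_mem' := by
    rintro a ⟨ha, ha'⟩
    refine ⟨G.inv_mem ha, fun P Q hP hPQ => ?_⟩
    rw [image_iff] at hPQ
    subst hPQ
    have h1 : IsPrimeDivisor y Q := (psaut_iff.1 (hG _ (G.inv_mem ha)) Q).1 hP
    exact (ha' Q (comap a⁻¹ Q) h1 (by rw [image_iff, comap_comap_inv])).symm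

theorem mem_presGroup {G : Subgroup (K ≃ₐ[ℂ] K)} {hG : ∀ ψ ∈ G, PseudoAut ψ y}
    {Δ : Place ℂ K → ℝ} {ψ : K ≃ₐ[ℂ] K} :
    ψ ∈ presGroup y G hG Δ ↔ ψ ∈ G ∧ Preserves ψ y Δ := Iff.rfl

theorem isAut_ps (hy : NormalModel y) {ψ : K ≃ₐ[ℂ] K} (h : IsAut ψ y) : PseudoAut ψ y :=
  (Pool.Agent.N265.CC.leafFREE K N 0 y hy ψ h).1

/-- nonzero effective classes are in the interior of the effective cone -/
theorem eff_int (hy : NormalModel y) (hn : Algebra.trdeg ℂ K = n) (hn0 : 0 < n) (hr : 0 < r)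
    (hc : PicardBasis y c) {φ : (Fin r → ℤ) → (K ≃ₐ[ℂ] K)}
    (hφ : ∀ u v, φ (u + v) = φ u * φ v) (hPA : ∀ v, PseudoAut (φ v) y)
    (hent : ∀ v, v ≠ 0 → 1 < dynDegree (φ v) y n 1) {x : Fin (r + 1) → ℝ}
    (hx : x ∈ effCone y c) (hx0 : x ≠ 0) : x ∈ interior (effCone y c) := by
  obtain ⟨i, hi⟩ := hy.ne
  obtain ⟨Hy, hHe, hH⟩ := exists_hyp hy hi
  exact interior_maximal (Pool.Agent.N40.CC.leafEFF K N (r + 1) y hy c hc).2 isOpen_interior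
    ((mainT hy hn hn0 hr hc (𝒮 := psGroup y) (fun _ h => h) hφ hPA hent hi hHe hH).2.1 x hx hx0)

/-- **The cone conjecture for the pseudo-automorphisms which preserve a divisor.** -/
theorem cc_movD (hy : NormalModel y) (hn : Algebra.trdeg ℂ K = n) (hn0 : 0 < n) (hr : 0 < r)
    (hc : PicardBasis y c) {φ : (Fin r → ℤ) → (K ≃ₐ[ℂ] K)}
    (hφ : ∀ u v, φ (u + v) = φ u * φ v) (hPA : ∀ v, PseudoAut (φ v) y)
    (hent : ∀ v, v ≠ 0 → 1 < dynDegree (φ v) y n 1) {Δ : Place ℂ K → ℝ}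
    (hΔ : ∀ v, Preserves (φ v) y Δ) :
    HasFundDomain {T | ∃ ψ, PseudoAut ψ y ∧ Preserves ψ y Δ ∧ IsPullBack y c ψ T}
      (movCone y c ∩ effCone y c) := by
  have h := (cc_mov hy hn hn0 hr hc (𝒮 := presGroup y (psGroup y) (fun _ h => h) Δ)
    (fun ψ hψ => hψ.1) hφ (fun v => ⟨hPA v, hΔ v⟩) hent).2
  have h1 : {T | ∃ ψ ∈ presGroup y (psGroup y) (fun _ h => h) Δ, IsPullBack y c ψ T} =
      {T | ∃ ψ, PseudoAut ψ y ∧ Preserves ψ y Δ ∧ IsPullBack y c ψ T} := by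
    ext T
    exact ⟨fun ⟨ψ, h1, h2⟩ => ⟨ψ, h1.1, h1.2, h2⟩, fun ⟨ψ, h1, h2, h3⟩ => ⟨ψ, ⟨h1, h2⟩, h3⟩⟩
  rwa [h1] at h

/-- **The cone conjecture for the automorphisms which preserve a divisor.** -/
theorem cc_nefD (hy : NormalModel y) (hn : Algebra.trdeg ℂ K = n) (hn0 : 0 < n) (hr : 0 < r)
    (hc : PicardBasis y c) {φ : (Fin r → ℤ) → (K ≃ₐ[ℂ] K)}
    (hφ : ∀ u v, φ (u + v) = φ u * φ v) (hA : ∀ v, IsAut (φ v) y)
    (hent : ∀ v, v ≠ 0 → 1 < dynDegree (φ v) y n 1) {Δ : Place ℂ K → ℝ}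
    (hΔ : ∀ v, Preserves (φ v) y Δ) :
    HasFundDomain {T | ∃ ψ, IsAut ψ y ∧ Preserves ψ y Δ ∧ IsPullBack y c ψ T}
      (nefCone y n c ∩ effCone y c) := by
  have h := (cc_nef hy hn hn0 hr hc
    (𝒮 := presGroup y (autGroup y) (fun _ h => isAut_ps hy h) Δ)
    (fun ψ hψ => hψ.1) hφ (fun v => ⟨hA v, hΔ v⟩) hent).2
  have h1 : {T | ∃ ψ ∈ presGroup y (autGroup y) (fun _ h => isAut_ps hy h) Δ,
      IsPullBack y c ψ T} =
      {T | ∃ ψ, IsAut ψ y ∧ Preserves ψ y Δ ∧ IsPullBack y c ψ T} := by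
    ext T
    exact ⟨fun ⟨ψ, h1, h2⟩ => ⟨ψ, h1.1, h1.2, h2⟩, fun ⟨ψ, h1, h2, h3⟩ => ⟨ψ, ⟨h1, h2⟩, h3⟩⟩
  rwa [h1] at h

end

end Pool.Agent.N110.CC
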