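import Mathlib
import Pool.Agent.Y167.ConeDef

/-!
Project CC (helper110): abelian groups of maximal rank acting on convex cones. Statements of the
parts.
-/

set_option autoImplicit false

namespace Pool.Agent.N110.CC

open Pool.Agent.Y167 (cone)

/-- closed convex cones without lines -/
structure PC {ρ : ℕ} (C : Set (Fin ρ → ℝ)) : Prop where
  closed : IsClosed C
  add : ∀ x ∈ C, ∀ y ∈ C, x + y ∈ C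
  smul : ∀ t : ℝ, 0 ≤ t → ∀ x ∈ C, t • x ∈ C
  pointed : ∀ x ∈ C, -x ∈ C → x = 0

/-- (PF) Perron-Frobenius -/
def S_PF : Prop :=
  ∀ (ρ : ℕ) (C : Set (Fin ρ → ℝ)), PC C → ∀ u ∈ C, u ≠ 0 →
    (∀ x ∈ C, ∃ t : ℝ, 0 ≤ t ∧ t • u - x ∈ C) →
    ∀ g : (Fin ρ → ℝ) →ₗ[ℝ] (Fin ρ → ℝ), (∀ x ∈ C, g x ∈ C) →
    ∃ x ∈ C, x ≠ 0 ∧ ∃ μ : ℝ, 0 ≤ μ ∧ g x = μ • x ∧
      ∀ κ : ℝ, μ < κ → ∃ B : ℝ, ∀ l : ℕ, (B * κ ^ l) • u - (g ^ l) u ∈ C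

/-- (CE) common eigenvectors -/
def S_CE : Prop :=
  ∀ (ρ r : ℕ) (C : Set (Fin ρ → ℝ)), PC C → (∃ x ∈ C, x ≠ 0) →
    ∀ g : Fin r → ((Fin ρ → ℝ) →ₗ[ℝ] (Fin ρ → ℝ)), (∀ i j, g i * g j = g j * g i) →
    (∀ i, ∀ x ∈ C, g i x ∈ C) → ∃ x ∈ C, x ≠ 0 ∧ ∀ i, ∃ χ : ℝ, g i x = χ • x

/-- (SEP) linear forms which are not zero at an integral vector -/
def S_SEP : Prop :=
  ∀ (r : ℕ) (T : Finset ((Fin r → ℝ) →ₗ[ℝ] ℝ)), (0 : (Fin r → ℝ) →ₗ[ℝ] ℝ) ∉ T →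
    ∃ v : Fin r → ℤ, ∀ ℓ ∈ T, ℓ (fun i => (v i : ℝ)) ≠ 0

/-- (LIN) linear forms whose maximum is positive -/
def S_LIN : Prop :=
  ∀ (r : ℕ), 0 < r → ∀ W : Finset ((Fin r → ℝ) →ₗ[ℝ] ℝ), W.card ≤ r + 1 → ∀ δ : ℝ, 0 < δ →
    (∀ v : Fin r → ℤ, ∃ ℓ ∈ W, δ * ∑ i, |(v i : ℝ)| ≤ ℓ (fun i => (v i : ℝ))) →
    W.card = r + 1 ∧
    (∀ J ⊆ W, J ≠ W → ∃ v : Fin r → ℤ, ∀ ℓ ∈ J, ℓ (fun i => (v i : ℝ)) < 0) ∧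
    ∃ B : ℝ, ∀ a : ((Fin r → ℝ) →ₗ[ℝ] ℝ) → ℝ, ∃ v : Fin r → ℤ, ∀ ℓ ∈ W, ∀ ℓ' ∈ W,
      a ℓ + ℓ (fun i => (v i : ℝ)) ≤ a ℓ' + ℓ' (fun i => (v i : ℝ)) + B

/-- (COV) closed subcones are covered by finitely many integral vectors in the interior -/
def S_COV : Prop :=
  ∀ (ρ : ℕ) (C : Set (Fin ρ → ℝ)), PC C → ∀ K : Set (Fin ρ → ℝ), IsClosed K →
    (∀ t : ℝ, 0 < t → ∀ x ∈ K, t • x ∈ K) → (∀ x ∈ K, x ≠ 0 → x ∈ interior C) →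
    ∃ F : Finset (Fin ρ → ℝ), (∀ a ∈ F, a ∈ interior C ∧ ∀ i, ∃ m : ℤ, a i = m) ∧
      ∀ x ∈ K, x ∈ cone F

/-- (IND) joint eigenvectors with different weights are independent -/
def S_IND : Prop :=
  ∀ (r ρ : ℕ) (G : (Fin r → ℤ) → ((Fin ρ → ℝ) →ₗ[ℝ] (Fin ρ → ℝ)))
    (T : Finset ((Fin r → ℝ) →ₗ[ℝ] ℝ)) (e : ((Fin r → ℝ) →ₗ[ℝ] ℝ) → (Fin ρ → ℝ)),
    (∀ ℓ ∈ T, e ℓ ≠ 0) →
    (∀ ℓ ∈ T, ∀ v : Fin r → ℤ, G v (e ℓ) = Real.exp (ℓ (fun i => (v i : ℝ))) • e ℓ) →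
    LinearIndependent ℝ (fun ℓ : T => e ℓ)

end Pool.Agent.N110.CC
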