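import Pool.Agent.N110.NV.Defs

/-!
Definitions: big and numerically trivial divisors `K_X + Δ`.
-/

set_option autoImplicit false

open FF Pool.Agent.W602.GT Pool.Agent.Y172 Pool.Agent.R887

namespace Pool.Agent.N110.CC

section

variable {K : Type} [Field K] [Algebra ℂ K] {N : ℕ}

/-- The divisor `K_X + Δ`, `n` being the dimension of `X`, is big: for some `m ≥ 1` the divisor
`m (K_X + Δ) - H`, `H` being a hyperplane section `y i = 0`, has a section `ω ≠ 0`. -/
def LogBig (y : Fin (N + 1) → K) (n : ℕ) (Δ : Place ℂ K → ℚ) : Prop :=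
  ∀ i, y i ≠ 0 → ∃ m : ℕ, 1 ≤ m ∧ ∃ ω : (Fin n → Derivation ℂ K K) → K, ω ≠ 0 ∧ IsPluri m ω ∧
    ∀ P l, IsPrimeDivisor y P → Centred y l P → OrdGe P ω (P.ord (y i / y l) - m * Δ P)

/-- The divisor `K_X + Δ`, `n` being the dimension of `X`, is torsion: for some `m ≥ 1` there is an
`m`-canonical form whose order is `- m Δ P` along all prime divisors `P` of `X`. -/
def LogTorsion (y : Fin (N + 1) → K) (n : ℕ) (Δ : Place ℂ K → ℚ) : Prop :=
  ∃ m : ℕ, 1 ≤ m ∧ ∃ ω : (Fin n → Derivation ℂ K K) → K, ω ≠ 0 ∧ IsPluri m ω ∧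
    ∀ P, IsPrimeDivisor y P → OrdEq P ω (-(m * Δ P))

/-- The divisor `- (K_X + Δ)`, `n` being the dimension of `X`, is pseudo-effective: for all `q ≥ 1`
there is `m ≥ 1` and an `m q`-canonical form `ω ≠ 0` whose order `s` along the prime divisors `P` is
at most `m ord (y i / y l) - m q Δ P`, that is, `m H - m q (K_X + Δ)` is linearly equivalent to an
effective divisor, `H` being a hyperplane section `y i = 0`. So `K_X + Δ` is numerically trivial if
it is pseudo-effective and has this property. -/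
def LogAntiPsef (y : Fin (N + 1) → K) (n : ℕ) (Δ : Place ℂ K → ℚ) : Prop :=
  ∀ i, y i ≠ 0 → ∀ q : ℕ, 1 ≤ q → ∃ m : ℕ, 1 ≤ m ∧ ∃ ω : (Fin n → Derivation ℂ K K) → K,
    ω ≠ 0 ∧ IsPluri (m * q) ω ∧ ∀ P l, IsPrimeDivisor y P → Centred y l P →
      ∃ s : ℚ, s ≤ m * P.ord (y i / y l) - m * q * Δ P ∧ OrdEq P ω s

end

end Pool.Agent.N110.CC
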