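import Pool.Agent.N110.CC.R
import Pool.Agent.N110.CC.TDefs

/-!
Project CC (helper110): pairs on finite images of varieties with an abelian group of maximal rank.
-/

set_option autoImplicit false
set_option linter.unusedSectionVars false
set_option linter.overlappingInstances false

open FF Module Pool.Agent.W602.GT Pool.Agent.Y172 Pool.Agent.R887
open Pool.Agent.N110 Pool.Agent.N110.PA Pool.Agent.N110.NV Pool.Agent.N492.PA

namespace Pool.Agent.N110.CC

section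

variable {K : Type} [Field K] [Algebra ℂ K] {N n : ℕ} {y : Fin (N + 1) → K}

/-- the order of a form -/
theorem ordEq_of {E : Fin n → Derivation ℂ K K} {c : Place ℂ K → ℤ} {P : Place ℂ K}
    {m : ℕ} {ω : (Fin n → Derivation ℂ K K) → K}
    (hc : ∀ r : ℚ, OrdGe P ω r ↔ (ω E = 0 ∨ r ≤ m * c P + P.ord (ω E))) (h0 : ω E ≠ 0) :
    OrdEq P ω (m * c P + P.ord (ω E)) := by
  refine ⟨(hc _).2 (Or.inr le_rfl), ?_⟩
  by_contra hcon
  push Not at hcon
  have h1 : OrdGe P ω (m * c P + P.ord (ω E) + 1) := by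
    intro F hF
    by_cases h2 : ω F = 0
    · exact Or.inl h2
    · right
      have h3 := hcon F hF h2
      have h4 := (((hc _).2 (Or.inr le_rfl)) F hF).resolve_left h2
      have h5 : ((m * c P + P.ord (ω E) : ℤ) : ℚ) ≤ P.ord (ω F) := by
        push_cast
        exact h4
      have h6 : (m * c P + P.ord (ω E) : ℤ) ≤ P.ord (ω F) := by exact_mod_cast h5
      have h7 : (m * c P + P.ord (ω E) : ℤ) ≠ P.ord (ω F) := by
        intro h8
        apply h3
        rw [← h8]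
        push_cast
        rfl
      have h9 : (m * c P + P.ord (ω E) : ℤ) + 1 ≤ P.ord (ω F) := by omega
      have h10 : (((m * c P + P.ord (ω E) : ℤ) + 1 : ℤ) : ℚ) ≤ P.ord (ω F) := by exact_mod_cast h9
      push_cast at h10
      exact h10
  have h2 := ((hc _).1 h1).resolve_left h0
  linarith

/-- the canonical divisor -/
structure Can (y : Fin (N + 1) → K) (x : Fin n → K) (E : Fin n → Derivation ℂ K K)
    (c : Place ℂ K → ℤ) : Prop where
  frame : IsFrame E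
  self : ∀ i j, E i (x j) = if i = j then 1 else 0
  fin : {P | IsPrimeDivisor y P ∧ c P ≠ 0}.Finite
  ord : ∀ P, IsPrimeDivisor y P → ∀ (m : ℕ) (ω : (Fin n → Derivation ℂ K K) → K), IsPluri m ω →
    ∀ r : ℚ, OrdGe P ω r ↔ (ω E = 0 ∨ r ≤ m * c P + P.ord (ω E))

theorem exists_can (hy : NormalModel y) (hn : Algebra.trdeg ℂ K = n) :
    ∃ (x : Fin n → K) (E : Fin n → Derivation ℂ K K) (c : Place ℂ K → ℤ), Can y x E c := by
  have hess := hy.ess
  obtain ⟨x, E, hx, hE⟩ := exists_crd hn (k := ℂ) (K := K)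
  have hfr : IsFrame E := fun F => ⟨fun j => F (x j),
    (Pool.Agent.W73.PG.PULL.expand x hx E hE F).symm⟩
  obtain ⟨c, hcf, hc⟩ := exists_ordc hy hn hx hE
  exact ⟨x, E, c, hfr, hE, hcf, hc⟩

variable {x : Fin n → K} {E : Fin n → Derivation ℂ K K} {c : Place ℂ K → ℤ}

theorem Can.finD (h : Can y x E c) {Δ : Place ℂ K → ℚ}
    (hΔ : {P | IsPrimeDivisor y P ∧ Δ P ≠ 0}.Finite) :
    {P | IsPrimeDivisor y P ∧ (c P : ℚ) + Δ P ≠ 0}.Finite := by
  refine Fin0.add (y := y) (D := fun P => (c P : ℚ)) (h.fin.subset ?_) hΔ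
  rintro P ⟨hP, h0⟩
  refine ⟨hP, fun h2 => h0 ?_⟩
  change ((c P : ℤ) : ℚ) = 0
  rw [h2]
  simp

theorem Can.psef (h : Can y x E c) {Δ : Place ℂ K → ℚ} (hps : LogPsef y n Δ) :
    PsefD y (fun P => (c P : ℚ) + Δ P) := by
  intro i hi q hq
  obtain ⟨m, hm, ω, hω0, hω⟩ := hps i hi q hq
  have hωE : ω E ≠ 0 := fun h0 => hω0 (pluri_zero h.frame hω.1 h0)
  refine ⟨m, hm, ω E, hωE, fun P l hP hl => ?_⟩
  have h1 := ((h.ord P hP _ ω hω.1 _).1 (hω.2 P l hP hl)).resolve_left hωE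
  push_cast at h1
  linarith

theorem Can.big (h : Can y x E c) {Δ : Place ℂ K → ℚ}
    (hb : BigD y (fun P => (c P : ℚ) + Δ P)) : LogBig y n Δ := by
  intro i hi
  obtain ⟨m, hm, f, hf, h1⟩ := hb i hi
  refine ⟨m, hm, frm x m f, fun h0 => hf ?_, frm_pluri x m f, fun P l hP hl => ?_⟩
  · rw [← frm_self h.self m f, h0]
    rfl
  · rw [h.ord P hP _ _ (frm_pluri x m f), frm_self h.self]
    right
    have h2 := h1 P l hP hl
    linarith

theorem Can.torsion (h : Can y x E c) {Δ : Place ℂ K → ℚ}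
    (ht : ∃ m : ℕ, 1 ≤ m ∧ ∃ f : K, f ≠ 0 ∧
      ∀ P, IsPrimeDivisor y P → (P.ord f : ℚ) = m * ((c P : ℚ) + Δ P)) : LogTorsion y n Δ := by
  obtain ⟨m, hm, f, hf, h1⟩ := ht
  refine ⟨m, hm, frm x m f⁻¹, fun h0 => inv_ne_zero hf ?_, frm_pluri x m f⁻¹, fun P hP => ?_⟩
  · rw [← frm_self h.self m f⁻¹, h0]
    rfl
  · have h2 := ordEq_of (h.ord P hP m _ (frm_pluri x m f⁻¹)) (by
      rw [frm_self h.self]
      exact inv_ne_zero hf)
    rw [frm_self h.self, P.ord_inv] at h2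
    convert h2 using 1
    push_cast
    rw [h1 P hP]
    ring

theorem Can.anti (h : Can y x E c) {Δ : Place ℂ K → ℚ}
    (ht : PsefD y (fun P => -((c P : ℚ) + Δ P))) : LogAntiPsef y n Δ := by
  intro i hi q hq
  obtain ⟨m, hm, f, hf, h1⟩ := ht i hi q hq
  refine ⟨m, hm, frm x (m * q) f⁻¹, fun h0 => inv_ne_zero hf ?_, frm_pluri x (m * q) f⁻¹,
    fun P l hP hl => ⟨(m * q : ℕ) * c P + P.ord (f⁻¹), ?_, ?_⟩⟩
  · rw [← frm_self h.self (m * q) f⁻¹, h0]
    rfl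
  · rw [P.ord_inv]
    have h2 := h1 P l hP hl
    push_cast
    linarith
  · have h2 := ordEq_of (h.ord P hP (m * q) _ (frm_pluri x (m * q) f⁻¹)) (by
      rw [frm_self h.self]
      exact inv_ne_zero hf)
    rwa [frm_self h.self] at h2

end

section

variable {K K' : Type} [Field K] [Algebra ℂ K] [Field K'] [Algebra ℂ K'] {N N' n r ρ : ℕ}
  {y : Fin (N + 1) → K} {y' : Fin (N' + 1) → K'}

/-- **Pairs on finite images.** -/
theorem pairs_img (hy : NormalModel y) (hy' : NormalModel y') (hn : Algebra.trdeg ℂ K = n)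
    (hn' : Algebra.trdeg ℂ K' = n) (hn0 : 0 < n) (hr : 0 < r)
    {c' : Place ℂ K' → Fin (r + 1) → ℤ} (hc' : PicardBasis y' c')
    {φ : (Fin r → ℤ) → (K' ≃ₐ[ℂ] K')} (hφ : ∀ u v, φ (u + v) = φ u * φ v)
    (hps : ∀ v, PseudoAut (φ v) y') (hent : ∀ v, v ≠ 0 → 1 < dynDegree (φ v) y' n 1)
    {π : K →ₐ[ℂ] K'} (hπ : FiniteMap π y y') {Δ : Place ℂ K → ℚ}
    (hΔ : {P | IsPrimeDivisor y P ∧ Δ P ≠ 0}.Finite) (hpsef : LogPsef y n Δ) :
    (LogAntiPsef y n Δ ∧ (IrregularityZero y → LogTorsion y n Δ)) ∨ LogBig y n Δ := by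
  obtain ⟨x, E, c, hcan⟩ := exists_can hy hn
  have h1 := hcan.psef hpsef
  rcases rigid_img hy hy' hn hn' hn0 hc' (V := Set.univ)
    (fun q _ h1 h2 => rat_int hy' hn' hn0 hr hc' hφ hps hent h1 h2) hπ (hcan.finD hΔ)
    (fun _ _ _ => Set.mem_univ _) h1 with h | h
  · exact Or.inl ⟨hcan.anti h, fun hq => hcan.torsion (torsion hy hq (hcan.finD hΔ) h1 h)⟩
  · exact Or.inr (hcan.big h)

end

end Pool.Agent.N110.CC
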