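import Pool.Agent.N110.CC.Hull
import Pool.Agent.N340.CC.VINT

/-!
Project CC (helper110): invariant rational subspaces of dimension `r + 1` of the Néron-Severi space.
The linear algebra is by helper340 (`VINT`).
-/

set_option autoImplicit false
set_option linter.unusedSectionVars false

open FF Pool.Agent.W602.GT Pool.Agent.Y172 Pool.Agent.R887
open Pool.Agent.N110 Pool.Agent.N110.PA Pool.Agent.N110.NV Pool.Agent.N492.PA
open Pool.Agent.N165.KM (interior_add_mem interior_smul_mem)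
open Filter Topology

namespace Pool.Agent.N110.CC

section

variable {K : Type} [Field K] [Algebra ℂ K] {N n r ρ : ℕ} {y : Fin (N + 1) → K}
  {c : Place ℂ K → Fin ρ → ℤ}

/-- pseudo-automorphisms preserve the closed effective cone -/
theorem pres_CE (hy : NormalModel y) (hc : PicardBasis y c)
    {M : (K ≃ₐ[ℂ] K) → Matrix (Fin ρ) (Fin ρ) ℤ} (hM : Rep y c (psGroup y) M) :
    ∀ ψ ∈ psGroup y, ∀ x ∈ CE y c, TR (M ψ) x ∈ CE y c := by
  obtain ⟨i, hi⟩ := hy.ne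
  obtain ⟨Hy, hHe, hH⟩ := exists_hyp hy hi
  obtain ⟨h, hh⟩ : ∃ h, h = toR (cls y (cQ c) Hy) := ⟨_, rfl⟩
  have hpc := pc_eff hc.numClasses
  have hint : h ∈ interior (CE y c) := hh ▸ hyp_intN hy hc hi hHe hH
  obtain ⟨hE1, hE2⟩ := Pool.Agent.N40.CC.leafEFF K N ρ y hy c hc
  have hpresE : ∀ ψ ∈ psGroup y, ∀ x ∈ effCone y c, TR (M ψ) x ∈ effCone y c := by
    intro ψ hψ x hx
    refine coneOf_map (TR (M ψ)) ?_ hx
    rintro _ ⟨P, hP, rfl⟩
    exact ⟨comap ψ⁻¹ P, (psaut_iff.1 ((psGroup y).inv_mem hψ) P).2 hP, hM.TR_rcl hψ hP⟩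
  intro ψ hψ x hx
  have hlim : Tendsto (fun k : ℕ => TR (M ψ) (x + (1 / ((k : ℝ) + 1)) • h)) atTop
      (𝓝 (TR (M ψ) (x + (0 : ℝ) • h))) := by
    have h1 : Tendsto (fun k : ℕ => x + (1 / ((k : ℝ) + 1)) • h) atTop (𝓝 (x + (0 : ℝ) • h)) :=
      tendsto_const_nhds.add (tendsto_one_div_add_atTop_nhds_zero_nat.smul_const _)
    exact ((LinearMap.continuous_of_finiteDimensional (TR (M ψ))).tendsto _).comp h1
  rw [zero_smul, add_zero] at hlim
  refine isClosed_closure.mem_of_tendsto hlim (Eventually.of_forall fun k => ?_)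
  have h2 : x + (1 / ((k : ℝ) + 1)) • h ∈ interior (CE y c) := by
    rw [add_comm x]
    exact interior_add_mem hpc.add (interior_smul_mem hpc.smul (by positivity) hint) hx
  exact hE1 (hpresE ψ hψ _ (hE2 h2))

theorem TR_toR (M : Matrix (Fin ρ) (Fin ρ) ℤ) (q : Fin ρ → ℚ) :
    TR M (toR q) = toR ((M.map (Int.cast : ℤ → ℚ)).mulVec q) := by
  funext i
  rw [TR, Matrix.toLin'_apply]
  simp [Matrix.mulVec, dotProduct, toR]

/-- rational classes in `V` -/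
theorem rat_intV (hy : NormalModel y) (hn : Algebra.trdeg ℂ K = n) (hn0 : 0 < n) (hr : 0 < r)
    (hc : PicardBasis y c) {φ : (Fin r → ℤ) → (K ≃ₐ[ℂ] K)}
    (hφ : ∀ u v, φ (u + v) = φ u * φ v) (hPA : ∀ v, PseudoAut (φ v) y)
    (hent : ∀ v, v ≠ 0 → 1 < dynDegree (φ v) y n 1) {V : Submodule ℚ (Fin ρ → ℚ)}
    (hV : Module.finrank ℚ V = r + 1)
    (hst : ∀ v T, IsPullBack y c (φ v) T → ∀ q ∈ V, ∃ q' ∈ V, T (toR q) = toR q')
    {B : Place ℂ K → ℚ} (hB : {P | IsPrimeDivisor y P ∧ B P ≠ 0}.Finite)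
    (hBV : cls y (cQ c) B ∈ V) (hBb : BigD y B) {q : Fin ρ → ℚ} (hqV : q ∈ V)
    (hq : toR q ∈ CE y c) (hq0 : q ≠ 0) : toR q ∈ interior (CE y c) := by
  classical
  have hρ : 0 < ρ := by
    rcases Nat.eq_zero_or_pos ρ with rfl | h
    · exfalso
      exact hq0 (funext fun i => i.elim0)
    · exact h
  obtain ⟨M, hM⟩ := exists_rep hy hc (𝒮 := psGroup y) (fun _ h => h)
  have hφ0 : φ 0 = 1 := phi_zero hφ
  have hφn : ∀ v, φ (-v) = (φ v)⁻¹ := by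
    intro v
    rw [eq_inv_iff_mul_eq_one, ← hφ, neg_add_cancel, hφ0]
  have hM0 : M (φ 0) = 1 := by rw [hφ0, hM.one]
  have hMa : ∀ u v, M (φ (u + v)) = M (φ u) * M (φ v) := fun u v => by
    rw [hφ, hM.mul _ (hPA u) _ (hPA v)]
  refine Pool.Agent.N340.CC.leafVINT ρ r hr (CE y c) (pc_eff hc.numClasses) (fun v => M (φ v)) hM0
    hMa (fun v => pres_CE hy hc hM _ (hPA v))
    (Pool.Agent.N27.CC.leafGROW K N n ρ r y hy hn hn0 hr hρ c hc φ hφ hPA hent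
      (fun v => M (φ v)) hM0 hMa (fun v P hP => by
        show (M (φ v)).mulVec (c P) = c (comap (φ (-v)) P)
        rw [hM.pull _ (hPA v) P hP, hφn]))
    V hV (fun v x hx => ?_) ⟨_, hBV, int_of_big hy hc hB hBb⟩ q hqV hq hq0
  obtain ⟨q', hq', h1⟩ := hst v (hM.TE ⟨φ v, hPA v⟩) (hM.isPull ⟨φ v, hPA v⟩) x hx
  rw [hM.TE_apply] at h1
  have h2 : TR (M (φ v)) (toR x) = toR q' := h1
  rw [TR_toR] at h2
  rw [toR_inj h2]
  exact hq'

end

section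

variable {K K' : Type} [Field K] [Algebra ℂ K] [Field K'] [Algebra ℂ K'] {N N' n r ρ : ℕ}
  {y : Fin (N + 1) → K} {y' : Fin (N' + 1) → K'}

/-- **Divisors in a subspace.** -/
theorem span_img (hy : NormalModel y) (hy' : NormalModel y') (hn : Algebra.trdeg ℂ K = n)
    (hn' : Algebra.trdeg ℂ K' = n) (hn0 : 0 < n) (hr : 0 < r)
    {c' : Place ℂ K' → Fin ρ → ℤ} (hc' : PicardBasis y' c')
    {φ : (Fin r → ℤ) → (K' ≃ₐ[ℂ] K')} (hφ : ∀ u v, φ (u + v) = φ u * φ v)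
    (hps : ∀ v, PseudoAut (φ v) y') (hent : ∀ v, v ≠ 0 → 1 < dynDegree (φ v) y' n 1)
    {V : Submodule ℚ (Fin ρ → ℚ)} (hV : Module.finrank ℚ V = r + 1)
    (hst : ∀ v T, IsPullBack y' c' (φ v) T → ∀ q ∈ V, ∃ q' ∈ V, T (toR q) = toR q')
    {B : Place ℂ K' → ℚ} (hB : {P | IsPrimeDivisor y' P ∧ B P ≠ 0}.Finite)
    (hBV : cls y' (cQ c') B ∈ V) (hBb : BigD y' B)
    {π : K →ₐ[ℂ] K'} (hπ : FiniteMap π y y') {L : Place ℂ K → ℚ}
    (hL : {P | IsPrimeDivisor y P ∧ L P ≠ 0}.Finite)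
    (hLV : ∀ L' : Place ℂ K' → ℚ, {P | IsPrimeDivisor y' P ∧ L' P ≠ 0}.Finite →
      (∀ Q P e, IsPrimeDivisor y' Q → LiesOver π Q P e → L' Q = e * L P) → cls y' (cQ c') L' ∈ V)
    (hpsef : PsefD y L) : PsefD y (fun P => -L P) ∨ BigD y L :=
  rigid_img hy hy' hn hn' hn0 hc' (V := (V : Set (Fin ρ → ℚ)))
    (fun _ hqV h1 h2 => rat_intV hy' hn' hn0 hr hc' hφ hps hent hV hst hB hBV hBb hqV h1 h2) hπ hL
    hLV hpsef

end

end Pool.Agent.N110.CC
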