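import Pool.Agent.N110.CC.Rep

/-!
Project CC (helper110): rational subspaces of maximal rank.
-/

set_option autoImplicit false

open Pool.Agent.N110 Pool.Agent.N110.NV

namespace Pool.Agent.N110.CC

/-- (VINT) rational vectors of the cone in an invariant rational subspace of dimension `r + 1` which
meets the interior of the cone -/
def S_VINT : Prop :=
  ∀ (ρ r : ℕ), 0 < r → ∀ C : Set (Fin ρ → ℝ), PC C →
    ∀ M : (Fin r → ℤ) → Matrix (Fin ρ) (Fin ρ) ℤ, M 0 = 1 → (∀ u v, M (u + v) = M u * M v) →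
    (∀ v, ∀ x ∈ C, TR (M v) x ∈ C) →
    (∃ a δ : ℝ, 0 < a ∧ 0 < δ ∧ ∀ v, a * Real.exp (δ * ∑ i, |(v i : ℝ)|) ≤
      ∑ i, ∑ j, |(M v i j : ℝ)|) →
    ∀ V : Submodule ℚ (Fin ρ → ℚ), Module.finrank ℚ V = r + 1 →
    (∀ v, ∀ x ∈ V, ((M v).map (Int.cast : ℤ → ℚ)).mulVec x ∈ V) →
    (∃ q ∈ V, toR q ∈ interior C) →
    ∀ q ∈ V, toR q ∈ C → q ≠ 0 → toR q ∈ interior C

end Pool.Agent.N110.CC
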