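import Pool.Agent.N110.CC.V
import Pool.Agent.N110.CC.SA

/-!
Project CC (helper110): the cones in an invariant subspace of dimension `r + 1`. Parts of the proof
are from `VINT` by helper340.
-/

set_option autoImplicit false
set_option linter.unusedSectionVars false

open FF Pool.Agent.W602.GT Pool.Agent.Y172 Pool.Agent.R887
open Pool.Agent.Y167 (cone)
open Pool.Agent.N110 Pool.Agent.N110.PA Pool.Agent.N110.NV Pool.Agent.N492.PA
open Pool.Agent.N165.KM (interior_add_mem interior_smul_mem interior_sub exists_pos_functional HasFD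
  Sandwich IntL)
open Filter Topology

namespace Pool.Agent.N110.CC

/-- rational approximation which respects the linear relations -/
theorem exists_lin {ι : Type} [Fintype ι] (a : ι → ℝ) {ε : ℝ} (hε : 0 < ε) :
    ∃ a' : ι → ℚ, (∀ w : ι → ℚ, ∑ k, (w k : ℝ) * a k = 0 → ∑ k, w k * a' k = 0) ∧
      ∀ k, |((a' k : ℚ) : ℝ) - a k| < ε := by
  classical
  obtain ⟨U, hU⟩ : ∃ U : Submodule ℚ ℝ, U = Submodule.span ℚ (Set.range a) := ⟨_, rfl⟩
  have hfin : FiniteDimensional ℚ U := by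
    rw [hU]
    exact FiniteDimensional.span_of_finite ℚ (Set.finite_range a)
  have hmem : ∀ k, a k ∈ U := fun k => by
    rw [hU]
    exact Submodule.subset_span ⟨k, rfl⟩
  obtain ⟨u, hu⟩ : ∃ u : Module.Basis (Fin (Module.finrank ℚ U)) ℚ U, True :=
    ⟨Module.finBasis ℚ U, trivial⟩
  obtain ⟨α, hα⟩ : ∃ α : ι → Fin (Module.finrank ℚ U) → ℚ, ∀ k,
      (⟨a k, hmem k⟩ : U) = ∑ l, α k l • u l :=
    ⟨fun k l => u.repr ⟨a k, hmem k⟩ l, fun k => (u.sum_repr _).symm⟩
  obtain ⟨B, hB⟩ : ∃ B : ℝ, ∀ k l, |((α k l : ℚ) : ℝ)| ≤ B := by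
    obtain ⟨B, hB⟩ := (Set.finite_range fun p : ι × Fin (Module.finrank ℚ U) =>
      |((α p.1 p.2 : ℚ) : ℝ)|).bddAbove
    exact ⟨B, fun k l => hB ⟨(k, l), rfl⟩⟩
  obtain ⟨δ, hδ⟩ : ∃ δ : ℝ, δ = ε / ((Module.finrank ℚ U + 1) * (|B| + 1)) := ⟨_, rfl⟩
  have hδ0 : 0 < δ := by rw [hδ]; positivity
  have happ : ∀ l, ∃ q : ℚ, |(q : ℝ) - u l| < δ := by
    intro l
    obtain ⟨q, h1, h2⟩ := exists_rat_btwn (show (u l : ℝ) < u l + δ by linarith)
    exact ⟨q, by rw [abs_lt]; constructor <;> linarith⟩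
  choose q hq using happ
  obtain ⟨g, hg⟩ : ∃ g : U →ₗ[ℚ] ℚ, ∀ l, g (u l) = q l := ⟨u.constr ℚ q, fun l => u.constr_basis ℚ q l⟩
  refine ⟨fun k => g ⟨a k, hmem k⟩, fun w hw => ?_, fun k => ?_⟩
  · have h1 : (∑ k, w k • (⟨a k, hmem k⟩ : U)) = 0 := by
      apply Subtype.ext
      rw [Submodule.coe_sum]
      simp only [Submodule.coe_smul, Submodule.coe_zero]
      rw [← hw]
      refine Finset.sum_congr rfl fun k _ => ?_
      rw [Rat.smul_def]
    have h2 := congrArg g h1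
    rw [map_zero, map_sum] at h2
    rw [← h2]
    refine Finset.sum_congr rfl fun k _ => ?_
    rw [map_smul, smul_eq_mul]
  · have h2 : a k = ∑ l, ((α k l : ℚ) : ℝ) * (u l : ℝ) := by
      have h3 := congrArg (fun z : U => (z : ℝ)) (hα k)
      simp only [Submodule.coe_sum, Submodule.coe_smul] at h3
      rw [h3]
      refine Finset.sum_congr rfl fun l _ => ?_
      rw [Rat.smul_def]
    have h3 : ((g ⟨a k, hmem k⟩ : ℚ) : ℝ) = ∑ l, ((α k l : ℚ) : ℝ) * (q l : ℝ) := by
      rw [hα k, map_sum]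
      push_cast
      refine Finset.sum_congr rfl fun l _ => ?_
      rw [map_smul, hg, smul_eq_mul]
      push_cast
      rfl
    have h4 : ((g ⟨a k, hmem k⟩ : ℚ) : ℝ) - a k =
        ∑ l, ((α k l : ℚ) : ℝ) * ((q l : ℝ) - (u l : ℝ)) := by
      have h5 : ((g ⟨a k, hmem k⟩ : ℚ) : ℝ) - a k =
          ∑ l, ((α k l : ℚ) : ℝ) * (q l : ℝ) - ∑ l, ((α k l : ℚ) : ℝ) * (u l : ℝ) := by
        rw [h3]
        exact congrArg (fun z => _ - z) h2
      rw [h5, ← Finset.sum_sub_distrib]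
      exact Finset.sum_congr rfl fun l _ => by ring
    rw [h4]
    calc |∑ l, ((α k l : ℚ) : ℝ) * ((q l : ℝ) - (u l : ℝ))|
        ≤ ∑ l, |((α k l : ℚ) : ℝ) * ((q l : ℝ) - (u l : ℝ))| :=
          Finset.abs_sum_le_sum_abs _ _
      _ ≤ ∑ _l : Fin (Module.finrank ℚ U), |B| * δ := by
          refine Finset.sum_le_sum fun l _ => ?_
          rw [abs_mul]
          exact mul_le_mul ((hB k l).trans (le_abs_self B)) (hq l).le (abs_nonneg _)
            (abs_nonneg _)
      _ = Module.finrank ℚ U * |B| * δ := by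
          rw [Finset.sum_const, Finset.card_univ, Fintype.card_fin, nsmul_eq_mul]
          ring
      _ < ε := by
          have h5 : (Module.finrank ℚ U : ℝ) * |B| < (Module.finrank ℚ U + 1) * (|B| + 1) := by
            have h6 : (0 : ℝ) ≤ Module.finrank ℚ U := Nat.cast_nonneg _
            have h7 := abs_nonneg B
            nlinarith
          rw [hδ, mul_div_assoc', div_lt_iff₀ (by positivity)]
          nlinarith

end Pool.Agent.N110.CC
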