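import Pool.Agent.N110.CC.Defs

/-!
Definitions: the cones in a subspace of the Néron-Severi space.
-/

set_option autoImplicit false

open FF Pool.Agent.W602.GT Pool.Agent.Y172 Pool.Agent.R887

namespace Pool.Agent.N110.CC

section

variable {K : Type} [Field K] [Algebra ℂ K] {N ρ k : ℕ}

/-- The combination of the integral vectors `s j` with the real coefficients `t j`. -/
noncomputable def comb (s : Fin k → Fin ρ → ℤ) (t : Fin k → ℝ) : Fin ρ → ℝ :=
  ∑ j, t j • fun i => (s j i : ℝ)

/-- The pull back of divisor classes by the pseudo-automorphism `f` of `X` with `φ = f^*` maps the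
group generated by the classes `s j` into itself. -/
def PreservesSpan (y : Fin (N + 1) → K) (c : Place ℂ K → Fin ρ → ℤ) (s : Fin k → Fin ρ → ℤ)
    (φ : K ≃ₐ[ℂ] K) : Prop :=
  ∀ T, IsPullBack y c φ T → ∀ j, ∃ a : Fin k → ℤ,
    T (fun i => (s j i : ℝ)) = comb s (fun i => (a i : ℝ))

/-- The linear map `T'` is the pull back of divisor classes by the pseudo-automorphism `f` of `X`
with `φ = f^*` on the space generated by the classes `s j`, in the coordinates given by the `s j`. -/
def IsPullBackOn (y : Fin (N + 1) → K) (c : Place ℂ K → Fin ρ → ℤ) (s : Fin k → Fin ρ → ℤ)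
    (φ : K ≃ₐ[ℂ] K) (T' : (Fin k → ℝ) ≃ₗ[ℝ] (Fin k → ℝ)) : Prop :=
  ∃ T, IsPullBack y c φ T ∧ ∀ t, comb s (T' t) = T (comb s t)

end

end Pool.Agent.N110.CC
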