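import Pool.Agent.N110.CC.W
import Pool.Agent.N110.CC.WDefs

/-!
Project CC (helper110): the cones in an invariant subspace of dimension `r + 1`. Parts of the proof
are from `VINT` by helper340.
-/

set_option autoImplicit false
set_option linter.unusedSectionVars false

open FF Pool.Agent.W602.GT Pool.Agent.Y172 Pool.Agent.R887
open Pool.Agent.Y167 (cone cone_image cone_ind zero_mem_cone mem_cone_self cone_add cone_smul
  cone_mono)
open Pool.Agent.N110 Pool.Agent.N110.PA Pool.Agent.N110.NV Pool.Agent.N492.PA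
open Pool.Agent.N165.KM (interior_add_mem interior_smul_mem interior_sub exists_pos_functional HasFD
  Sandwich IntL)
open Filter Topology

namespace Pool.Agent.N110.CC

section

variable {K : Type} [Field K] [Algebra ℂ K] {N n r ρ : ℕ} {y : Fin (N + 1) → K}
  {c : Place ℂ K → Fin ρ → ℤ} {𝒮 : Subgroup (K ≃ₐ[ℂ] K)}

theorem presE_S {M : (K ≃ₐ[ℂ] K) → Matrix (Fin ρ) (Fin ρ) ℤ} (hM : Rep y c 𝒮 M) :
    ∀ ψ ∈ 𝒮, ∀ x ∈ effCone y c, TR (M ψ) x ∈ effCone y c := by
  intro ψ hψ x hx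
  refine coneOf_map (TR (M ψ)) ?_ hx
  rintro _ ⟨P, hP, rfl⟩
  exact ⟨comap ψ⁻¹ P, (psaut_iff.1 (hM.ps _ (𝒮.inv_mem hψ)) P).2 hP, hM.TR_rcl hψ hP⟩

theorem pres_S (hy : NormalModel y) (hc : PicardBasis y c)
    {M : (K ≃ₐ[ℂ] K) → Matrix (Fin ρ) (Fin ρ) ℤ} (hM : Rep y c 𝒮 M) :
    ∀ ψ ∈ 𝒮, ∀ x ∈ CE y c, TR (M ψ) x ∈ CE y c := by
  obtain ⟨i, hi⟩ := hy.ne
  obtain ⟨Hy, hHe, hH⟩ := exists_hyp hy hi
  obtain ⟨h, hh⟩ : ∃ h, h = toR (cls y (cQ c) Hy) := ⟨_, rfl⟩
  have hpc := pc_eff hc.numClasses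
  have hint : h ∈ interior (CE y c) := hh ▸ hyp_intN hy hc hi hHe hH
  obtain ⟨hE1, hE2⟩ := Pool.Agent.N40.CC.leafEFF K N ρ y hy c hc
  intro ψ hψ x hx
  have hlim : Tendsto (fun k : ℕ => TR (M ψ) (x + (1 / ((k : ℝ) + 1)) • h)) atTop
      (𝓝 (TR (M ψ) (x + (0 : ℝ) • h))) := by
    have h1 : Tendsto (fun k : ℕ => x + (1 / ((k : ℝ) + 1)) • h) atTop (𝓝 (x + (0 : ℝ) • h)) :=
      tendsto_const_nhds.add (tendsto_one_div_add_atTop_nhds_zero_nat.smul_const _)
    exact ((LinearMap.continuous_of_finiteDimensional (TR (M ψ))).tendsto _).comp h1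
  rw [zero_smul, add_zero] at hlim
  refine isClosed_closure.mem_of_tendsto hlim (Eventually.of_forall fun k => ?_)
  have h2 : x + (1 / ((k : ℝ) + 1)) • h ∈ interior (CE y c) := by
    rw [add_comm x]
    exact interior_add_mem hpc.add (interior_smul_mem hpc.smul (by positivity) hint) hx
  exact hE1 (presE_S hM ψ hψ _ (hE2 h2))

/-- real classes of effective divisors in a rational subspace are approximated by rational ones -/
theorem eff_approx {s : Fin (r + 1) → Fin ρ → ℤ} {t : Fin (r + 1) → ℝ}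
    (ht : comb s t ∈ effCone y c) (ht0 : t ≠ 0) : ∃ t' : Fin (r + 1) → ℚ, t' ≠ 0 ∧
      comb s (fun j => (t' j : ℝ)) ∈ effCone y c ∧ ∃ ε : ℝ, 0 < ε ∧
      comb s (t - ε • fun j => (t' j : ℝ)) ∈ effCone y c := by
  classical
  obtain ⟨S, hS, a, ha, hsum⟩ := ht
  have hP : ∀ z : S, ∃ P : Place ℂ K, IsPrimeDivisor y P ∧ (z : Fin ρ → ℝ) = rcl c P :=
    fun z => hS z.2
  choose P hP using hP
  obtain ⟨j₀, hj₀⟩ : ∃ j, t j ≠ 0 := by
    by_contra hcon
    push Not at hcon
    exact ht0 (funext hcon)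
  -- the family of real numbers
  obtain ⟨A, hA⟩ : ∃ A : S ⊕ Fin (r + 1) → ℝ, A = Sum.elim (fun z : S => a z) t := ⟨_, rfl⟩
  obtain ⟨η, hη0, hη1, hη2⟩ : ∃ η : ℝ, 0 < η ∧ η ≤ |t j₀| ∧ ∀ z : S, a z ≠ 0 → η ≤ a z := by
    obtain ⟨F, hF⟩ : ∃ F : Finset ℝ, F = insert |t j₀| ((Finset.univ.filter fun z : S =>
      a z ≠ 0).image fun z : S => a z) := ⟨_, rfl⟩
    have hne : F.Nonempty := by rw [hF]; exact Finset.insert_nonempty _ _
    refine ⟨F.min' hne, ?_, ?_, fun z hz => ?_⟩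
    · rw [Finset.lt_min'_iff]
      intro b hb
      rw [hF, Finset.mem_insert, Finset.mem_image] at hb
      rcases hb with rfl | ⟨z, hz, rfl⟩
      · exact abs_pos.2 hj₀
      · exact lt_of_le_of_ne (ha z) (Ne.symm (Finset.mem_filter.1 hz).2)
    · exact Finset.min'_le _ _ (by rw [hF]; exact Finset.mem_insert_self _ _)
    · refine Finset.min'_le _ _ ?_
      rw [hF, Finset.mem_insert, Finset.mem_image]
      exact Or.inr ⟨z, Finset.mem_filter.2 ⟨Finset.mem_univ _, hz⟩, rfl⟩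
  obtain ⟨A', hrel, hclose⟩ := exists_lin A (half_pos hη0)
  have hz0 : ∀ z : S, a z = 0 → A' (Sum.inl z) = 0 := by
    intro z hz
    have h1 := hrel (Pi.single (Sum.inl z) 1) (by
      rw [Finset.sum_eq_single (Sum.inl z)]
      · rw [hA, Pi.single_eq_same]
        simp [hz]
      · intro k _ hk
        rw [Pi.single_eq_of_ne hk]
        simp
      · intro h
        exact absurd (Finset.mem_univ _) h)
    rw [Finset.sum_eq_single (Sum.inl z)] at h1
    · rwa [Pi.single_eq_same, one_mul] at h1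
    · intro k _ hk
      rw [Pi.single_eq_of_ne hk, zero_mul]
    · intro h
      exact absurd (Finset.mem_univ _) h
  have hA'nn : ∀ z : S, 0 ≤ ((A' (Sum.inl z) : ℚ) : ℝ) := by
    intro z
    by_cases h0 : a z = 0
    · rw [hz0 z h0]
      simp
    · have h1 := hclose (Sum.inl z)
      rw [hA] at h1
      have h2 := hη2 z h0
      have h3 : |((A' (Sum.inl z) : ℚ) : ℝ) - a z| < η / 2 := h1
      rw [abs_lt] at h3
      linarith
  -- the relation
  have hrel' : ∀ i, ∑ z : S, A' (Sum.inl z) * (c (P z) i : ℚ) =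
      ∑ j, A' (Sum.inr j) * (s j i : ℚ) := by
    intro i
    have h1 := hrel (Sum.elim (fun z => (c (P z) i : ℚ)) fun j => -(s j i : ℚ)) (by
      rw [Fintype.sum_sum_type, hA]
      simp only [Sum.elim_inl, Sum.elim_inr]
      have h2 := congrFun hsum i
      rw [← Finset.sum_coe_sort S] at h2
      unfold comb at h2
      rw [Finset.sum_apply, Finset.sum_apply] at h2
      have h3 : ∑ z : S, (((c (P z) i : ℤ) : ℚ) : ℝ) * a z = ∑ z : S, (a z • (z : Fin ρ → ℝ)) i := by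
        refine Finset.sum_congr rfl fun z _ => ?_
        have h4 : (z : Fin ρ → ℝ) i = (c (P z) i : ℝ) := congrFun (hP z).2 i
        rw [Pi.smul_apply, smul_eq_mul, h4]
        push_cast
        ring
      rw [h3, ← h2, ← Finset.sum_add_distrib]
      refine Finset.sum_eq_zero fun j _ => ?_
      rw [Pi.smul_apply, smul_eq_mul]
      push_cast
      ring)
    rw [Fintype.sum_sum_type] at h1
    simp only [Sum.elim_inl, Sum.elim_inr] at h1
    have h2 : ∑ z : S, (c (P z) i : ℚ) * A' (Sum.inl z) = ∑ z : S, A' (Sum.inl z) * (c (P z) i : ℚ) :=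
      Finset.sum_congr rfl fun z _ => mul_comm _ _
    have h3 : ∑ j, -(s j i : ℚ) * A' (Sum.inr j) = -∑ j, A' (Sum.inr j) * (s j i : ℚ) := by
      rw [← Finset.sum_neg_distrib]
      exact Finset.sum_congr rfl fun j _ => by ring
    rw [h2, h3] at h1
    linarith
  have hcomb' : ∀ b : ℝ, comb s (t - b • fun j => ((A' (Sum.inr j) : ℚ) : ℝ)) =
      ∑ z : S, (a z - b * ((A' (Sum.inl z) : ℚ) : ℝ)) • rcl c (P z) := by
    intro b
    have h1 : comb s (t - b • fun j => ((A' (Sum.inr j) : ℚ) : ℝ)) = comb s t -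
        b • comb s (fun j => ((A' (Sum.inr j) : ℚ) : ℝ)) := by
      unfold comb
      rw [Finset.smul_sum, ← Finset.sum_sub_distrib]
      refine Finset.sum_congr rfl fun j _ => ?_
      rw [Pi.sub_apply, Pi.smul_apply, smul_eq_mul, sub_smul, mul_smul]
    have h2 : comb s (fun j => ((A' (Sum.inr j) : ℚ) : ℝ)) =
        ∑ z : S, ((A' (Sum.inl z) : ℚ) : ℝ) • rcl c (P z) := by
      funext i
      have h3 := congrArg (fun q : ℚ => (q : ℝ)) (hrel' i)
      push_cast at h3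
      unfold comb rcl
      rw [Finset.sum_apply, Finset.sum_apply]
      simp only [Pi.smul_apply, smul_eq_mul]
      exact h3.symm
    rw [h1, h2, hsum, ← Finset.sum_coe_sort S, Finset.smul_sum, ← Finset.sum_sub_distrib]
    refine Finset.sum_congr rfl fun z _ => ?_
    have h4 : a z • (z : Fin ρ → ℝ) = a z • rcl c (P z) := congrArg (fun w => a z • w) (hP z).2
    rw [sub_smul, mul_smul, h4]
  have hmem : ∀ w : S → ℝ, (∀ z, 0 ≤ w z) → ∑ z : S, w z • rcl c (P z) ∈ effCone y c := by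
    intro w hw
    refine Finset.sum_induction (fun z : S => w z • rcl c (P z)) (fun x => x ∈ effCone y c)
      (fun _ _ h1 h2 => coneOf_add h1 h2) (coneOf_zero _) fun z _ => ?_
    have h1 : rcl c (P z) ∈ effCone y c := coneOf_self ⟨P z, (hP z).1, rfl⟩
    exact coneOf_smul h1 (hw z)
  obtain ⟨B, hB⟩ : ∃ B : ℝ, ∀ z : S, ((A' (Sum.inl z) : ℚ) : ℝ) ≤ B := by
    obtain ⟨B, hB⟩ := (Set.finite_range fun z : S => ((A' (Sum.inl z) : ℚ) : ℝ)).bddAbove
    exact ⟨B, fun z => hB ⟨z, rfl⟩⟩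
  refine ⟨fun j => A' (Sum.inr j), fun h0 => ?_, ?_, η / (|B| + 1), by positivity, ?_⟩
  · have h1 := hclose (Sum.inr j₀)
    have h2 : A' (Sum.inr j₀) = 0 := congrFun h0 j₀
    rw [h2, hA] at h1
    have h3 : |((0 : ℚ) : ℝ) - t j₀| < η / 2 := h1
    rw [Rat.cast_zero, zero_sub, abs_neg] at h3
    linarith
  · have h1 := hcomb' 0
    have h2 : comb s (fun j => ((A' (Sum.inr j) : ℚ) : ℝ)) =
        ∑ z : S, ((A' (Sum.inl z) : ℚ) : ℝ) • rcl c (P z) := by
      funext i
      have h3 := congrArg (fun q : ℚ => (q : ℝ)) (hrel' i)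
      push_cast at h3
      unfold comb rcl
      rw [Finset.sum_apply, Finset.sum_apply]
      simp only [Pi.smul_apply, smul_eq_mul]
      exact h3.symm
    rw [h2]
    exact hmem _ hA'nn
  · rw [hcomb']
    refine hmem _ fun z => ?_
    by_cases h0 : a z = 0
    · rw [hz0 z h0, h0]
      simp
    · have h1 := hη2 z h0
      have h2 := hB z
      have h3 : η / (|B| + 1) * ((A' (Sum.inl z) : ℚ) : ℝ) ≤ η := by
        rw [div_mul_eq_mul_div, div_le_iff₀ (by positivity)]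
        have h4 := le_abs_self B
        nlinarith
      linarith

end

end Pool.Agent.N110.CC
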