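import Pool.Agent.N110.CC.W2

/-!
Project CC (helper110): the cones in an invariant subspace of dimension `r + 1`, main theorem. Parts
of the proof are from `VINT` by helper340.
-/

set_option autoImplicit false
set_option linter.unusedSectionVars false

open FF Pool.Agent.W602.GT Pool.Agent.Y172 Pool.Agent.R887
open Pool.Agent.Y167 (cone cone_image cone_ind zero_mem_cone mem_cone_self cone_add cone_smul
  cone_mono)
open Pool.Agent.N110 Pool.Agent.N110.PA Pool.Agent.N110.NV Pool.Agent.N492.PA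
open Pool.Agent.N165.KM (interior_add_mem interior_smul_mem interior_sub exists_pos_functional HasFD
  Sandwich IntL)
open Filter Topology

namespace Pool.Agent.N110.CC

section

variable {K : Type} [Field K] [Algebra ℂ K] {N n r ρ : ℕ} {y : Fin (N + 1) → K}
  {c : Place ℂ K → Fin ρ → ℤ} {𝒮 : Subgroup (K ≃ₐ[ℂ] K)}

/-- **The cones in an invariant subspace.** -/
theorem mainW (hy : NormalModel y) (hn : Algebra.trdeg ℂ K = n) (hn0 : 0 < n) (hr : 0 < r)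
    (hc : PicardBasis y c) (h𝒮 : ∀ φ ∈ 𝒮, PseudoAut φ y) {φ : (Fin r → ℤ) → (K ≃ₐ[ℂ] K)}
    (hφ : ∀ u v, φ (u + v) = φ u * φ v) (hφ𝒮 : ∀ v, φ v ∈ 𝒮)
    (hent : ∀ v, v ≠ 0 → 1 < dynDegree (φ v) y n 1)
    {s : Fin (r + 1) → Fin ρ → ℤ} (hli : LinearIndependent ℝ (fun j i => (s j i : ℝ)))
    (hst : ∀ ψ ∈ 𝒮, PreservesSpan y c s ψ) {t₀ : Fin (r + 1) → ℝ}
    (ht₀ : comb s t₀ ∈ interior (CE y c)) :
    (∀ D : Set (Fin ρ → ℝ), IsClosed D → (∀ x ∈ D, ∀ z ∈ D, x + z ∈ D) →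
      (∀ t : ℝ, 0 ≤ t → ∀ x ∈ D, t • x ∈ D) →
      (∀ ψ ∈ 𝒮, ∀ T, IsPullBack y c ψ T → ∀ x ∈ D, T x ∈ D) → comb s t₀ ∈ D →
      ∀ t, comb s t ∈ CE y c → comb s t ∈ D) ∧
    (∀ t, comb s t ∈ effCone y c → t ≠ 0 → comb s t ∈ interior (CE y c)) ∧
    HasFundDomain {T' | ∃ ψ ∈ 𝒮, IsPullBackOn y c s ψ T'} {t | comb s t ∈ effCone y c} := by
  classical
  have hρ : 0 < ρ := by
    rcases Nat.eq_zero_or_pos ρ with h | h
    · exfalso
      subst h
      have h1 := hli.ne_zero 0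
      exact h1 (funext fun i => i.elim0)
    · exact h
  obtain ⟨M, hM⟩ := exists_rep hy hc h𝒮
  have hpc := pc_eff hc.numClasses
  obtain ⟨hE1, hE2⟩ := Pool.Agent.N40.CC.leafEFF K N ρ y hy c hc
  obtain ⟨e, he⟩ : ∃ e : Fin (r + 1) → Fin ρ → ℝ, e = fun j i => (s j i : ℝ) := ⟨_, rfl⟩
  rw [← he] at hli
  obtain ⟨ι, hι⟩ : ∃ ι : (Fin (r + 1) → ℝ) →ₗ[ℝ] (Fin ρ → ℝ), ∀ t, ι t = ∑ i, t i • e i :=
    ⟨Fintype.linearCombination ℝ e, fun t => Fintype.linearCombination_apply ℝ e t⟩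
  have hcomb : ∀ t, comb s t = ι t := fun t => by
    rw [hι, he]
    rfl
  have hιinj : ∀ t, ι t = 0 → t = 0 := by
    intro t ht
    rw [hι] at ht
    exact funext fun i => Fintype.linearIndependent_iff.1 hli t ht i
  have hinj : ∀ t u, ι t = ι u → t = u := fun t u h =>
    sub_eq_zero.1 (hιinj _ (by rw [map_sub, h, sub_self]))
  have hιs : ∀ j, ι (Pi.single j 1) = e j := by
    intro j
    rw [hι, Finset.sum_eq_single j]
    · simp
    · intro i _ hij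
      rw [Pi.single_eq_of_ne hij, zero_smul]
    · intro h
      exact absurd (Finset.mem_univ _) h
  have hιc : Continuous ι := LinearMap.continuous_of_finiteDimensional ι
  -- the matrices
  have hex : ∀ ψ ∈ 𝒮, ∀ j, ∃ a : Fin (r + 1) → ℤ, TR (M ψ) (e j) = ι (fun i => (a i : ℝ)) := by
    intro ψ hψ j
    obtain ⟨a, ha⟩ := hst ψ hψ (hM.TE ⟨ψ, hψ⟩) (hM.isPull ⟨ψ, hψ⟩) j
    refine ⟨a, ?_⟩
    rw [hM.TE_apply, hcomb] at ha
    rw [he]
    exact ha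
  choose! a ha using hex
  obtain ⟨M', hM'⟩ : ∃ M' : (K ≃ₐ[ℂ] K) → Matrix (Fin (r + 1)) (Fin (r + 1)) ℤ,
      ∀ ψ i j, M' ψ i j = a ψ j i := ⟨fun ψ => Matrix.of fun i j => a ψ j i, fun _ _ _ => rfl⟩
  have hcomp : ∀ ψ ∈ 𝒮, ∀ t, ι (TR (M' ψ) t) = TR (M ψ) (ι t) := by
    intro ψ hψ
    have h1 : ι ∘ₗ TR (M' ψ) = TR (M ψ) ∘ₗ ι := by
      refine (Pi.basisFun ℝ (Fin (r + 1))).ext fun j => ?_
      rw [LinearMap.comp_apply, LinearMap.comp_apply, Pi.basisFun_apply, hιs, ha ψ hψ j]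
      congr 1
      funext i
      rw [TR, Matrix.toLin'_apply, Matrix.mulVec_single_one]
      show ((M' ψ i j : ℤ) : ℝ) = _
      rw [hM']
    exact fun t => LinearMap.congr_fun h1 t
  have hone : TR (M' 1) = 1 := LinearMap.ext fun t => hinj _ _ (by
    rw [hcomp 1 𝒮.one_mem, hM.one, TR_one]
    rfl)
  have hmul : ∀ ψ ∈ 𝒮, ∀ χ ∈ 𝒮, TR (M' (ψ * χ)) = TR (M' ψ) * TR (M' χ) := by
    intro ψ hψ χ hχ
    refine LinearMap.ext fun t => hinj _ _ ?_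
    rw [hcomp _ (𝒮.mul_mem hψ hχ), hM.mul ψ hψ χ hχ, TR_mul]
    show TR (M ψ) (TR (M χ) (ι t)) = ι (TR (M' ψ) (TR (M' χ) t))
    rw [hcomp ψ hψ, hcomp χ hχ]
  obtain ⟨TE', hTE'⟩ : ∃ TE' : 𝒮 → ((Fin (r + 1) → ℝ) ≃ₗ[ℝ] (Fin (r + 1) → ℝ)),
      ∀ ψ t, TE' ψ t = TR (M' ψ) t :=
    ⟨fun ψ => LinearEquiv.ofLinear (TR (M' ψ)) (TR (M' (ψ : K ≃ₐ[ℂ] K)⁻¹))
      (by
        show TR (M' ψ) * TR (M' (ψ : K ≃ₐ[ℂ] K)⁻¹) = 1
        rw [← hmul _ ψ.2 _ (𝒮.inv_mem ψ.2), mul_inv_cancel, hone])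
      (by
        show TR (M' (ψ : K ≃ₐ[ℂ] K)⁻¹) * TR (M' ψ) = 1
        rw [← hmul _ (𝒮.inv_mem ψ.2) _ ψ.2, inv_mul_cancel, hone]), fun _ _ => rfl⟩
  -- the cones
  obtain ⟨C', hC'⟩ : ∃ C' : Set (Fin (r + 1) → ℝ), C' = ι ⁻¹' CE y c := ⟨_, rfl⟩
  obtain ⟨E', hE'⟩ : ∃ E' : Set (Fin (r + 1) → ℝ), E' = ι ⁻¹' effCone y c := ⟨_, rfl⟩
  have hmem : ∀ t, t ∈ C' ↔ ι t ∈ CE y c := fun t => by rw [hC']; rfl
  have hmemE : ∀ t, t ∈ E' ↔ ι t ∈ effCone y c := fun t => by rw [hE']; rfl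
  have hPC : PC C' := by
    refine ⟨?_, ?_, ?_, ?_⟩
    · rw [hC']
      exact hpc.closed.preimage hιc
    · intro x hx z hz
      rw [hmem] at hx hz ⊢
      rw [map_add]
      exact hpc.add _ hx _ hz
    · intro b hb x hx
      rw [hmem] at hx ⊢
      rw [map_smul]
      exact hpc.smul b hb _ hx
    · intro x hx hx'
      rw [hmem] at hx hx'
      rw [map_neg] at hx'
      exact hιinj x (hpc.pointed _ hx hx')
  obtain ⟨x₀, hx₀⟩ : ∃ x₀ : Fin ρ → ℝ, x₀ = ι t₀ := ⟨_, rfl⟩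
  have hq₀ : x₀ ∈ interior (CE y c) := by
    rw [hx₀, ← hcomb]
    exact ht₀
  have ht₀int : t₀ ∈ interior C' := by
    rw [mem_interior]
    refine ⟨ι ⁻¹' interior (CE y c), ?_, isOpen_interior.preimage hιc, ?_⟩
    · rw [hC']
      exact Set.preimage_mono interior_subset
    · show ι t₀ ∈ interior (CE y c)
      rwa [← hx₀]
  have hint : ∀ x ∈ interior C', ι x ∈ interior (CE y c) := by
    intro x hx
    obtain ⟨ε, hε, hx'⟩ := interior_sub hx t₀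
    have h1 : ι (x - ε • t₀) ∈ CE y c := (hmem _).1 (interior_subset hx')
    have h2 : ι x = ε • x₀ + ι (x - ε • t₀) := by
      rw [map_sub, map_smul, ← hx₀]
      abel
    rw [h2]
    exact interior_add_mem hpc.add (interior_smul_mem hpc.smul hε hq₀) h1
  have hpres := pres_S hy hc hM
  have hpresE := presE_S hM
  -- growth
  have hφ0 : φ 0 = 1 := phi_zero hφ
  have hφn : ∀ v, φ (-v) = (φ v)⁻¹ := by
    intro v
    rw [eq_inv_iff_mul_eq_one, ← hφ, neg_add_cancel, hφ0]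
  obtain ⟨a0, δ, ha0, hδ, hg⟩ := Pool.Agent.N27.CC.leafGROW K N n ρ r y hy hn hn0 hr hρ
    c hc φ hφ (fun v => h𝒮 _ (hφ𝒮 v)) hent (fun v => M (φ v)) (by
      show M (φ 0) = 1
      rw [hφ0, hM.one]) (fun u v => by
      show M (φ (u + v)) = M (φ u) * M (φ v)
      rw [hφ, hM.mul _ (hφ𝒮 u) _ (hφ𝒮 v)]) (fun v P hP => by
      show (M (φ v)).mulVec (c P) = c (comap (φ (-v)) P)
      rw [hM.pull _ (hφ𝒮 v) P hP, hφn])
  obtain ⟨f, κ, hκ, hf⟩ := exists_pos_functional hpc.closed hpc.add hpc.smul hpc.pointed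
  have hnorm : ∀ j, ∃ κ' : ℝ, 0 ≤ κ' ∧ ∀ v, ‖TR (M (φ v)) (Pi.single j 1)‖ ≤
      κ' * ‖TR (M (φ v)) x₀‖ := by
    intro j
    obtain ⟨τ, hτ, hτ1⟩ := interior_sub hq₀ (Pi.single j 1)
    obtain ⟨τ', hτ', hτ2⟩ := interior_sub hq₀ (-(Pi.single j 1))
    refine ⟨τ'⁻¹ * ((τ + τ') / τ * ‖f‖ / κ + 1), by positivity, fun v => ?_⟩
    obtain ⟨z, hz⟩ : ∃ z, z = TR (M (φ v)) (Pi.single j 1) := ⟨_, rfl⟩
    obtain ⟨w, hw⟩ : ∃ w, w = TR (M (φ v)) x₀ := ⟨_, rfl⟩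
    have h1 : w - τ • z ∈ CE y c := by
      have := hpres _ (hφ𝒮 v) _ (interior_subset hτ1)
      rwa [map_sub, map_smul, ← hz, ← hw] at this
    have h2 : w + τ' • z ∈ CE y c := by
      have := hpres _ (hφ𝒮 v) _ (interior_subset hτ2)
      rw [map_sub, map_smul, map_neg, ← hz, ← hw, smul_neg, sub_neg_eq_add] at this
      exact this
    rw [← hz, ← hw]
    have h3 := hf _ h1
    have h4 := hf _ h2
    have h5 : τ' * f (w - τ • z) + τ * f (w + τ' • z) = (τ + τ') * f w := by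
      rw [map_sub, map_add, map_smul, map_smul, smul_eq_mul, smul_eq_mul]
      ring
    have h6 : f w ≤ ‖f‖ * ‖w‖ := (le_abs_self _).trans (f.le_opNorm w)
    have h7 : 0 ≤ f (w - τ • z) := le_trans (by positivity) h3
    have h8 : τ * (κ * ‖w + τ' • z‖) ≤ (τ + τ') * (‖f‖ * ‖w‖) := by
      have h9 := mul_le_mul_of_nonneg_left h4 hτ.le
      have h10 := mul_le_mul_of_nonneg_left h6 (add_pos hτ hτ').le
      have h11 := mul_nonneg hτ'.le h7
      linarith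
    have h9 : ‖w + τ' • z‖ ≤ (τ + τ') / τ * ‖f‖ / κ * ‖w‖ := by
      have e1 : (τ + τ') / τ * ‖f‖ / κ * ‖w‖ = (τ + τ') * (‖f‖ * ‖w‖) / (τ * κ) := by
        field_simp
      rw [e1, le_div_iff₀ (by positivity)]
      linarith
    have h10 : τ' * ‖z‖ ≤ ‖w + τ' • z‖ + ‖w‖ := by
      have e1 : ‖τ' • z‖ = τ' * ‖z‖ := by rw [norm_smul, Real.norm_eq_abs, abs_of_pos hτ']
      have e2 : τ' • z = (w + τ' • z) - w := by abel
      rw [← e1]
      conv_lhs => rw [e2]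
      exact norm_sub_le _ _
    rw [mul_assoc, inv_mul_eq_div, le_div_iff₀ hτ']
    linarith
  choose κ' hK0 hK using hnorm
  obtain ⟨Kt, hKt⟩ : ∃ Kt : ℝ, Kt = (∑ j, (ρ : ℝ) * κ' j) *
      (‖LinearMap.toContinuousLinearMap ι‖ * ‖t₀‖) + 1 := ⟨_, rfl⟩
  have hKs : 0 ≤ ∑ j, (ρ : ℝ) * κ' j := Finset.sum_nonneg fun j _ =>
    mul_nonneg (Nat.cast_nonneg _) (hK0 j)
  have hKt0 : 0 < Kt := by rw [hKt]; positivity
  have hgr : ∀ v, ∑ i, ∑ j, |(M (φ v) i j : ℝ)| ≤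
      Kt * ∑ j, ‖TR (M' (φ v)) (Pi.single j 1)‖ := by
    intro v
    have h1 : ∑ i, ∑ j, |(M (φ v) i j : ℝ)| ≤ (∑ j, (ρ : ℝ) * κ' j) * ‖TR (M (φ v)) x₀‖ := by
      rw [Finset.sum_comm, Finset.sum_mul]
      refine Finset.sum_le_sum fun j _ => ?_
      have h3 : ∀ i, |(M (φ v) i j : ℝ)| ≤ κ' j * ‖TR (M (φ v)) x₀‖ := by
        intro i
        have h4 := norm_le_pi_norm (TR (M (φ v)) (Pi.single j 1)) i
        have h5 : TR (M (φ v)) (Pi.single j 1) i = (M (φ v) i j : ℝ) := by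
          rw [TR, Matrix.toLin'_apply, Matrix.mulVec_single_one]
          rfl
        rw [h5, Real.norm_eq_abs] at h4
        exact h4.trans (hK j v)
      refine (Finset.sum_le_sum fun i _ => h3 i).trans (le_of_eq ?_)
      rw [Finset.sum_const, Finset.card_univ, Fintype.card_fin, nsmul_eq_mul]
      ring
    have h2 : ‖TR (M (φ v)) x₀‖ ≤ (‖LinearMap.toContinuousLinearMap ι‖ * ‖t₀‖) *
        ∑ j, ‖TR (M' (φ v)) (Pi.single j 1)‖ := by
      rw [hx₀, ← hcomp _ (hφ𝒮 v), mul_assoc]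
      refine ((LinearMap.toContinuousLinearMap ι).le_opNorm (TR (M' (φ v)) t₀)).trans ?_
      refine mul_le_mul_of_nonneg_left ?_ (norm_nonneg _)
      have h3 : TR (M' (φ v)) t₀ = ∑ j, t₀ j • TR (M' (φ v)) (Pi.single j 1) := by
        conv_lhs => rw [← Finset.univ_sum_single t₀]
        rw [map_sum]
        refine Finset.sum_congr rfl fun j _ => ?_
        rw [← map_smul]
        congr 1
        funext i
        by_cases hij : i = j
        · subst hij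
          simp
        · rw [Pi.single_eq_of_ne hij, Pi.smul_apply, Pi.single_eq_of_ne hij, smul_zero]
      rw [h3, Finset.mul_sum]
      refine norm_sum_le_of_le _ fun j _ => ?_
      rw [norm_smul]
      exact mul_le_mul_of_nonneg_right (norm_le_pi_norm t₀ j) (norm_nonneg _)
    have h3 : 0 ≤ ∑ j, ‖TR (M' (φ v)) (Pi.single j 1)‖ :=
      Finset.sum_nonneg fun _ _ => norm_nonneg _
    rw [hKt, add_mul, one_mul]
    have h4 := mul_le_mul_of_nonneg_left h2 hKs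
    rw [← mul_assoc] at h4
    linarith
  have hact : Act r C' (fun v => TR (M' (φ v))) := by
    refine ⟨hr, hPC, ⟨t₀, ht₀int⟩, ?_, fun u v => ?_, fun v x hx => ?_, a0 / Kt, δ,
      div_pos ha0 hKt0, hδ, fun v => ?_⟩
    · show TR (M' (φ 0)) = 1
      rw [hφ0, hone]
    · show TR (M' (φ (u + v))) = TR (M' (φ u)) * TR (M' (φ v))
      rw [hφ, hmul _ (hφ𝒮 u) _ (hφ𝒮 v)]
    · rw [hmem] at hx ⊢
      rw [hcomp _ (hφ𝒮 v)]
      exact hpres _ (hφ𝒮 v) _ hx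
    · rw [div_mul_eq_mul_div, div_le_iff₀ hKt0]
      have h1 := hg v
      have h2 := hgr v
      linarith
  obtain ⟨W, b, st⟩ := exists_str Pool.Agent.N386.CC.leafPF
    (Pool.Agent.N707.CC.leafCE Pool.Agent.N386.CC.leafPF) Pool.Agent.N769.CC.leafLIN
    (Pool.Agent.N394.CC.leafIND Pool.Agent.N395.CC.leafSEP) hact
  have hTint : ∀ v, ∀ x : Fin (r + 1) → ℝ, (∀ i, ∃ m : ℤ, x i = m) →
      ∀ i, ∃ m : ℤ, TR (M' (φ v)) x i = m := fun v x hx => TR_int _ hx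
  -- effective classes
  have hbig : ∀ t, t ∈ E' → t ≠ 0 → t ∈ interior C' := by
    intro t ht ht0
    rw [hmemE, ← hcomb] at ht
    obtain ⟨t', ht'0, ht'E, ε, hε, hsub⟩ := eff_approx ht ht0
    obtain ⟨d, z, hd, hz⟩ := Pool.Agent.N340.CC.common t'
    have hd' : (0 : ℝ) < d := by exact_mod_cast hd
    have hz1 : ∀ i, ((z i : ℤ) : ℝ) = d * (t' i : ℝ) := by
      intro i
      have h1 := congrFun hz i
      rw [Pi.smul_apply, smul_eq_mul] at h1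
      have h2 : ((z i : ℤ) : ℚ) = d * t' i := h1
      have h3 := congrArg (fun q : ℚ => (q : ℝ)) h2
      push_cast at h3
      exact h3
    have h1 : (fun j => (t' j : ℝ)) ∈ C' := by
      rw [hmem, ← hcomb]
      exact hE1 ht'E
    have h2 : (d : ℝ) • (fun j => (t' j : ℝ)) ∈ interior C' := by
      refine st.integral hTint (hPC.smul d hd'.le _ h1) (fun i => ⟨z i, ?_⟩) (fun h0 => ?_)
      · rw [Pi.smul_apply, smul_eq_mul, hz1]
      · apply ht'0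
        funext i
        have h3 := congrFun h0 i
        rw [Pi.smul_apply, smul_eq_mul, Pi.zero_apply] at h3
        have h4 := (mul_eq_zero.1 h3).resolve_left hd'.ne'
        exact_mod_cast h4
    have h3 := interior_smul_mem hPC.smul (inv_pos.2 hd') h2
    rw [smul_smul, inv_mul_cancel₀ hd'.ne', one_smul] at h3
    have h4 : t - ε • (fun j => (t' j : ℝ)) ∈ C' := by
      rw [hmem, ← hcomb]
      exact hE1 hsub
    have h5 := interior_add_mem hPC.add (interior_smul_mem hPC.smul hε h3) h4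
    rwa [add_sub_cancel] at h5
  refine ⟨fun D hcl hadd hsmul hD hx t ht => ?_, fun t ht ht0 => ?_, ?_⟩
  · have h1 := st.rigid (D := ι ⁻¹' D) (hcl.preimage hιc) (fun x hx z hz => by
      show ι (x + z) ∈ D
      rw [map_add]
      exact hadd _ hx _ hz) (fun b hb x hx => by
      show ι (b • x) ∈ D
      rw [map_smul]
      exact hsmul b hb _ hx) (fun v x hx => by
      show ι (TR (M' (φ v)) x) ∈ D
      rw [hcomp _ (hφ𝒮 v)]
      exact hD (φ v) (hφ𝒮 v) (hM.TE ⟨φ v, hφ𝒮 v⟩) (hM.isPull ⟨φ v, hφ𝒮 v⟩) _ hx)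
      (x := t₀) (by
        show ι t₀ ∈ D
        rw [← hcomb]
        exact hx) ht₀int
    rw [hcomb] at ht ⊢
    exact h1 ((hmem t).2 ht)
  · rw [hcomb] at ht ⊢
    exact hint _ (hbig t ((hmemE t).2 ht) ht0)
  -- the fundamental domain
  obtain ⟨F, hF, hcov⟩ := st.cover Pool.Agent.N362.CC.leafCOV
  obtain ⟨pull, hpull⟩ : ∃ pull : 𝒮 → ((Fin (r + 1) → ℝ) ≃ₗ[ℝ] (Fin (r + 1) → ℝ)),
    ∀ ψ, pull ψ = TE' ψ⁻¹ := ⟨_, fun _ => rfl⟩
  have hintE : interior C' ⊆ E' := fun x hx => (hmemE x).2 (hE2 (hint x hx))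
  have hpresE' : ∀ ψ ∈ 𝒮, ∀ x ∈ E', TR (M' ψ) x ∈ E' := by
    intro ψ hψ x hx
    rw [hmemE] at hx ⊢
    rw [hcomp ψ hψ]
    exact hpresE ψ hψ _ hx
  have hfd : HasFD pull E' := by
    refine HasFD.of_cover (C := C') ⟨hPC.closed, hPC.add, hPC.smul, hPC.pointed, ⟨t₀, ht₀int⟩,
      fun x hx => (hmem x).2 (hE1 ((hmemE x).1 hx)), hintE, fun x hx z hz => ?_,
      fun t ht x hx => ?_⟩
      (fun f g => ?_) (fun f x hx => ?_)
      (fun f x hx => ?_) (fun x hx => ?_) F (fun a ha => ⟨(hF a ha).2, hintE (hF a ha).1⟩)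
      (fun x hx => ?_)
    · rw [hmemE] at hx hz ⊢
      rw [map_add]
      exact coneOf_add hx hz
    · rw [hmemE] at hx ⊢
      rw [map_smul]
      exact coneOf_smul hx ht
    · rw [hpull, hpull, hpull]
      apply LinearEquiv.ext
      intro t
      show TE' (f * g)⁻¹ t = TE' g⁻¹ (TE' f⁻¹ t)
      rw [hTE', hTE', hTE', mul_inv_rev]
      have h1 := hmul _ (g⁻¹).2 _ (f⁻¹).2
      exact LinearMap.congr_fun h1 t
    · rw [hpull, hTE']
      exact TR_int _ hx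
    · rw [hpull, hTE']
      exact hpresE' _ (f⁻¹).2 x hx
    · by_cases hx0 : x = 0
      · exact ⟨∅, by simp, hx0 ▸ zero_mem_cone _⟩
      · obtain ⟨v, hv⟩ := hcov x (hbig x hx hx0)
        refine ⟨F.image (TR (M' (φ (-v)))), fun a ha => ?_, ?_⟩
        · obtain ⟨a', ha', rfl⟩ := Finset.mem_image.1 ha
          refine ⟨TR_int _ (hF a' ha').2, hpresE' _ (hφ𝒮 _) _ (hintE (hF a' ha').1)⟩
        · have h1 := cone_image (TR (M' (φ (-v)))) hv
          have h2 : TR (M' (φ (-v))) (TR (M' (φ v)) x) = x := by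
            have h3 := hmul _ (hφ𝒮 (-v)) _ (hφ𝒮 v)
            rw [← hφ, neg_add_cancel, hφ0, hone] at h3
            exact (LinearMap.congr_fun h3 x).symm
          rwa [h2] at h1
    · obtain ⟨v, hv⟩ := hcov x hx
      refine ⟨(⟨φ v, hφ𝒮 v⟩ : 𝒮)⁻¹, ?_⟩
      rw [hpull, inv_inv, hTE']
      exact hv
  obtain ⟨S, hS, hU, hdis⟩ := hfd
  have hset : ∀ T, (∃ ψ ∈ 𝒮, IsPullBackOn y c s ψ T) ↔ ∃ f : 𝒮, T = pull f := by
    intro T
    constructor
    · rintro ⟨ψ, hψ, T₁, hT₁, hT⟩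
      refine ⟨(⟨ψ, hψ⟩ : 𝒮)⁻¹, ?_⟩
      rw [hpull, inv_inv]
      apply LinearEquiv.ext
      intro t
      apply hinj
      have h1 := pull_ext hc hT₁ (hM.isPull ⟨ψ, hψ⟩)
      have h2 := hT t
      rw [hcomb, hcomb, h1, hM.TE_apply] at h2
      rw [h2, hTE', hcomp ψ hψ]
    · rintro ⟨f, rfl⟩
      rw [hpull]
      refine ⟨_, (f⁻¹).2, hM.TE f⁻¹, hM.isPull f⁻¹, fun t => ?_⟩
      rw [hcomb, hcomb, hTE', hM.TE_apply, hcomp _ (f⁻¹).2]
  have hEset : {t | comb s t ∈ effCone y c} = E' := by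
    ext t
    rw [hmemE, ← hcomb]
    exact Iff.rfl
  rw [hEset]
  refine ⟨S, hS, ?_, fun T hT hT1 => ?_⟩
  · rw [hU]
    ext x
    simp only [Set.mem_iUnion, Set.mem_setOf_eq]
    constructor
    · rintro ⟨f, hf⟩
      exact ⟨pull f, (hset _).2 ⟨f, rfl⟩, hf⟩
    · rintro ⟨T, hT, hx⟩
      obtain ⟨f, rfl⟩ := (hset T).1 hT
      exact ⟨f, hx⟩
  · obtain ⟨f, rfl⟩ := (hset T).1 hT
    exact hdis f hT1

end

end Pool.Agent.N110.CC
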