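import Pool.Agent.N110.CC.W3

/-!
Project CC (helper110): the movable cone and the nef cone in an invariant subspace.
-/

set_option autoImplicit false
set_option linter.unusedSectionVars false

open FF Pool.Agent.W602.GT Pool.Agent.Y172 Pool.Agent.R887
open Pool.Agent.N110 Pool.Agent.N110.PA Pool.Agent.N110.NV Pool.Agent.N492.PA

namespace Pool.Agent.N110.CC

section

variable {K : Type} [Field K] [Algebra ℂ K] {N n r ρ : ℕ} {y : Fin (N + 1) → K}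
  {c : Place ℂ K → Fin ρ → ℤ} {𝒮 : Subgroup (K ≃ₐ[ℂ] K)}

theorem sub_mov (hy : NormalModel y) (hn : Algebra.trdeg ℂ K = n) (hn0 : 0 < n) (hr : 0 < r)
    (hc : PicardBasis y c) (h𝒮 : ∀ φ ∈ 𝒮, PseudoAut φ y) {φ : (Fin r → ℤ) → (K ≃ₐ[ℂ] K)}
    (hφ : ∀ u v, φ (u + v) = φ u * φ v) (hφ𝒮 : ∀ v, φ v ∈ 𝒮)
    (hent : ∀ v, v ≠ 0 → 1 < dynDegree (φ v) y n 1)
    {s : Fin (r + 1) → Fin ρ → ℤ} (hli : LinearIndependent ℝ (fun j i => (s j i : ℝ)))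
    (hst : ∀ ψ ∈ 𝒮, PreservesSpan y c s ψ) {t₀ : Fin (r + 1) → ℝ}
    (ht₀ : comb s t₀ ∈ interior (effCone y c)) (ht₀' : comb s t₀ ∈ movCone y c) :
    (∀ t, comb s t ∈ effCone y c → comb s t ∈ movCone y c ∧
      (t ≠ 0 → comb s t ∈ interior (effCone y c))) ∧
    HasFundDomain {T | ∃ ψ ∈ 𝒮, IsPullBackOn y c s ψ T}
      {t | comb s t ∈ movCone y c ∩ effCone y c} := by
  obtain ⟨hE1, hE2⟩ := Pool.Agent.N40.CC.leafEFF K N ρ y hy c hc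
  obtain ⟨h1, h2, h3⟩ := mainW hy hn hn0 hr hc h𝒮 hφ hφ𝒮 hent hli hst (interior_mono hE1 ht₀)
  have h4 : ∀ t, comb s t ∈ effCone y c → comb s t ∈ movCone y c := fun t ht =>
    h1 (movCone y c) isClosed_closure (fun x hx z hz => closure_coneOf_add hx hz)
      (fun t ht x hx => closure_coneOf_smul hx ht)
      (fun ψ hψ T hT x hx => closure_coneOf_map T.toLinearMap (by
        rintro _ ⟨D', hD', rfl⟩
        have h4 := Pool.Agent.N608.CC.leafMOV K N ρ y hy c ψ (h𝒮 ψ hψ) T hT D' hD'.1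
        exact ⟨_, h4.2 hD', h4.1.symm⟩) hx) ht₀' t (hE1 ht)
  refine ⟨fun t ht => ⟨h4 t ht, fun ht0 =>
    interior_maximal hE2 isOpen_interior (h2 t ht ht0)⟩, ?_⟩
  have h5 : {t | comb s t ∈ movCone y c ∩ effCone y c} = {t | comb s t ∈ effCone y c} := by
    ext t
    exact ⟨fun h => h.2, fun h => ⟨h4 t h, h⟩⟩
  rw [h5]
  exact h3

theorem sub_nef (hy : NormalModel y) (hn : Algebra.trdeg ℂ K = n) (hn0 : 0 < n) (hr : 0 < r)
    (hc : PicardBasis y c) (h𝒮 : ∀ φ ∈ 𝒮, IsAut φ y) {φ : (Fin r → ℤ) → (K ≃ₐ[ℂ] K)}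
    (hφ : ∀ u v, φ (u + v) = φ u * φ v) (hφ𝒮 : ∀ v, φ v ∈ 𝒮)
    (hent : ∀ v, v ≠ 0 → 1 < dynDegree (φ v) y n 1)
    {s : Fin (r + 1) → Fin ρ → ℤ} (hli : LinearIndependent ℝ (fun j i => (s j i : ℝ)))
    (hst : ∀ ψ ∈ 𝒮, PreservesSpan y c s ψ) {t₀ : Fin (r + 1) → ℝ}
    (ht₀ : comb s t₀ ∈ interior (effCone y c)) (ht₀' : comb s t₀ ∈ nefCone y n c) :
    (∀ t, comb s t ∈ effCone y c → comb s t ∈ nefCone y n c ∧
      (t ≠ 0 → comb s t ∈ interior (effCone y c))) ∧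
    HasFundDomain {T | ∃ ψ ∈ 𝒮, IsPullBackOn y c s ψ T}
      {t | comb s t ∈ nefCone y n c ∩ effCone y c} := by
  have hfr := fun φ hφ => Pool.Agent.N265.CC.leafFREE K N n y hy φ (h𝒮 φ hφ)
  obtain ⟨hE1, hE2⟩ := Pool.Agent.N40.CC.leafEFF K N ρ y hy c hc
  obtain ⟨h1, h2, h3⟩ := mainW hy hn hn0 hr hc (fun φ hφ => (hfr φ hφ).1) hφ hφ𝒮 hent hli hst
    (interior_mono hE1 ht₀)
  have h4 : ∀ t, comb s t ∈ effCone y c → comb s t ∈ nefCone y n c := fun t ht =>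
    h1 (nefCone y n c) isClosed_closure (fun x hx z hz => closure_coneOf_add hx hz)
      (fun t ht x hx => closure_coneOf_smul hx ht)
      (fun ψ hψ T hT x hx => closure_coneOf_map T.toLinearMap (by
        rintro _ ⟨D', hD', rfl⟩
        have h4 := Pool.Agent.N608.CC.leafMOV K N ρ y hy c ψ (hfr ψ hψ).1 T hT D' hD'.1
        exact ⟨_, (hfr ψ hψ).2 D' hD', h4.1.symm⟩) hx) ht₀' t (hE1 ht)
  refine ⟨fun t ht => ⟨h4 t ht, fun ht0 =>
    interior_maximal hE2 isOpen_interior (h2 t ht ht0)⟩, ?_⟩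
  have h5 : {t | comb s t ∈ nefCone y n c ∩ effCone y c} = {t | comb s t ∈ effCone y c} := by
    ext t
    exact ⟨fun h => h.2, fun h => ⟨h4 t h, h⟩⟩
  rw [h5]
  exact h3

end

end Pool.Agent.N110.CC
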